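import Pool.Agent.PrimesOnly.Targets

/-! Abscissa of absolute convergence. -/

namespace Pool.Agent.PrimesOnly

open Complex Filter Topology Set MeasureTheory Pool.Agent.SelPole Pool.Agent.CohenPD
open scoped ComplexConjugate ArithmeticFunction.vonMangoldt

theorem ABS_sq_nonneg (n : ℕ) : 0 ≤ sq n := by
  unfold sq
  split_ifs
  · exact mul_nonneg (by norm_num) ArithmeticFunction.vonMangoldt_nonneg
  · exact le_refl 0

theorem ABS_extra {p q : ℕ → ℝ} {E : Set ℕ} {K : ℕ}
    (hdom : ∀ n ∉ E, p n ≤ q n + K * sq n) (n : ℕ) :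
    ‖({m : ℕ | q m < p m} \ E).indicator (fun n => ((q n - p n : ℝ) : ℂ)) n‖ ≤
      ‖((K : ℂ) • fun n => (sq n : ℂ)) n‖ := by
  by_cases hn : n ∈ {m : ℕ | q m < p m} \ E
  · rw [Set.indicator_of_mem hn, Complex.norm_real, Real.norm_eq_abs]
    have h1 := hdom n hn.2
    have h2 : q n < p n := hn.1
    have h3 := ABS_sq_nonneg n
    rw [Pi.smul_apply, smul_eq_mul, norm_mul, Complex.norm_real, Real.norm_of_nonneg h3,
      Complex.norm_natCast, abs_of_neg (by linarith)]
    linarith
  · rw [Set.indicator_of_notMem hn, norm_zero]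
    exact norm_nonneg _

theorem p_ABS (h1 : T_SQ) : T_ABS := by
  intro P R p q E σ₀ K hc
  have key := landau_global (β := 1 / 2) (E := E ∪ ({m : ℕ | q m < p m} \ E)) hc.hP hc.hR ?_ ?_
    (fun x hx1 hx2 => hc.hord x hx1 hx2)
  · exact key
  · intro σ hσ
    have ha : LSeriesSummable (E.indicator (fun n => ((q n - p n : ℝ) : ℂ))) (σ : ℂ) := by
      refine hc.hE.of_re_le_re ?_
      rw [Complex.ofReal_re, Complex.ofReal_re]
      linarith [hc.hσ₀]
    have hsq : LSeriesSummable ((K : ℂ) • fun n => (sq n : ℂ)) (σ : ℂ) :=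
      (h1.1 (σ : ℂ) (by rw [Complex.ofReal_re]; exact hσ)).smul (K : ℂ)
    have hb : LSeriesSummable (({m : ℕ | q m < p m} \ E).indicator
        (fun n => ((q n - p n : ℝ) : ℂ))) (σ : ℂ) := by
      refine Summable.of_norm ?_
      refine Summable.of_nonneg_of_le (fun n => norm_nonneg _) (fun n => ?_) hsq.norm
      exact LSeries.norm_term_le (σ : ℂ) (ABS_extra hc.hdom n)
    have hadd := ha.add hb
    have hdis : Disjoint E ({m : ℕ | q m < p m} \ E) := Set.disjoint_sdiff_right
    rw [Set.indicator_union_of_disjoint hdis]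
    exact hadd
  · intro n hn
    by_contra hcon
    push Not at hcon
    exact hn (by
      by_cases h : n ∈ E
      · exact Or.inl h
      · exact Or.inr ⟨hcon, h⟩)

end Pool.Agent.PrimesOnly
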