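import Pool.Agent.PrimesOnly.Targets

/-! Mean values of `log |apl l|`. -/

set_option autoImplicit false

namespace Pool.Agent.PrimesOnly

open Complex Filter Topology Set MeasureTheory

theorem APM_mono {φ : ℝ → ℝ} {lam B B' : ℝ} {m m' : ℂ} (h : HasMean φ lam m B) (hB : B ≤ B')
    (hm : m = m') : HasMean φ lam m' B' :=
  ⟨h.cont, fun t => (h.bound t).trans hB, hm ▸ h.mean⟩

/-- the coefficient of one factor -/
noncomputable def APM_co (x : ℤ × ℝ × ℝ) (lam : ℝ) : ℂ := by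
  classical exact if 0 < x.2.2 ∧ ∃ j : ℕ, 0 < j ∧ lam = j * (2 * Real.pi / x.2.2)
    then (x.1 : ℂ) * ((2 * Real.pi / x.2.2 / lam : ℝ) : ℂ) * exp (lam * x.2.1 * I) else 0

theorem APM_apm_nil (lam : ℝ) : apm [] lam = 0 := by
  simp [apm]

theorem APM_apm_cons (x : ℤ × ℝ × ℝ) (l : List (ℤ × ℝ × ℝ)) (lam : ℝ) :
    apm (x :: l) lam = APM_co x lam + apm l lam := by
  unfold apm APM_co
  simp only [List.map_cons, List.sum_cons]

theorem APM_apl_cons (x : ℤ × ℝ × ℝ) (l : List (ℤ × ℝ × ℝ)) (s : ℂ) :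
    apl (x :: l) s = apf x s * apl l s := by
  simp only [apl, List.map_cons, List.prod_cons]

theorem APM_norm_z {ω a σ t : ℝ} :
    ‖exp (-((ω : ℝ) : ℂ) * ((σ : ℂ) + t * I - 1 / 2 - a * I))‖ = Real.exp (-(ω * (σ - 1 / 2))) := by
  rw [norm_exp]
  congr 1
  have : (-((ω : ℝ) : ℂ) * ((σ : ℂ) + t * I - 1 / 2 - a * I)) =
      ((-(ω * (σ - 1 / 2)) : ℝ) : ℂ) + ((-(ω * (t - a)) : ℝ) : ℂ) * I := by
    push_cast; ring
  rw [this]
  simp

theorem APM_apf_ne {x : ℤ × ℝ × ℝ} (hx : 0 ≤ x.2.2) {σ : ℝ} (hσ : 1 / 2 < σ) (t : ℝ) :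
    apf x ((σ : ℂ) + t * I) ≠ 0 := by
  unfold apf
  split_ifs with h
  · exact one_ne_zero
  · have hτ : 0 < x.2.2 := lt_of_le_of_ne hx (Ne.symm h)
    refine zpow_ne_zero _ ?_
    intro h0
    have h1 := APM_norm_z (ω := 2 * Real.pi / x.2.2) (a := x.2.1) (σ := σ) (t := t)
    rw [← sub_eq_zero.1 h0, norm_one] at h1
    have h2 : Real.exp (-(2 * Real.pi / x.2.2 * (σ - 1 / 2))) < 1 := by
      rw [Real.exp_lt_one_iff]
      have := mul_pos (div_pos Real.two_pi_pos hτ) (sub_pos.2 hσ)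
      linarith
    linarith

theorem APM_apl_ne {l : List (ℤ × ℝ × ℝ)} (hl : ∀ x ∈ l, 0 ≤ x.2.2) {σ : ℝ} (hσ : 1 / 2 < σ)
    (t : ℝ) : apl l ((σ : ℂ) + t * I) ≠ 0 := by
  unfold apl
  rw [Ne, List.prod_eq_zero_iff]
  intro h
  obtain ⟨x, hx, h0⟩ := List.mem_map.1 h
  exact APM_apf_ne (hl x hx) hσ t h0

/-- `1 - exp (-ω h) ≥ c h` on `(0, 1/2]`, in logarithmic form -/
theorem APM_log_bound {ω : ℝ} (hω : 0 < ω) : ∃ C : ℝ, 0 ≤ C ∧ ∀ h : ℝ, 0 < h → h ≤ 1 / 2 →
    -Real.log (1 - Real.exp (-(ω * h))) ≤ C + Real.log (1 / h) := by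
  refine ⟨|Real.log (ω / (1 + ω))|, abs_nonneg _, fun h hh hh2 => ?_⟩
  have hx : 0 < ω * h := mul_pos hω hh
  have h1 : Real.exp (-(ω * h)) ≤ 1 / (1 + ω * h) := by
    rw [Real.exp_neg, ← one_div]
    apply one_div_le_one_div_of_le (by linarith)
    linarith [Real.add_one_le_exp (ω * h)]
  have h2 : ω / (1 + ω) * h ≤ 1 - Real.exp (-(ω * h)) := by
    have h3 : 1 - 1 / (1 + ω * h) = ω * h / (1 + ω * h) := by
      field_simp
      ring
    have h4 : ω / (1 + ω) * h ≤ ω * h / (1 + ω * h) := by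
      rw [div_mul_eq_mul_div]
      apply div_le_div_of_nonneg_left hx.le (by linarith)
      nlinarith
    linarith
  have hpos : 0 < ω / (1 + ω) * h := by positivity
  have h5 := Real.log_le_log hpos h2
  rw [Real.log_mul (by positivity) hh.ne'] at h5
  rw [one_div, Real.log_inv]
  linarith [neg_abs_le (Real.log (ω / (1 + ω)))]

theorem APM_hasSum {r : ℝ} (h0 : 0 ≤ r) (h1 : r < 1) :
    HasSum (fun n : ℕ => r ^ n / n) (-Real.log (1 - r)) := by
  have h := Real.hasSum_pow_div_log_of_abs_lt_one (x := r) (by rw [abs_of_nonneg h0]; exact h1)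
  have h2 := (hasSum_nat_add_iff (f := fun n : ℕ => r ^ n / n) 1 (g := -Real.log (1 - r))).1
    (by simpa using h)
  simpa using h2

theorem APM_one (h1 : T_SER) (h2 : T_MOPS) (x : ℤ × ℝ × ℝ) (hx : 0 ≤ x.2.2) {lam : ℝ}
    (hlam : 0 < lam) : ∃ C : ℝ, ∀ σ : ℝ, 1 / 2 < σ → σ ≤ 1 →
    HasMean (fun t => Real.log ‖apf x ((σ : ℂ) + t * I)‖) lam
      (-(1 / 2) * exp (-((lam * (σ - 1 / 2) : ℝ) : ℂ)) * APM_co x lam)
      (C * (1 + Real.log (1 / (σ - 1 / 2)))) := by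
  by_cases hτ0 : x.2.2 = 0
  · refine ⟨0, fun σ _ _ => ?_⟩
    have h := h2.2.2.1 0 hlam
    refine APM_mono (B := |0|) (m := 0) ?_ (by simp) (by simp [APM_co, hτ0])
    convert h using 2
    simp [apf, hτ0]
  have hτ : 0 < x.2.2 := lt_of_le_of_ne hx (Ne.symm hτ0)
  set ω : ℝ := 2 * Real.pi / x.2.2 with hω
  have hωpos : 0 < ω := div_pos Real.two_pi_pos hτ
  obtain ⟨C₀, hC₀, hlog⟩ := APM_log_bound hωpos
  refine ⟨|(x.1 : ℝ)| * (C₀ + 1), fun σ hσ hσ1 => ?_⟩
  have hh : 0 < σ - 1 / 2 := by linarith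
  set r : ℝ := Real.exp (-(ω * (σ - 1 / 2))) with hr
  have hr0 : 0 < r := Real.exp_pos _
  have hr1 : r < 1 := by
    rw [hr, Real.exp_lt_one_iff]
    have := mul_pos hωpos hh
    linarith
  have hsum := APM_hasSum hr0.le hr1
  set z₀ : ℂ := exp (-((ω * (σ - 1 / 2) : ℝ) : ℂ) + ω * x.2.1 * I) with hz₀
  have hz₀n : ‖z₀‖ = r := by
    rw [hz₀, norm_exp]
    simp [hr]
  set d : ℕ → ℂ := fun n => -(z₀ ^ n / n) with hd
  have hdn : (fun n => ‖d n‖) = fun n : ℕ => r ^ n / n := by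
    funext n
    rw [hd]
    simp only [norm_neg, norm_div, norm_pow, hz₀n, Complex.norm_natCast]
  have hds : Summable (fun n => ‖d n‖) := by
    rw [hdn]
    exact hsum.summable
  have hz : ∀ t : ℝ, exp (-((ω : ℝ) : ℂ) * ((σ : ℂ) + t * I - 1 / 2 - x.2.1 * I)) =
      z₀ * exp (-((ω : ℝ) : ℂ) * t * I) := by
    intro t
    rw [hz₀, ← Complex.exp_add]
    congr 1
    push_cast
    ring
  have hφ : ∀ t : ℝ, (∑' n, d n * exp (-(((n : ℝ) * ω : ℝ) : ℂ) * t * I)).re =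
      Real.log ‖1 - exp (-((ω : ℝ) : ℂ) * ((σ : ℂ) + t * I - 1 / 2 - x.2.1 * I))‖ := by
    intro t
    set z : ℂ := exp (-((ω : ℝ) : ℂ) * ((σ : ℂ) + t * I - 1 / 2 - x.2.1 * I)) with hzt
    have hzn : ‖z‖ < 1 := by
      rw [hzt, APM_norm_z]
      exact hr1
    have h3 := (Complex.hasSum_taylorSeries_neg_log hzn).neg
    rw [neg_neg] at h3
    rw [← Complex.log_re, ← h3.tsum_eq]
    congr 1
    refine tsum_congr fun n => ?_
    rw [hzt, hz t, mul_pow, ← Complex.exp_nat_mul (-((ω : ℝ) : ℂ) * t * I), hd]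
    simp only []
    have e1 : ((n : ℕ) : ℂ) * (-((ω : ℝ) : ℂ) * t * I) = -(((n : ℝ) * ω : ℝ) : ℂ) * t * I := by
      push_cast; ring
    rw [e1]
    ring
  have hS := h1 hds (fun n => (n : ℝ) * ω) (fun n => by positivity) hlam
  have hM := h2.2.1 hS (x.1 : ℝ)
  refine APM_mono (B := |(x.1 : ℝ)| * ∑' n, ‖d n‖) (m := ((x.1 : ℝ) : ℂ) *
    ((1 / 2) * ∑' n : ℕ, (if (n : ℝ) * ω = lam then d n else 0))) ?_ ?_ ?_
  · convert hM using 2 with t
    rw [hφ t]
    unfold apf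
    rw [if_neg hτ0, norm_zpow, Real.log_zpow]
  · rw [hdn, hsum.tsum_eq, mul_assoc]
    refine mul_le_mul_of_nonneg_left ?_ (abs_nonneg _)
    have h5 := hlog (σ - 1 / 2) hh (by linarith)
    have h6 : 0 ≤ Real.log (1 / (σ - 1 / 2)) := by
      apply Real.log_nonneg
      rw [le_div_iff₀ hh]
      linarith
    nlinarith
  · unfold APM_co
    split_ifs with hj
    · obtain ⟨-, j, hj0, hj⟩ := hj
      rw [← hω] at hj ⊢
      rw [tsum_eq_single j]
      · rw [if_pos hj.symm]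
        have e2 : z₀ ^ j = exp (-((lam * (σ - 1 / 2) : ℝ) : ℂ)) * exp (lam * x.2.1 * I) := by
          rw [hz₀, ← Complex.exp_nat_mul, ← Complex.exp_add, hj]
          congr 1
          push_cast
          ring
        have hjc : (j : ℂ) ≠ 0 := by exact_mod_cast hj0.ne'
        have hωc : (ω : ℂ) ≠ 0 := by exact_mod_cast hωpos.ne'
        have e3 : ((ω / lam : ℝ) : ℂ) = 1 / (j : ℂ) := by
          rw [hj]
          push_cast
          field_simp
        rw [hd]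
        simp only []
        rw [e2, e3]
        push_cast
        ring
      · intro n hn
        rw [if_neg]
        intro h7
        rw [hj] at h7
        have h8 := mul_right_cancel₀ hωpos.ne' h7
        exact hn (by exact_mod_cast h8)
    · have h9 : ∀ n : ℕ, (if (n : ℝ) * ω = lam then d n else 0) = 0 := by
        intro n
        split_ifs with h10
        · exfalso
          refine hj ⟨hτ, n, ?_, h10.symm⟩
          rcases Nat.eq_zero_or_pos n with h11 | h11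
          · rw [h11, Nat.cast_zero, zero_mul] at h10
            exact absurd h10 hlam.ne
          · exact h11
        · rfl
      simp [h9]

theorem p_APM (h1 : T_SER) (h2 : T_MOPS) : T_APM := by
  intro l hl lam hlam
  induction l with
  | nil =>
    refine ⟨0, fun σ _ _ => ?_⟩
    have h := h2.2.2.1 0 hlam
    refine APM_mono (B := |0|) (m := 0) ?_ (by simp) (by simp [APM_apm_nil])
    convert h using 2
    simp [apl]
  | cons x l ih =>
    obtain ⟨C, hC⟩ := ih (fun y hy => hl y (List.mem_cons_of_mem _ hy))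
    obtain ⟨D, hD⟩ := APM_one h1 h2 x (hl x List.mem_cons_self) hlam
    refine ⟨D + C, fun σ hσ hσ1 => ?_⟩
    have h := h2.1 (hD σ hσ hσ1) (hC σ hσ hσ1)
    refine APM_mono (B := D * (1 + Real.log (1 / (σ - 1 / 2))) +
      C * (1 + Real.log (1 / (σ - 1 / 2)))) (m := -(1 / 2) *
      exp (-((lam * (σ - 1 / 2) : ℝ) : ℂ)) * APM_co x lam +
      -(1 / 2) * exp (-((lam * (σ - 1 / 2) : ℝ) : ℂ)) * apm l lam) ?_ (by linarith)
      (by rw [APM_apm_cons]; ring)
    convert h using 2 with t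
    rw [APM_apl_cons, norm_mul, Real.log_mul]
    · exact norm_ne_zero_iff.2 (APM_apf_ne (hl x List.mem_cons_self) hσ t)
    · exact norm_ne_zero_iff.2 (APM_apl_ne (fun y hy => hl y (List.mem_cons_of_mem _ hy)) hσ t)

end Pool.Agent.PrimesOnly
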