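import Pool.Agent.PrimesOnly.Targets

/-! Orders of the product of the factors `1 - exp(..)` of a list. -/

namespace Pool.Agent.PrimesOnly

open Complex Filter Topology Set MeasureTheory Pool.Agent.SelPole Pool.Agent.CohenPD

/-- one factor -/
noncomputable def APO_g (w a : ℝ) (s : ℂ) : ℂ := 1 - exp (-(w : ℂ) * (s - 1 / 2 - a * I))

theorem APO_g_diff (w a : ℝ) : Differentiable ℂ (APO_g w a) := by
  unfold APO_g
  fun_prop

theorem APO_g_an (w a : ℝ) (z : ℂ) : AnalyticAt ℂ (APO_g w a) z :=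
  (APO_g_diff w a).analyticAt z

theorem APO_g_mer (w a : ℝ) (z : ℂ) : MeromorphicAt (APO_g w a) z :=
  (APO_g_an w a z).meromorphicAt

theorem APO_g_ne {w a : ℝ} {z : ℂ} (h : APO_g w a z ≠ 0) :
    meromorphicOrderAt (APO_g w a) z = 0 := by
  rw [(APO_g_an w a z).meromorphicOrderAt_eq, (APO_g_an w a z).analyticOrderAt_eq_zero.mpr h]
  rfl

theorem APO_g_zero {w a : ℝ} (hw : w ≠ 0) {z : ℂ} (h : APO_g w a z = 0) :
    meromorphicOrderAt (APO_g w a) z = 1 := by
  have he : exp (-(w : ℂ) * (z - 1 / 2 - a * I)) = 1 := by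
    unfold APO_g at h
    exact (sub_eq_zero.mp h).symm
  have hd : HasDerivAt (APO_g w a) (-(exp (-(w : ℂ) * (z - 1 / 2 - a * I)) * -(w : ℂ))) z := by
    unfold APO_g
    have h1 : HasDerivAt (fun s : ℂ => -(w : ℂ) * (s - 1 / 2 - a * I)) (-(w : ℂ)) z := by
      have := (((hasDerivAt_id z).sub_const (1 / 2 : ℂ)).sub_const (a * I)).const_mul (-(w : ℂ))
      simpa using this
    exact (h1.cexp).const_sub 1
  have hd2 : deriv (APO_g w a) z ≠ 0 := by
    rw [hd.deriv, he]
    simpa using hw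
  have := meromorphicOrderAt_comp_of_deriv_ne_zero (f := (id : ℂ → ℂ)) (APO_g_an w a z) hd2
  rw [Function.id_comp, h, meromorphicOrderAt_id] at this
  exact this

theorem APO_g_eq_zero {w a t : ℝ} (hw : 0 < w) :
    APO_g w a (1 / 2 + t * I) = 0 ↔ ∃ k : ℤ, t = a + k * (2 * Real.pi / w) := by
  unfold APO_g
  rw [sub_eq_zero, eq_comm, Complex.exp_eq_one_iff]
  constructor
  · rintro ⟨n, hn⟩
    refine ⟨-n, ?_⟩
    have h1 := congrArg Complex.im hn
    simp at h1
    push_cast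
    field_simp
    linarith
  · rintro ⟨k, hk⟩
    refine ⟨-k, ?_⟩
    have hw' : (w : ℂ) ≠ 0 := by exact_mod_cast hw.ne'
    rw [hk]
    push_cast
    field_simp
    ring

theorem APO_g_re {w a : ℝ} (hw : 0 < w) {z : ℂ} (hz : z.re ≠ 1 / 2) : APO_g w a z ≠ 0 := by
  unfold APO_g
  intro h
  rw [sub_eq_zero, eq_comm, Complex.exp_eq_one_iff] at h
  obtain ⟨n, hn⟩ := h
  have h1 := congrArg Complex.re hn
  simp at h1
  rcases h1 with h1 | h1
  · exact hw.ne' h1
  · apply hz
    linarith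

theorem APO_apf {x : ℤ × ℝ × ℝ} (hx : x.2.2 ≠ 0) :
    apf x = fun s => (APO_g (2 * Real.pi / x.2.2) x.2.1 s) ^ x.1 := by
  funext s
  unfold apf APO_g
  rw [if_neg hx]

theorem APO_apf_zero {x : ℤ × ℝ × ℝ} (hx : x.2.2 = 0) : apf x = fun _ => 1 := by
  funext s
  unfold apf
  rw [if_pos hx]

theorem APO_apf_mer (x : ℤ × ℝ × ℝ) (z : ℂ) : MeromorphicAt (apf x) z := by
  by_cases hx : x.2.2 = 0
  · rw [APO_apf_zero hx]
    exact MeromorphicAt.const 1 z
  · rw [APO_apf hx]
    exact (APO_g_mer _ _ z).fun_zpow x.1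

theorem APO_cons (x : ℤ × ℝ × ℝ) (l : List (ℤ × ℝ × ℝ)) :
    apl (x :: l) = fun s => apf x s * apl l s := by
  funext s
  simp [apl]

theorem APO_nil : apl [] = fun _ => 1 := by
  funext s
  simp [apl]

theorem APO_mer (l : List (ℤ × ℝ × ℝ)) (z : ℂ) : MeromorphicAt (apl l) z := by
  induction l with
  | nil => rw [APO_nil]; exact MeromorphicAt.const 1 z
  | cons x l ih =>
    rw [APO_cons]
    exact (APO_apf_mer x z).fun_mul ih

theorem APO_one (z : ℂ) : meromorphicOrderAt (fun _ : ℂ => (1 : ℂ)) z = 0 := by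
  classical
  rw [meromorphicOrderAt_const]
  simp

theorem APO_apf_order {x : ℤ × ℝ × ℝ} (hx : 0 ≤ x.2.2) {t : ℝ} (ht : |x.2.1| < t) :
    meromorphicOrderAt (apf x) (1 / 2 + t * I) = ((ind x t : ℤ) : WithTop ℤ) := by
  classical
  by_cases h0 : x.2.2 = 0
  · rw [APO_apf_zero h0, APO_one]
    have : ¬ ∃ k : ℤ, t = x.2.1 + k * x.2.2 := by
      rintro ⟨k, hk⟩
      rw [h0, mul_zero, add_zero] at hk
      have := le_abs_self x.2.1
      linarith
    unfold ind
    rw [if_neg this]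
    rfl
  · have hpos : 0 < x.2.2 := lt_of_le_of_ne hx (Ne.symm h0)
    have hw : 0 < 2 * Real.pi / x.2.2 := div_pos (by positivity) hpos
    rw [APO_apf h0, fun_meromorphicOrderAt_zpow (APO_g_mer _ _ _)]
    have e : 2 * Real.pi / (2 * Real.pi / x.2.2) = x.2.2 := by
      field_simp
    have key := APO_g_eq_zero (w := 2 * Real.pi / x.2.2) (a := x.2.1) (t := t) hw
    rw [e] at key
    unfold ind
    by_cases h : ∃ k : ℤ, t = x.2.1 + k * x.2.2
    · rw [if_pos h, APO_g_zero hw.ne' (key.mpr h), mul_one]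
    · rw [if_neg h, APO_g_ne (fun h1 => h (key.mp h1)), mul_zero]
      rfl

theorem APO_apf_order_re {x : ℤ × ℝ × ℝ} (hx : 0 ≤ x.2.2) {z : ℂ} (hz : z.re ≠ 1 / 2) :
    meromorphicOrderAt (apf x) z = 0 := by
  by_cases h0 : x.2.2 = 0
  · rw [APO_apf_zero h0, APO_one]
  · have hpos : 0 < x.2.2 := lt_of_le_of_ne hx (Ne.symm h0)
    have hw : 0 < 2 * Real.pi / x.2.2 := div_pos (by positivity) hpos
    rw [APO_apf h0, fun_meromorphicOrderAt_zpow (APO_g_mer _ _ _), APO_g_ne (APO_g_re hw hz),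
      mul_zero]

theorem p_APO : T_APO := by
  refine ⟨APO_mer, ?_, ?_⟩
  · intro l
    induction l with
    | nil =>
      intro _
      refine ⟨0, fun t _ => ?_⟩
      rw [APO_nil, APO_one, indSum_nil]
      rfl
    | cons x l ih =>
      intro h
      obtain ⟨T₀, hT⟩ := ih (fun y hy => h y (List.mem_cons_of_mem _ hy))
      refine ⟨max T₀ |x.2.1|, fun t ht => ?_⟩
      rw [APO_cons, fun_meromorphicOrderAt_mul (APO_apf_mer x _) (APO_mer l _),
        hT t (lt_of_le_of_lt (le_max_left _ _) ht),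
        APO_apf_order (h x List.mem_cons_self) (lt_of_le_of_lt (le_max_right _ _) ht)]
      have : indSum (x :: l) t = ind x t + indSum l t := by simp [indSum]
      rw [this]
      rfl
  · intro l
    induction l with
    | nil =>
      intro _ z _
      rw [APO_nil, APO_one]
    | cons x l ih =>
      intro h z hz
      rw [APO_cons, fun_meromorphicOrderAt_mul (APO_apf_mer x _) (APO_mer l _),
        ih (fun y hy => h y (List.mem_cons_of_mem _ hy)) z hz,
        APO_apf_order_re (h x List.mem_cons_self) hz, add_zero]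

end Pool.Agent.PrimesOnly
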