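import Pool.Agent.PrimesOnly.Main

/-! Application of the comparison theorem to the Selberg class. -/

namespace Pool.Agent.PrimesOnly

open Complex Filter Topology Set Pool.Agent.SelPole Pool.Agent.CohenPD
open scoped ComplexConjugate ArithmeticFunction.vonMangoldt

/-- the comparison theorem as a proposition -/
def T_MAIN : Prop := ∀ {P R : ℂ → ℂ} {p q : ℕ → ℝ} {E : Set ℕ} {σ₀ : ℝ} {K : ℕ},
    Cmp P R p q E σ₀ K → UFE P → UFE R → ∀ {θ C : ℝ}, θ < 1 / 2 →
    (∀ n : ℕ, 2 ≤ n → |q n - p n| ≤ C * (n : ℝ) ^ θ) → ∀ n : ℕ, 2 ≤ n → q n = p n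

theorem sq_nonneg' (n : ℕ) : 0 ≤ sq n := by
  unfold sq
  split_ifs
  · have : (0 : ℝ) ≤ Λ (Nat.sqrt n) := ArithmeticFunction.vonMangoldt_nonneg
    linarith
  · exact le_rfl

theorem sq_prime {p : ℕ} (hp : p.Prime) : sq (p ^ 2) = Real.log ((p ^ 2 : ℕ) : ℝ) := by
  have h1 : IsSquare (p ^ 2) := ⟨p, by ring⟩
  have h2 : Nat.sqrt (p ^ 2) = p := by rw [pow_two]; exact Nat.sqrt_eq p
  unfold sq
  rw [if_pos h1, h2, ArithmeticFunction.vonMangoldt_apply_prime hp]
  push_cast
  rw [Real.log_pow]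
  norm_num

/-- the allowance `K log n` at squares of primes -/
noncomputable def psq (K : ℝ) (n : ℕ) : ℝ := by
  classical exact if ∃ p : ℕ, p.Prime ∧ n = p ^ 2 then K * Real.log n else 0

theorem psq_le {K : ℝ} {N : ℕ} (hN : K ≤ N) (n : ℕ) : psq K n ≤ N * sq n := by
  unfold psq
  split_ifs with h
  · obtain ⟨p, hp, rfl⟩ := h
    rw [sq_prime hp]
    exact mul_le_mul_of_nonneg_right hN (Real.log_natCast_nonneg _)
  · exact mul_nonneg (Nat.cast_nonneg N) (sq_nonneg' n)

/-- `n^θ log n ≤ C n^θ'` for `θ < θ'` -/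
theorem log_rpow_bound {θ θ' : ℝ} (h : θ < θ') (n : ℕ) (hn : 2 ≤ n) :
    (n : ℝ) ^ θ * Real.log n ≤ (1 / (θ' - θ)) * (n : ℝ) ^ θ' := by
  have hn0 : (0 : ℝ) < n := by positivity
  have hd : 0 < θ' - θ := by linarith
  have h1 := Real.log_le_rpow_div hn0.le hd
  have h2 : (n : ℝ) ^ θ' = (n : ℝ) ^ θ * (n : ℝ) ^ (θ' - θ) := by
    rw [← Real.rpow_add hn0]; congr 1; ring
  rw [h2]
  calc (n : ℝ) ^ θ * Real.log n ≤ (n : ℝ) ^ θ * ((n : ℝ) ^ (θ' - θ) / (θ' - θ)) :=
        mul_le_mul_of_nonneg_left h1 (Real.rpow_nonneg hn0.le _)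
    _ = _ := by ring

/-- The theorem for Euler products. -/
theorem app (tM : T_MAIN) (tU : T_UPROD) (tO : T_UOPS)
    {F : ℂ → ℂ} {b : ℕ → ℂ} (hF : IsEulerProduct F b) {r : ℕ}
    (hpole : meromorphicOrderAt F 1 = ((-(r : ℤ) : ℤ) : WithTop ℤ))
    {L : ℂ → ℂ} {c : ℕ → ℝ} (hL : IsEulerProduct L (fun n => (c n : ℂ)))
    (hLent : Differentiable ℂ L) {E : Set ℕ} {σ₀ : ℝ} (hσ₀ : σ₀ < 1 / 2)
    (hE : Summable (E.indicator fun n : ℕ => wt b c n * (n : ℝ) ^ (-σ₀)))
    {θ C : ℝ} (hθ : θ < 1 / 2) (hb : ∀ n : ℕ, 1 ≤ n → ‖b n‖ ≤ C * (n : ℝ) ^ θ)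
    (hc : ∀ n : ℕ, 1 ≤ n → |c n| ≤ C * (n : ℝ) ^ θ) {K : ℝ}
    (h : ((∀ n : ℕ, n ∉ E → (b n).re * Real.log n ≤ gc r c n + psq K n) ∧
          ∀ x : ℝ, 1 / 2 < x → x < 1 → meromorphicOrderAt F x ≤ meromorphicOrderAt L x) ∨
        ((∀ n : ℕ, n ∉ E → gc r c n ≤ (b n).re * Real.log n + psq K n) ∧ L 1 ≠ 0 ∧
          ∀ x : ℝ, 1 / 2 < x → x < 1 → meromorphicOrderAt L x ≤ meromorphicOrderAt F x)) :
    (∀ n : ℕ, 2 ≤ n → (b n).re * Real.log n = gc r c n) ∧
    (∀ s : ℂ, s ≠ 1 → F s * conj (F (conj s)) = (riemannZeta s ^ r * L s) ^ 2) ∧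
    ((∀ n, (b n).im = 0) → ∀ s : ℂ, s ≠ 1 → F s = riemannZeta s ^ r * L s) := by
  have hG := zetaL_EulerFE r hL
  have hP := conjProd_EulerFE hF
  have hR := sq_EulerFE hG
  have uF : UFE (fun s => F s * conj (F (conj s))) := tO.1 (tU.1 hF).1 (tU.1 hF).2
  have uG : UFE (fun s => riemannZeta s ^ r * L s) := tO.1 (tO.2.2.2 tU.2 r) (tU.1 hL).1
  have uG2 : UFE (fun s => (riemannZeta s ^ r * L s) * (riemannZeta s ^ r * L s)) := tO.1 uG uG
  obtain ⟨N, hN⟩ := exists_nat_ge (2 * K)
  -- the bound for the difference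
  obtain ⟨θ', h1', h2'⟩ := exists_between (max_lt hθ (by norm_num : (1 / 4 : ℝ) < 1 / 2))
  have hθ1 : θ < θ' := lt_of_le_of_lt (le_max_left _ _) h1'
  have hθ0 : 1 / 4 < θ' := lt_of_le_of_lt (le_max_right _ _) h1'
  have hC0 : 0 ≤ C := by
    have := (norm_nonneg _).trans (hb 1 le_rfl)
    simpa using this
  have hdiff : ∀ n : ℕ, 2 ≤ n → |2 * gc r c n - 2 * (Real.log n * (b n).re)|
      ≤ (2 * (r * (1 / θ') + C * (1 / (θ' - θ)) + C * (1 / (θ' - θ)))) * (n : ℝ) ^ θ' := by
    intro n hn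
    have hn0 : (0 : ℝ) < n := by positivity
    have hlog : 0 ≤ Real.log n := Real.log_natCast_nonneg n
    have hΛ0 : 0 ≤ Λ n := ArithmeticFunction.vonMangoldt_nonneg
    have hΛ : Λ n ≤ Real.log n := ArithmeticFunction.vonMangoldt_le_log
    have a1 := log_rpow_bound hθ1 n hn
    have a2 := log_rpow_bound (show (0 : ℝ) < θ' by linarith) n hn
    rw [Real.rpow_zero, one_mul, sub_zero] at a2
    have a3 : |(b n).re| * Real.log n ≤ C * (1 / (θ' - θ)) * (n : ℝ) ^ θ' := by
      calc |(b n).re| * Real.log n ≤ (C * (n : ℝ) ^ θ) * Real.log n :=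
            mul_le_mul_of_nonneg_right ((Complex.abs_re_le_norm _).trans (hb n (by omega))) hlog
        _ = C * ((n : ℝ) ^ θ * Real.log n) := by ring
        _ ≤ C * ((1 / (θ' - θ)) * (n : ℝ) ^ θ') := mul_le_mul_of_nonneg_left a1 hC0
        _ = _ := by ring
    have a4 : |c n| * Real.log n ≤ C * (1 / (θ' - θ)) * (n : ℝ) ^ θ' := by
      calc |c n| * Real.log n ≤ (C * (n : ℝ) ^ θ) * Real.log n :=
            mul_le_mul_of_nonneg_right (hc n (by omega)) hlog
        _ = C * ((n : ℝ) ^ θ * Real.log n) := by ring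
        _ ≤ C * ((1 / (θ' - θ)) * (n : ℝ) ^ θ') := mul_le_mul_of_nonneg_left a1 hC0
        _ = _ := by ring
    have a5 : (r : ℝ) * Λ n ≤ r * (1 / θ') * (n : ℝ) ^ θ' := by
      calc (r : ℝ) * Λ n ≤ r * Real.log n := mul_le_mul_of_nonneg_left hΛ (Nat.cast_nonneg r)
        _ ≤ r * ((1 / θ') * (n : ℝ) ^ θ') := mul_le_mul_of_nonneg_left a2 (Nat.cast_nonneg r)
        _ = _ := by ring
    have a6 : |gc r c n| ≤ r * Λ n + |c n| * Real.log n := by
      rw [gc]
      refine (abs_add_le _ _).trans ?_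
      rw [abs_mul, abs_mul, abs_of_nonneg (Nat.cast_nonneg r : (0 : ℝ) ≤ r), abs_of_nonneg hΛ0,
        abs_of_nonneg hlog]
    have a7 : |Real.log n * (b n).re| = |(b n).re| * Real.log n := by
      rw [abs_mul, abs_of_nonneg hlog, mul_comm]
    calc |2 * gc r c n - 2 * (Real.log n * (b n).re)|
        ≤ |2 * gc r c n| + |2 * (Real.log n * (b n).re)| := abs_sub _ _
      _ = 2 * |gc r c n| + 2 * (|(b n).re| * Real.log n) := by
          rw [abs_mul, abs_mul, abs_of_pos (by norm_num : (0 : ℝ) < 2), a7]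
      _ ≤ 2 * (r * (1 / θ') * (n : ℝ) ^ θ' + C * (1 / (θ' - θ)) * (n : ℝ) ^ θ')
          + 2 * (C * (1 / (θ' - θ)) * (n : ℝ) ^ θ') := by linarith
      _ = _ := by ring
  -- equality of the coefficients
  have hpsq : ∀ n, 2 * psq K n ≤ N * sq n := by
    intro n
    have h1 := psq_le hN n
    have h2 : psq (2 * K) n = 2 * psq K n := by
      unfold psq
      split_ifs
      · ring
      · ring
    linarith
  have heq : ∀ n : ℕ, 2 ≤ n → 2 * gc r c n = 2 * (Real.log n * (b n).re) := by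
    rcases h with ⟨hdom, hx⟩ | ⟨hdom, hL1, hx⟩
    · have hord : ∀ x : ℝ, 1 / 2 < x → x ≤ 1 →
          meromorphicOrderAt (fun s => F s * conj (F (conj s))) x
            ≤ meromorphicOrderAt (fun s => (riemannZeta s ^ r * L s) * (riemannZeta s ^ r * L s)) x := by
        intro x h1 h2
        rw [order_conjProd hF, order_sq hG]
        have h3 : meromorphicOrderAt F x
            ≤ meromorphicOrderAt (fun s => riemannZeta s ^ r * L s) x := by
          rcases lt_or_eq_of_le h2 with h4 | h4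
          · rw [order_zetaL_real r hLent (by linarith) h4]
            exact hx x h1 h4
          · rw [h4, Complex.ofReal_one, order_zetaL_one r hLent, hpole]
            have h5 : 0 ≤ meromorphicOrderAt L 1 := (hLent.analyticAt 1).meromorphicOrderAt_nonneg
            exact le_add_of_nonneg_right h5
        exact add_le_add h3 h3
      have hcmp : Cmp (fun s => F s * conj (F (conj s)))
          (fun s => (riemannZeta s ^ r * L s) * (riemannZeta s ^ r * L s))
          (fun n => 2 * (Real.log n * (b n).re)) (fun n => 2 * gc r c n) E σ₀ N :=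
        { hP := hP, hR := hR, hσ₀ := hσ₀, hE := thin_diff r hE, hord := hord,
          hdom := fun n hn => by linarith [hdom n hn, hpsq n] }
      exact tM hcmp uF uG2 h2' hdiff
    · have hord : ∀ x : ℝ, 1 / 2 < x → x ≤ 1 →
          meromorphicOrderAt (fun s => (riemannZeta s ^ r * L s) * (riemannZeta s ^ r * L s)) x
            ≤ meromorphicOrderAt (fun s => F s * conj (F (conj s))) x := by
        intro x h1 h2
        rw [order_conjProd hF, order_sq hG]
        have h3 : meromorphicOrderAt (fun s => riemannZeta s ^ r * L s) x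
            ≤ meromorphicOrderAt F x := by
          rcases lt_or_eq_of_le h2 with h4 | h4
          · rw [order_zetaL_real r hLent (by linarith) h4]
            exact hx x h1 h4
          · rw [h4, Complex.ofReal_one, order_zetaL_one r hLent, hpole]
            have h5 : meromorphicOrderAt L 1 = 0 := by
              rw [← WithTop.coe_zero, meromorphicOrderAt_eq_int_iff (hLent.analyticAt 1).meromorphicAt]
              exact ⟨L, hLent.analyticAt 1, hL1, Eventually.of_forall (fun z => by simp)⟩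
            rw [h5, add_zero]
        exact add_le_add h3 h3
      have hthin : LSeriesSummable (E.indicator fun n =>
          ((2 * (Real.log n * (b n).re) - 2 * gc r c n : ℝ) : ℂ)) σ₀ := by
        have h1 := (thin_diff r hE).neg
        refine (LSeriesSummable_congr (σ₀ : ℂ) (fun {n} _ => ?_)).mp h1
        rw [Pi.neg_apply]
        by_cases hn : n ∈ E
        · rw [Set.indicator_of_mem hn, Set.indicator_of_mem hn]; push_cast; ring
        · rw [Set.indicator_of_notMem hn, Set.indicator_of_notMem hn]; simp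
      have hcmp : Cmp (fun s => (riemannZeta s ^ r * L s) * (riemannZeta s ^ r * L s))
          (fun s => F s * conj (F (conj s))) (fun n => 2 * gc r c n)
          (fun n => 2 * (Real.log n * (b n).re)) E σ₀ N :=
        { hP := hR, hR := hP, hσ₀ := hσ₀, hE := hthin, hord := hord,
          hdom := fun n hn => by linarith [hdom n hn, hpsq n] }
      have hdiff' : ∀ n : ℕ, 2 ≤ n → |2 * (Real.log n * (b n).re) - 2 * gc r c n|
          ≤ (2 * (r * (1 / θ') + C * (1 / (θ' - θ)) + C * (1 / (θ' - θ)))) * (n : ℝ) ^ θ' := by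
        intro n hn
        rw [abs_sub_comm]
        exact hdiff n hn
      exact fun n hn => (tM hcmp uG2 uF h2' hdiff' n hn).symm
  refine ⟨fun n hn => by linarith [heq n hn], ?_, ?_⟩
  · intro s hs
    have t1 : Tendsto (fun x : ℝ => F x * conj (F (conj (x : ℂ)))) atTop (𝓝 1) := by
      have h1 := hF.tendsto_one
      have h2 : Tendsto (fun x : ℝ => conj (F (conj (x : ℂ)))) atTop (𝓝 1) := by
        have h3 := (Complex.continuous_conj.tendsto 1).comp h1
        rw [map_one] at h3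
        refine h3.congr (fun x => ?_)
        simp [Complex.conj_ofReal]
      simpa using h1.mul h2
    have t2 : Tendsto (fun x : ℝ => (riemannZeta x ^ r * L x) * (riemannZeta x ^ r * L x)) atTop
        (𝓝 1) := by
      simpa using (zetaL_tendsto r hL).mul (zetaL_tendsto r hL)
    have h1 := eq_of_coeff hR hP (fun n hn => by exact_mod_cast (heq n hn).symm) t2 t1 s hs
    rw [h1]; ring
  · intro hreal s hs
    refine eq_of_coeff hG hF.toEulerFE (fun n hn => ?_) (zetaL_tendsto r hL) hF.tendsto_one s hs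
    have h1 := heq n hn
    have h2 : b n = ((b n).re : ℂ) := by
      apply Complex.ext
      · simp
      · simp [hreal n]
    rw [ldc, h2]
    have h3 : Real.log n * (b n).re = gc r c n := by linarith
    rw [← h3]
    push_cast
    simp

end Pool.Agent.PrimesOnly
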