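import Pool.Agent.PrimesOnly.L2

/-! Residues of a linear combination of logarithmic derivatives. -/

namespace Pool.Agent.PrimesOnly

open Complex Filter Topology Set MeasureTheory Pool.Agent.SelPole Pool.Agent.CohenPD
open scoped ComplexConjugate ArithmeticFunction.vonMangoldt

/-- the coefficients of a linear combination of logarithmic derivatives -/
noncomputable def lcomb {m : ℕ} (c : Fin m → ℂ) (b : Fin m → ℕ → ℂ) (n : ℕ) : ℂ := ∑ j, c j * b j n

/-- the same linear combination of orders -/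
noncomputable def ordc {m : ℕ} (c : Fin m → ℂ) (F : Fin m → ℂ → ℂ) (z : ℂ) : ℂ :=
  ∑ j, c j * ((meromorphicOrderAt (F j) z).untop₀ : ℂ)

theorem lcomb_hasSum {m : ℕ} {F : Fin m → ℂ → ℂ} {b : Fin m → ℕ → ℂ} (c : Fin m → ℂ)
    (hF : ∀ j, EulerFE (F j) (b j)) {s : ℂ} (hs : 1 < s.re) :
    LSeries (lcomb c b) s = ∑ j, c j * LSeries (b j) s := by
  have h1 : HasSum (fun n => LSeries.term (lcomb c b) s n) (∑ j, c j * LSeries (b j) s) := by
    have h2 : (fun n => LSeries.term (lcomb c b) s n) =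
        fun n => ∑ j, c j * LSeries.term (b j) s n := by
      funext n
      rcases eq_or_ne n 0 with rfl | hn
      · simp
      · simp only [LSeries.term_of_ne_zero hn, lcomb, Finset.sum_div, mul_div_assoc]
    rw [h2]
    exact hasSum_sum fun j _ => (((hF j).summ s hs).hasSum).mul_left _
  exact h1.tsum_eq

/-- The identity in the half-plane of convergence. -/
theorem rel_eq {m : ℕ} {F : Fin m → ℂ → ℂ} {b : Fin m → ℕ → ℂ} (c : Fin m → ℂ)
    (hF : ∀ j, EulerFE (F j) (b j)) {β : ℝ} (hβ : β ≤ 1)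
    (hs : ∀ s : ℂ, β < s.re → LSeriesSummable (lcomb c b) s) {s : ℂ} (h1 : β < s.re) (h2 : s ≠ 1)
    (h3 : ∀ j, F j s ≠ 0) : -LSeries (lcomb c b) s = ∑ j, c j * (deriv (F j) s / F j s) := by
  choose k g hg hgF using fun j => (hF j).cont
  set N : ℂ → ℂ := fun s => ∑ j, c j * (((s - 1) * deriv (g j) s - k j * g j s) *
    ∏ i ∈ Finset.univ.erase j, g i s) with hN
  set M : ℂ → ℂ := fun s => -((s - 1) * (∏ i, g i s) * LSeries (lcomb c b) s) with hM
  have hgd : ∀ j, ∀ w : ℂ, w ≠ 1 → F j w ≠ 0 →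
      (w - 1) * deriv (g j) w - k j * g j w = (w - 1) * g j w * (deriv (F j) w / F j w) := by
    intro j w hw hw0
    have hFw : (fun w => g j w / (w - 1) ^ k j) =ᶠ[𝓝 w] F j := by
      filter_upwards [isOpen_ne.mem_nhds hw] with v hv
      rw [hgF j v hv]
      have : (v - 1) ^ k j ≠ 0 := pow_ne_zero _ (sub_ne_zero.mpr hv)
      field_simp
    have hne : w - 1 ≠ 0 := sub_ne_zero.mpr hw
    have hpow : (w - 1) ^ k j ≠ 0 := pow_ne_zero _ hne
    have hd : HasDerivAt (fun w => g j w / (w - 1) ^ k j)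
        ((deriv (g j) w * (w - 1) ^ k j - g j w * (k j * (w - 1) ^ (k j - 1) * 1)) /
          ((w - 1) ^ k j) ^ 2) w := by
      refine HasDerivAt.div (hg j w).hasDerivAt ?_ hpow
      exact ((hasDerivAt_id w).sub_const 1).pow (k j)
    have hd2 := (hd.congr_of_eventuallyEq hFw.symm).deriv
    rw [hd2, ← hFw.eq_of_nhds]
    have hg0 : g j w ≠ 0 := by
      rw [hgF j w hw]
      exact mul_ne_zero hpow hw0
    have hk : (k j : ℂ) * (w - 1) ^ (k j - 1) * (w - 1) = k j * (w - 1) ^ k j := by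
      rcases Nat.eq_zero_or_pos (k j) with h | h
      · rw [h]; simp
      · rw [mul_assoc, ← pow_succ, Nat.sub_add_cancel h]
    field_simp
    linear_combination (g j w) * hk
  have hNM : ∀ w : ℂ, w ≠ 1 → (∀ j, F j w ≠ 0) →
      N w = (w - 1) * (∏ i, g i w) * ∑ j, c j * (deriv (F j) w / F j w) := by
    intro w hw hw0
    rw [hN]
    simp only
    rw [Finset.mul_sum]
    refine Finset.sum_congr rfl fun j _ => ?_
    rw [hgd j w hw (hw0 j), ← Finset.mul_prod_erase Finset.univ (fun i => g i w) (Finset.mem_univ j)]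
    ring
  have hab : LSeries.abscissaOfAbsConv (lcomb c b) ≤ β := by
    refine LSeries.abscissaOfAbsConv_le_of_forall_lt_LSeriesSummable (fun y hy => ?_)
    exact hs y (by simpa using hy)
  have hLan : ∀ w : ℂ, β < w.re → AnalyticAt ℂ (LSeries (lcomb c b)) w := by
    intro w hw
    exact LSeries_analyticOnNhd _ w (lt_of_le_of_lt hab (by exact_mod_cast hw))
  have hgan : ∀ j (w : ℂ), AnalyticAt ℂ (g j) w := fun j w => (hg j).analyticAt w
  have hNan : AnalyticOnNhd ℂ N {w | β < w.re} := by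
    intro w _
    refine Finset.analyticAt_fun_sum _ fun j _ => ?_
    refine analyticAt_const.mul (AnalyticAt.mul ?_ ?_)
    · exact ((analyticAt_id.sub analyticAt_const).mul (hgan j w).deriv).sub
        (analyticAt_const.mul (hgan j w))
    · exact Finset.analyticAt_fun_prod _ fun i _ => hgan i w
  have hMan : AnalyticOnNhd ℂ M {w | β < w.re} := by
    intro w hw
    refine AnalyticAt.neg (AnalyticAt.mul (AnalyticAt.mul ?_ ?_) (hLan w hw))
    · exact analyticAt_id.sub analyticAt_const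
    · exact Finset.analyticAt_fun_prod _ fun i _ => hgan i w
  have hconv : IsPreconnected {w : ℂ | β < w.re} :=
    (convex_halfSpace_re_gt β).isPreconnected
  have h2m : (2 : ℂ) ∈ {w : ℂ | β < w.re} := by
    simp only [Set.mem_ofPred_eq]
    have : (2 : ℂ).re = 2 := by norm_num
    rw [this]; linarith
  have heq : N =ᶠ[𝓝 2] M := by
    have ho : ∀ᶠ w : ℂ in 𝓝 2, 1 < w.re := by
      refine (isOpen_lt continuous_const continuous_re).mem_nhds ?_
      norm_num
    filter_upwards [ho] with w hw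
    have hw1 : w ≠ 1 := by
      rintro rfl
      simp at hw
    rw [hNM w hw1 (fun j => (hF j).ne w hw), hM]
    simp only
    rw [lcomb_hasSum c hF hw]
    have : ∑ j, c j * (deriv (F j) w / F j w) = -∑ j, c j * LSeries (b j) w := by
      rw [← Finset.sum_neg_distrib]
      refine Finset.sum_congr rfl fun j _ => ?_
      rw [((hF j).ld w hw).deriv, mul_div_assoc, div_self ((hF j).ne w hw)]
      ring
    rw [this]
    ring
  have hall := hNan.eqOn_of_preconnected_of_eventuallyEq hMan hconv h2m heq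
  have h4 : N s = M s := hall h1
  rw [hNM s h2 h3, hM] at h4
  simp only at h4
  have h5 : (s - 1) * ∏ i, g i s ≠ 0 := by
    refine mul_ne_zero (sub_ne_zero.mpr h2) (Finset.prod_ne_zero_iff.mpr fun i _ => ?_)
    rw [hgF i s h2]
    exact mul_ne_zero (pow_ne_zero _ (sub_ne_zero.mpr h2)) (h3 i)
  apply mul_left_cancel₀ h5
  linear_combination -h4

/-- The residue at a point of the closed half-plane. -/
theorem rel_lim {m : ℕ} {F : Fin m → ℂ → ℂ} {b : Fin m → ℕ → ℂ} (c : Fin m → ℂ)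
    (hF : ∀ j, EulerFE (F j) (b j)) {β : ℝ} (hβ : β ≤ 1)
    (hs : ∀ s : ℂ, β < s.re → LSeriesSummable (lcomb c b) s) {z : ℂ} (hz : β ≤ z.re) :
    Tendsto (fun y : ℝ => (y : ℂ) * LSeries (lcomb c b) (z + y)) (𝓝[>] 0) (𝓝 (-ordc c F z)) := by
  choose n u hn hu huz hFu using fun j => (hF j).local_form z
  have h1 : ∀ᶠ s in 𝓝 z, ∀ j, (s ≠ z → F j s = (s - z) ^ (n j) * u j s) ∧ AnalyticAt ℂ (u j) s ∧
      u j s ≠ 0 := by
    rw [Filter.eventually_all]
    intro j
    filter_upwards [eventually_nhdsWithin_iff.mp (hFu j), (hu j).eventually_analyticAt,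
      (hu j).continuousAt.eventually_ne (huz j)] with s a1 a2 a3 using ⟨a1, a2, a3⟩
  have h1' : ∀ᶠ s in 𝓝 z, s ≠ z → s ≠ 1 := by
    by_cases hz1 : z = 1
    · subst hz1
      exact Eventually.of_forall fun s hs => hs
    · filter_upwards [isOpen_ne.mem_nhds hz1] with s hs _ using hs
  have htend : Tendsto (fun y : ℝ => z + (y : ℂ)) (𝓝[>] 0) (𝓝 z) := by
    have : Tendsto (fun y : ℝ => z + (y : ℂ)) (𝓝 0) (𝓝 (z + ((0 : ℝ) : ℂ))) := by
      exact (by fun_prop : Continuous (fun y : ℝ => z + (y : ℂ))).tendsto 0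
    simp only [Complex.ofReal_zero, add_zero] at this
    exact this.mono_left nhdsWithin_le_nhds
  have hu' : Tendsto (fun y : ℝ => -(∑ j, c j * ((n j : ℂ) + (y : ℂ) *
      (deriv (u j) (z + y) / u j (z + y))))) (𝓝[>] 0)
      (𝓝 (-(∑ j, c j * ((n j : ℂ) + 0 * (deriv (u j) z / u j z))))) := by
    refine Tendsto.neg (tendsto_finsetSum _ fun j _ => ?_)
    refine Tendsto.const_mul _ (tendsto_const_nhds.add (Tendsto.mul ?_ ?_))
    · have : Tendsto (fun y : ℝ => (y : ℂ)) (𝓝 0) (𝓝 ((0 : ℝ) : ℂ)) :=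
        Complex.continuous_ofReal.tendsto 0
      simpa using this.mono_left nhdsWithin_le_nhds
    · have h4 : Tendsto (fun s => deriv (u j) s / u j s) (𝓝 z) (𝓝 (deriv (u j) z / u j z)) :=
        ((hu j).deriv.continuousAt.div (hu j).continuousAt (huz j))
      exact h4.comp htend
  have hval : -(∑ j, c j * ((n j : ℂ) + 0 * (deriv (u j) z / u j z))) = -ordc c F z := by
    rw [ordc]
    congr 1
    refine Finset.sum_congr rfl fun j _ => ?_
    rw [hn j, WithTop.untop₀_coe, zero_mul, add_zero]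
  rw [hval] at hu'
  refine hu'.congr' ?_
  filter_upwards [htend.eventually (h1.and h1').eventually_nhds, self_mem_nhdsWithin] with y hy hy0
  have hy0' : (0 : ℝ) < y := hy0
  have hyc : (y : ℂ) ≠ 0 := by exact_mod_cast hy0'.ne'
  set s : ℂ := z + y with hs'
  have hsre : β < s.re := by
    simp only [hs', Complex.add_re, Complex.ofReal_re]
    linarith
  have hsz : s ≠ z := by
    intro h
    rw [hs'] at h
    exact hyc (by simpa using h)
  have hsz' : s - z = y := by rw [hs']; ring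
  have hne : s - z ≠ 0 := sub_ne_zero.mpr hsz
  have hs1 : s ≠ 1 := hy.self_of_nhds.2 hsz
  have hF0 : ∀ j, F j s ≠ 0 := by
    intro j
    rw [(hy.self_of_nhds.1 j).1 hsz]
    exact mul_ne_zero (zpow_ne_zero _ hne) (hy.self_of_nhds.1 j).2.2
  have key := rel_eq c hF hβ hs hsre hs1 hF0
  have hld : ∀ j, (y : ℂ) * (deriv (F j) s / F j s) = (n j : ℂ) + (y : ℂ) * (deriv (u j) s / u j s) := by
    intro j
    have hu0 := (hy.self_of_nhds.1 j).2.2
    have hFe : (fun x => (x - z) ^ (n j) * u j x) =ᶠ[𝓝 s] F j := by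
      filter_upwards [hy, isOpen_ne.mem_nhds hsz] with x a1 a2
      exact ((a1.1 j).1 a2).symm
    have e1 : HasDerivAt (fun x : ℂ => (x - z) ^ (n j))
        (((n j : ℂ) * (s - z) ^ (n j - 1)) * 1) s := by
      have := (hasDerivAt_zpow (n j) (s - z) (Or.inl hne)).comp s ((hasDerivAt_id s).sub_const z)
      exact this
    have hd := (e1.mul (hy.self_of_nhds.1 j).2.1.differentiableAt.hasDerivAt)
    have hd2 := (hd.congr_of_eventuallyEq hFe.symm).deriv
    rw [hd2, ← hFe.eq_of_nhds]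
    have h7 : (s - z) ^ (n j) = (s - z) ^ (n j - 1) * (s - z) := by
      rw [← zpow_add_one₀ hne]
      congr 1
      ring
    have h8 : (s - z) ^ (n j - 1) ≠ 0 := zpow_ne_zero _ hne
    rw [h7, hsz'] at *
    field_simp
  calc -(∑ j, c j * ((n j : ℂ) + (y : ℂ) * (deriv (u j) s / u j s)))
      = -(∑ j, c j * ((y : ℂ) * (deriv (F j) s / F j s))) := by
        congr 1
        exact Finset.sum_congr rfl fun j _ => by rw [hld j]
    _ = -((y : ℂ) * ∑ j, c j * (deriv (F j) s / F j s)) := by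
        congr 1
        rw [Finset.mul_sum]
        exact Finset.sum_congr rfl fun j _ => by ring
    _ = (y : ℂ) * LSeries (lcomb c b) s := by rw [← key]; ring

/-- Orders cancel inside the half-plane. -/
theorem rel_ord {m : ℕ} {F : Fin m → ℂ → ℂ} {b : Fin m → ℕ → ℂ} (c : Fin m → ℂ)
    (hF : ∀ j, EulerFE (F j) (b j)) {β : ℝ} (hβ : β ≤ 1)
    (hs : ∀ s : ℂ, β < s.re → LSeriesSummable (lcomb c b) s) {z : ℂ} (hz : β < z.re) :
    ordc c F z = 0 := by
  have h1 := rel_lim c hF hβ hs hz.le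
  have hab : LSeries.abscissaOfAbsConv (lcomb c b) ≤ β := by
    refine LSeries.abscissaOfAbsConv_le_of_forall_lt_LSeriesSummable (fun y hy => ?_)
    exact hs y (by simpa using hy)
  have hL : ContinuousAt (LSeries (lcomb c b)) z :=
    (LSeries_analyticOnNhd _ z (lt_of_le_of_lt hab (by exact_mod_cast hz))).continuousAt
  have h2 : Tendsto (fun y : ℝ => (y : ℂ) * LSeries (lcomb c b) (z + y)) (𝓝[>] 0)
      (𝓝 (0 * LSeries (lcomb c b) z)) := by
    refine Tendsto.mul ?_ ?_
    · have : Tendsto (fun y : ℝ => (y : ℂ)) (𝓝 0) (𝓝 ((0 : ℝ) : ℂ)) :=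
        Complex.continuous_ofReal.tendsto 0
      simpa using this.mono_left nhdsWithin_le_nhds
    · have htend : Tendsto (fun y : ℝ => z + (y : ℂ)) (𝓝[>] 0) (𝓝 z) := by
        have : Tendsto (fun y : ℝ => z + (y : ℂ)) (𝓝 0) (𝓝 (z + ((0 : ℝ) : ℂ))) := by
          exact (by fun_prop : Continuous (fun y : ℝ => z + (y : ℂ))).tendsto 0
        simp only [Complex.ofReal_zero, add_zero] at this
        exact this.mono_left nhdsWithin_le_nhds
      exact hL.tendsto.comp htend
  have h3 := tendsto_nhds_unique h1 h2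
  rw [zero_mul] at h3
  exact neg_eq_zero.mp h3

/-- **Relations at primes only: the divisor.** -/
theorem l2_rel {m : ℕ} {F : Fin m → ℂ → ℂ} {b : Fin m → ℕ → ℂ} (c : Fin m → ℂ)
    (hF : ∀ j, EulerFE (F j) (b j)) {E : Set ℕ} {σ₀ K : ℝ} (hσ₀ : σ₀ < 1 / 2) (hK : 0 ≤ K)
    (hE : LSeriesSummable (E.indicator (lcomb c b)) σ₀)
    (hdom : ∀ n ∉ E, ‖lcomb c b n‖ ≤ K * sq n) :
    (∀ s : ℂ, 1 / 2 < s.re → LSeriesSummable (lcomb c b) s) ∧
    (∀ z : ℂ, 1 / 2 < z.re → ordc c F z = 0) ∧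
    ∀ S : Finset ℝ, ∑ t ∈ S, ‖ordc c F (1 / 2 + t * I)‖ ^ 2 ≤ K ^ 2 := by
  obtain ⟨h1, h2⟩ := l2_bound hσ₀ hK hE hdom
  refine ⟨h1, fun z hz => rel_ord c hF (β := 1 / 2) (by norm_num) h1 hz, fun S => ?_⟩
  have h3 := h2 (o := fun t => -ordc c F (1 / 2 + t * I)) ?_ S
  · simpa only [norm_neg] using h3
  · intro t
    have h4 := rel_lim c hF (β := 1 / 2) (by norm_num) h1 (z := 1 / 2 + t * I) (by simp)
    refine h4.congr fun y => ?_
    congr 2
    ring

end Pool.Agent.PrimesOnly
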