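import Pool.Agent.PrimesOnly.CTargets
import Pool.Agent.PrimesOnly.RelLim

/-! Logarithmic bound for complex coefficients, and the finiteness of the divisor. -/

set_option autoImplicit false

namespace Pool.Agent.PrimesOnly

open Complex Filter Topology Set MeasureTheory Pool.Agent.SelPole Pool.Agent.CohenPD

theorem clb {z : ℕ → ℂ} {E : Set ℕ} {σ₀ K : ℝ} (hσ₀ : σ₀ < 1 / 2) (hK : 0 ≤ K)
    (hE : LSeriesSummable (E.indicator z) σ₀) (hdom : ∀ n ∉ E, ‖z n‖ ≤ K * sq n) :
    ∃ C : ℝ, ∀ y : ℝ, 1 / 2 < y → y ≤ 1 →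
    Summable (fun n : ℕ => ‖z n‖ / Real.log n * (n : ℝ) ^ (-y)) ∧
    ∑' n : ℕ, ‖z n‖ / Real.log n * (n : ℝ) ^ (-y) ≤ C * (1 + Real.log (1 / (y - 1 / 2))) := by
  obtain ⟨hsq1, hsq2⟩ := p_SQ
  have hsq3 := hsq2 0
  rw [if_pos rfl] at hsq3
  set e : ℕ → ℝ := fun n => ‖z n‖ with he
  have he0 : ∀ n, 0 ≤ e n := fun n => norm_nonneg _
  have hea : ∀ n, |e n| = e n := fun n => abs_of_nonneg (he0 n)
  obtain ⟨u₂, hu2, hu2'⟩ := LB_limit sq _ hsq3
  have hqs : ∀ h : ℝ, 0 < h → Summable (fun n : ℕ => sq n * (n : ℝ) ^ (-(1 / 2 + h))) := by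
    intro h hh
    apply LB_summable sq (1 / 2 + h) (by positivity)
    apply hsq1
    rw [Complex.ofReal_re]; linarith
  -- the exceptional set
  obtain ⟨sE, hsE⟩ : ∃ s : ℕ → ℝ, s = fun n =>
      ‖LSeries.term (E.indicator z) σ₀ n‖ := ⟨_, rfl⟩
  have hsEs : Summable sE := by rw [hsE]; exact hE.norm
  have hsE0 : ∀ n, 0 ≤ sE n := by intro n; rw [hsE]; exact norm_nonneg _
  have hsEle : ∀ n ∈ E, ∀ h : ℝ, 0 < h → |e n| * (n : ℝ) ^ (-(1 / 2 + h)) ≤ sE n := by
    intro n hn h hh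
    rcases Nat.eq_zero_or_pos n with rfl | hn0
    · have : ((0 : ℕ) : ℝ) ^ (-(1 / 2 + h)) = 0 := by
        rw [Nat.cast_zero]
        exact Real.zero_rpow (by linarith)
      rw [this, mul_zero]; exact hsE0 0
    · have e1 : sE n = |e n| * (n : ℝ) ^ (-σ₀) := by
        rw [hsE]
        simp only
        rw [LSeries.norm_term_eq, if_neg hn0.ne', indicator_of_mem hn, hea,
          Complex.ofReal_re, Real.rpow_neg (by positivity), div_eq_mul_inv]
      rw [e1]
      apply mul_le_mul_of_nonneg_left _ (abs_nonneg _)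
      exact Real.rpow_le_rpow_of_exponent_le (by exact_mod_cast hn0) (by linarith [hσ₀])
  have hpt : ∀ h : ℝ, 0 < h → ∀ n : ℕ, |e n| * (n : ℝ) ^ (-(1 / 2 + h)) ≤
      K * (sq n * (n : ℝ) ^ (-(1 / 2 + h))) + sE n := by
    intro h hh n
    have hx : 0 ≤ (n : ℝ) ^ (-(1 / 2 + h)) := Real.rpow_nonneg (Nat.cast_nonneg n) _
    have hq := LB_sq_nonneg n
    by_cases hn : n ∈ E
    · have h4 := hsEle n hn h hh
      have h5 : 0 ≤ K * (sq n * (n : ℝ) ^ (-(1 / 2 + h))) := by positivity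
      linarith
    · have h4 := hdom n hn
      rw [hea]
      have h6 := mul_le_mul_of_nonneg_right h4 hx
      have h7 := hsE0 n
      simp only [he]
      linarith
  have has : ∀ h : ℝ, 0 < h → Summable (fun n : ℕ => |e n| * (n : ℝ) ^ (-(1 / 2 + h))) := by
    intro h hh
    exact Summable.of_nonneg_of_le (fun n => mul_nonneg (abs_nonneg _)
      (Real.rpow_nonneg (Nat.cast_nonneg n) _)) (hpt h hh) (((hqs h hh).mul_left K).add hsEs)
  -- the first bound
  obtain ⟨S, hS⟩ : ∃ S : ℝ → ℝ, S = fun h => ∑' n : ℕ, |e n| * (n : ℝ) ^ (-(1 / 2 + h)) :=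
    ⟨_, rfl⟩
  have hS0 : ∀ h, 0 ≤ S h := by
    intro h; rw [hS]
    exact tsum_nonneg fun n => mul_nonneg (abs_nonneg _) (Real.rpow_nonneg (Nat.cast_nonneg n) _)
  have hSmono : ∀ h h' : ℝ, 0 < h → h ≤ h' → S h' ≤ S h := by
    intro h h' hh hhh
    rw [hS]
    exact (has h' (hh.trans_le hhh)).tsum_le_tsum
      (fun n => mul_le_mul_of_nonneg_left (LB_rpow_anti n (by linarith) (by linarith))
        (abs_nonneg _)) (has h hh)
  have hSle : ∀ h : ℝ, 0 < h → S h ≤ K * (∑' n : ℕ, sq n * (n : ℝ) ^ (-(1 / 2 + h))) +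
      ∑' n, sE n := by
    intro h hh
    rw [hS, ← tsum_mul_left, ← ((hqs h hh).mul_left K).tsum_add hsEs]
    exact (has h hh).tsum_le_tsum (hpt h hh) (((hqs h hh).mul_left K).add hsEs)
  -- bounded multiple
  obtain ⟨C, hC0, hC⟩ : ∃ C : ℝ, 0 ≤ C ∧ ∀ h : ℝ, 0 < h → h ≤ 1 / 2 → h * S h ≤ C := by
    set u : ℝ := u₂ with hu
    have hu0 : 0 < u := hu2
    set C₁ : ℝ := K * ((1 : ℂ).re + 1) + ∑' n, sE n with hC₁
    refine ⟨max C₁ (S (u / 2)), (hS0 _).trans (le_max_right _ _), fun h hh hh1 => ?_⟩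
    rcases lt_or_ge h u with h4 | h4
    · refine le_trans ?_ (le_max_left _ _)
      have h5 := mul_le_mul_of_nonneg_left (hSle h hh) hh.le
      have h7 := hu2' h hh h4
      have h8 : 0 ≤ ∑' n, sE n := tsum_nonneg hsE0
      have h9 : h * (∑' n, sE n) ≤ ∑' n, sE n :=
        mul_le_of_le_one_left (by positivity) (by linarith)
      have h10 := mul_le_mul_of_nonneg_left h7 hK
      rw [hC₁]
      nlinarith
    · refine le_trans ?_ (le_max_right _ _)
      have h5 := hSmono (u / 2) h (by positivity) (by linarith)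
      have h6 := hS0 h
      have h7 : h * S h ≤ S h := mul_le_of_le_one_left h6 (by linarith)
      linarith
  -- the series with the logarithm
  obtain ⟨b, hb⟩ : ∃ b : ℝ → ℕ → ℝ, b = fun h n =>
    |e n| / Real.log n * (n : ℝ) ^ (-(1 / 2 + h)) := ⟨_, rfl⟩
  have hlog : ∀ n : ℕ, 0 ≤ Real.log n := fun n => Real.log_natCast_nonneg n
  have hb0 : ∀ h n, 0 ≤ b h n := by
    intro h n; rw [hb]
    exact mul_nonneg (div_nonneg (abs_nonneg _) (hlog n))
      (Real.rpow_nonneg (Nat.cast_nonneg n) _)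
  have hble : ∀ h n, b h n ≤ 2 * (|e n| * (n : ℝ) ^ (-(1 / 2 + h))) := by
    intro h n
    have hx : 0 ≤ (n : ℝ) ^ (-(1 / 2 + h)) := Real.rpow_nonneg (Nat.cast_nonneg n) _
    have h5 : |e n| / Real.log n ≤ 2 * |e n| := by
      rcases Nat.lt_or_ge n 2 with hn | hn
      · have : Real.log n = 0 := by
          interval_cases n <;> simp
        rw [this, div_zero]; positivity
      · have h6 : (1 / 2 : ℝ) ≤ Real.log n := by
          have h7 : Real.log 2 ≤ Real.log n := Real.log_le_log (by norm_num) (by exact_mod_cast hn)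
          have := Real.log_two_gt_d9
          linarith
        rw [div_le_iff₀ (by linarith)]
        have := mul_le_mul_of_nonneg_left h6 (abs_nonneg (e n))
        linarith
    rw [hb]
    have := mul_le_mul_of_nonneg_right h5 hx
    linarith
  have hbs : ∀ h : ℝ, 0 < h → Summable (b h) := fun h hh =>
    Summable.of_nonneg_of_le (hb0 h) (hble h) ((has h hh).mul_left 2)
  obtain ⟨B, hB⟩ : ∃ B : ℝ → ℝ, B = fun h => ∑' n, b h n := ⟨_, rfl⟩
  have hBmono : ∀ h h' : ℝ, 0 < h → h ≤ h' → B h' ≤ B h := by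
    intro h h' hh hhh
    rw [hB]
    refine (hbs h' (hh.trans_le hhh)).tsum_le_tsum (fun n => ?_) (hbs h hh)
    rw [hb]
    exact mul_le_mul_of_nonneg_left (LB_rpow_anti n (by linarith) (by linarith))
      (div_nonneg (abs_nonneg _) (hlog n))
  have hBstep : ∀ h : ℝ, 0 < h → h ≤ 1 / 2 → B h ≤ B (2 * h) + C := by
    intro h hh hh1
    have h4 : B h ≤ B (2 * h) + h * S h := by
      rw [hB, hS]
      simp only
      rw [← tsum_mul_left, ← (hbs (2 * h) (by linarith)).tsum_add ((has h hh).mul_left h)]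
      refine (hbs h hh).tsum_le_tsum (fun n => ?_)
        ((hbs (2 * h) (by linarith)).add ((has h hh).mul_left h))
      rw [hb]
      simp only
      rcases Nat.lt_or_ge n 2 with hn | hn
      · have h5 : Real.log n = 0 := by
          interval_cases n <;> simp
        have h6 : 0 ≤ (n : ℝ) ^ (-(1 / 2 + h)) := Real.rpow_nonneg (Nat.cast_nonneg n) _
        rw [h5, div_zero, zero_mul, zero_mul, zero_add]
        positivity
      · have hn0 : (0 : ℝ) < n := by exact_mod_cast (by omega : 0 < n)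
        have hl : 0 < Real.log n := Real.log_pos (by exact_mod_cast (by omega : 1 < n))
        have h5 : (n : ℝ) ^ (-(1 / 2 + 2 * h)) = (n : ℝ) ^ (-(1 / 2 + h)) * (n : ℝ) ^ (-h) := by
          rw [← Real.rpow_add hn0]; congr 1; ring
        have h6 : 1 - h * Real.log n ≤ (n : ℝ) ^ (-h) := by
          rw [Real.rpow_def_of_pos hn0]
          have := Real.add_one_le_exp (Real.log n * -h)
          linarith
        have hx : 0 < (n : ℝ) ^ (-(1 / 2 + h)) := Real.rpow_pos_of_pos hn0 _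
        rw [h5]
        have h7 : |e n| / Real.log n * (n : ℝ) ^ (-(1 / 2 + h)) * (1 - h * Real.log n) ≤
            |e n| / Real.log n * (n : ℝ) ^ (-(1 / 2 + h)) * (n : ℝ) ^ (-h) :=
          mul_le_mul_of_nonneg_left h6 (by positivity)
        have h8 : |e n| / Real.log n * (n : ℝ) ^ (-(1 / 2 + h)) * (1 - h * Real.log n) =
            |e n| / Real.log n * (n : ℝ) ^ (-(1 / 2 + h)) -
              h * (|e n| * (n : ℝ) ^ (-(1 / 2 + h))) := by
          field_simp
        linarith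
    linarith [hC h hh hh1]
  have hB0 : 0 ≤ B (1 / 2) := by rw [hB]; exact tsum_nonneg (hb0 _)
  refine ⟨B (1 / 2) + 2 * C, fun y hy hy1 => ?_⟩
  have hfun : (fun n : ℕ => ‖z n‖ / Real.log n * (n : ℝ) ^ (-y)) = b (y - 1 / 2) := by
    rw [hb]
    funext n
    have : (1 / 2 + (y - 1 / 2) : ℝ) = y := by ring
    simp only [this, hea]
    rfl
  rw [hfun]
  refine ⟨hbs _ (by linarith), ?_⟩
  have := LB_dyadic B C hC0 hB0 hBmono hBstep (y - 1 / 2) (by linarith) (by linarith)
  rw [hB] at this ⊢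
  exact this

theorem CCmp.nonneg {P R : ℂ → ℂ} {p q : ℕ → ℂ} {E : Set ℕ} {σ₀ K : ℝ}
    (h : CCmp P R p q E σ₀ K) : CCmp P R p q E σ₀ (max K 0) where
  hP := h.hP
  hR := h.hR
  hσ₀ := h.hσ₀
  hE := h.hE
  hdom := fun n hn => (h.hdom n hn).trans
    (mul_le_mul_of_nonneg_right (le_max_left _ _) (LB_sq_nonneg n))

theorem p_CLB : T_CLB := by
  intro P R p q E σ₀ K h
  exact clb (z := q - p) h.hσ₀ (le_max_right K 0) h.hE h.nonneg.hdom

theorem p_CELL : T_CELL := by
  intro P R p q E σ₀ K h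
  have h0 := h.nonneg
  set F : Fin 2 → ℂ → ℂ := ![R, P] with hF
  set b : Fin 2 → ℕ → ℂ := ![q, p] with hb
  set c : Fin 2 → ℂ := ![1, -1] with hc
  have hFb : ∀ j, EulerFE (F j) (b j) := by
    intro j
    fin_cases j
    · exact h.hR
    · exact h.hP
  have hl : lcomb c b = q - p := by
    funext n
    simp [lcomb, Fin.sum_univ_two, hc, hb]
    ring
  have ho : ∀ t : ℝ, ordc c F (1 / 2 + t * I) = (eo P R t : ℂ) := by
    intro t
    simp only [ordc, Fin.sum_univ_two, hc, hF, eo]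
    push_cast
    simp
    ring
  obtain ⟨h1, -, h3⟩ := l2_rel c hFb h.hσ₀ (le_max_right K 0) (by rw [hl]; exact h.hE)
    (by rw [hl]; exact h0.hdom)
  rw [hl] at h1
  refine ⟨LSeries.abscissaOfAbsConv_le_of_forall_lt_LSeriesSummable (fun y hy => h1 y ?_), ?_⟩
  · rw [Complex.ofReal_re]
    exact_mod_cast hy
  · have hfin : {t : ℝ | eo P R t ≠ 0}.Finite := by
      by_contra hinf
      have hinf' : {t : ℝ | eo P R t ≠ 0}.Infinite := hinf
      obtain ⟨N, hN⟩ := exists_nat_gt ((max K 0) ^ 2)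
      obtain ⟨S, hS1, hS2⟩ := hinf'.exists_subset_card_eq N
      have h4 := h3 S
      have h5 : (N : ℝ) ≤ ∑ t ∈ S, ‖ordc c F (1 / 2 + t * I)‖ ^ 2 := by
        have h6 : ∑ t ∈ S, (1 : ℝ) ≤ ∑ t ∈ S, ‖ordc c F (1 / 2 + t * I)‖ ^ 2 := by
          refine Finset.sum_le_sum fun t ht => ?_
          rw [ho t]
          have h7 : eo P R t ≠ 0 := hS1 ht
          have h8 : (1 : ℤ) ≤ |eo P R t| := Int.one_le_abs h7
          have h9 : (1 : ℝ) ≤ ‖(eo P R t : ℂ)‖ := by
            rw [Complex.norm_intCast]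
            exact_mod_cast h8
          nlinarith
        simpa [hS2] using h6
      linarith
    obtain ⟨T, hT⟩ := hfin.bddAbove
    refine ⟨T, fun t ht => ?_⟩
    by_contra hne
    exact absurd (hT hne) (not_le.mpr ht)

end Pool.Agent.PrimesOnly
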