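import Pool.Agent.PrimesOnly.Targets

/-! Mean values of almost periodic series. -/

namespace Pool.Agent.PrimesOnly

open Complex Filter Topology Set MeasureTheory Pool.Agent.SelPole Pool.Agent.CohenPD

/-- the oscillating factor `exp(-iut)` has absolute value one -/
theorem SER_norm_exp (u t : ℝ) : ‖exp ((u : ℂ) * t * I)‖ = 1 := by
  rw [show (u : ℂ) * t * I = ((u * t : ℝ) : ℂ) * I by push_cast; ring,
    Complex.norm_exp_ofReal_mul_I]

theorem SER_norm_exp_neg (u t : ℝ) : ‖exp (-(u : ℂ) * t * I)‖ = 1 := by
  rw [show -(u : ℂ) * t * I = ((-u : ℝ) : ℂ) * t * I by push_cast; ring, SER_norm_exp]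

theorem p_SER : T_SER := by
  intro d hd ν hν lam hlam
  set φ : ℝ → ℝ := fun t => (∑' n, d n * exp (-((ν n : ℝ) : ℂ) * t * I)).re with hφ
  have hterm : ∀ n (t : ℝ), ‖d n * exp (-((ν n : ℝ) : ℂ) * t * I)‖ = ‖d n‖ := by
    intro n t
    rw [norm_mul, SER_norm_exp_neg, mul_one]
  have hsumφ : ∀ t : ℝ, Summable (fun n => d n * exp (-((ν n : ℝ) : ℂ) * t * I)) := by
    intro t
    refine Summable.of_norm ?_
    exact hd.congr (fun n => (hterm n t).symm)
  have hφc : Continuous φ := by
    simp only [hφ]
    apply Complex.continuous_re.comp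
    apply continuous_tsum (u := fun n => ‖d n‖)
    · intro n
      fun_prop
    · exact hd
    · intro n t
      exact (hterm n t).le
  -- the terms
  set g : ℕ → ℝ → ℂ := fun n t =>
    (d n * exp (((lam - ν n : ℝ) : ℂ) * t * I)
      + (starRingEnd ℂ) (d n) * exp (((lam + ν n : ℝ) : ℂ) * t * I)) / 2 with hg
  have hgnorm : ∀ n t, ‖g n t‖ ≤ ‖d n‖ := by
    intro n t
    simp only [hg]
    rw [norm_div, Complex.norm_ofNat]
    have h1 : ‖d n * exp (((lam - ν n : ℝ) : ℂ) * t * I)
      + (starRingEnd ℂ) (d n) * exp (((lam + ν n : ℝ) : ℂ) * t * I)‖ ≤ ‖d n‖ + ‖d n‖ := by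
      refine (norm_add_le _ _).trans ?_
      rw [norm_mul, norm_mul, Complex.norm_conj, SER_norm_exp, SER_norm_exp]
      simp
    linarith
  have hHas : ∀ t : ℝ, HasSum (fun n => g n t) ((φ t : ℂ) * exp ((lam : ℂ) * t * I)) := by
    intro t
    have h1 := (hsumφ t).hasSum
    have h2 : HasSum (fun n => (starRingEnd ℂ) (d n * exp (-((ν n : ℝ) : ℂ) * t * I)))
        ((starRingEnd ℂ) (∑' n, d n * exp (-((ν n : ℝ) : ℂ) * t * I))) :=
      Complex.hasSum_conj'.mpr (by simpa using h1)
    have h3 := ((h1.add h2).div_const 2).mul_right (exp ((lam : ℂ) * t * I))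
    have h4 : ((∑' n, d n * exp (-((ν n : ℝ) : ℂ) * t * I)) +
        (starRingEnd ℂ) (∑' n, d n * exp (-((ν n : ℝ) : ℂ) * t * I))) / 2 = (φ t : ℂ) := by
      rw [Complex.add_conj]
      simp [hφ]
    rw [h4] at h3
    refine h3.congr_fun ?_ |> fun h => h
    intro n
    simp only [hg]
    rw [map_mul, ← Complex.exp_conj]
    have e1 : (starRingEnd ℂ) (-((ν n : ℝ) : ℂ) * t * I) = ((ν n : ℝ) : ℂ) * t * I := by
      rw [map_mul, map_mul, map_neg, Complex.conj_ofReal, Complex.conj_ofReal, Complex.conj_I]
      ring
    rw [e1]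
    have e2 : exp (((lam - ν n : ℝ) : ℂ) * t * I)
        = exp (-((ν n : ℝ) : ℂ) * t * I) * exp ((lam : ℂ) * t * I) := by
      rw [← Complex.exp_add]; congr 1; push_cast; ring
    have e3 : exp (((lam + ν n : ℝ) : ℂ) * t * I)
        = exp (((ν n : ℝ) : ℂ) * t * I) * exp ((lam : ℂ) * t * I) := by
      rw [← Complex.exp_add]; congr 1; push_cast; ring
    rw [e2, e3]
    ring
  have hcont : ∀ n, Continuous (g n) := by
    intro n
    simp only [hg]
    fun_prop
  -- integrated identity
  have hint : ∀ T : ℝ, 0 < T → HasSum (fun n => ∫ t in T..2 * T, g n t)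
      (∫ t in T..2 * T, (φ t : ℂ) * exp ((lam : ℂ) * t * I)) := by
    intro T hT
    apply intervalIntegral.hasSum_integral_of_dominated_convergence (fun n _ => ‖d n‖)
    · intro n; exact (hcont n).aestronglyMeasurable
    · intro n; filter_upwards with t _ using hgnorm n t
    · filter_upwards with t _ using hd
    · exact intervalIntegrable_const
    · filter_upwards with t _ using hHas t
  have hgint : ∀ (n : ℕ) (T : ℝ), 0 < T → (1 / T : ℂ) * ∫ t in T..2 * T, g n t
      = (d n * avg (lam - ν n) T + (starRingEnd ℂ) (d n) * avg (lam + ν n) T) / 2 := by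
    intro n T hT
    simp only [hg]
    rw [intervalIntegral.integral_div, intervalIntegral.integral_add,
      intervalIntegral.integral_const_mul, intervalIntegral.integral_const_mul]
    · simp only [avg]
      ring
    · apply Continuous.intervalIntegrable; fun_prop
    · apply Continuous.intervalIntegrable; fun_prop
  refine ⟨hφc, ?_, ?_⟩
  · intro t
    refine (Complex.abs_re_le_norm _).trans ?_
    refine (norm_tsum_le_tsum_norm ?_).trans (le_of_eq ?_)
    · exact hd.congr (fun n => (hterm n t).symm)
    · exact tsum_congr fun n => hterm n t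
  · have hser : Tendsto (fun T : ℝ => ∑' n, (1 / T : ℂ) * ∫ t in T..2 * T, g n t) atTop
        (𝓝 (∑' n, (1 / 2) * (if ν n = lam then d n else 0))) := by
      apply tendsto_tsum_of_dominated_convergence (bound := fun n => ‖d n‖) hd
      · intro n
        have hcong : (fun T : ℝ => (d n * avg (lam - ν n) T
            + (starRingEnd ℂ) (d n) * avg (lam + ν n) T) / 2) =ᶠ[atTop]
            (fun T : ℝ => (1 / T : ℂ) * ∫ t in T..2 * T, g n t) := by
          filter_upwards [eventually_gt_atTop 0] with T hT using (hgint n T hT).symm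
        refine Tendsto.congr' hcong ?_
        have h2 : Tendsto (avg (lam + ν n)) atTop (𝓝 0) :=
          avg_tendsto (by have := hν n; linarith)
        by_cases hnm : ν n = lam
        · rw [if_pos hnm]
          have h1 : Tendsto (avg (lam - ν n)) atTop (𝓝 1) := by
            rw [hnm, sub_self]
            refine tendsto_const_nhds.congr' ?_
            filter_upwards [eventually_gt_atTop 0] with T hT using (avg_zero hT).symm
          have h3 := ((h1.const_mul (d n)).add (h2.const_mul ((starRingEnd ℂ) (d n)))).div_const 2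
          refine h3.congr' (Eventually.of_forall fun T => rfl) |>.trans (le_of_eq ?_)
          congr 1
          ring
        · rw [if_neg hnm]
          have h1 : Tendsto (avg (lam - ν n)) atTop (𝓝 0) :=
            avg_tendsto (fun h => hnm (by linarith))
          have h3 := ((h1.const_mul (d n)).add (h2.const_mul ((starRingEnd ℂ) (d n)))).div_const 2
          refine h3.congr' (Eventually.of_forall fun T => rfl) |>.trans (le_of_eq ?_)
          congr 1
          ring
      · filter_upwards [eventually_gt_atTop 0] with T hT n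
        rw [hgint n T hT, norm_div, Complex.norm_ofNat]
        have h1 : ‖d n * avg (lam - ν n) T + (starRingEnd ℂ) (d n) * avg (lam + ν n) T‖
            ≤ ‖d n‖ + ‖d n‖ := by
          refine (norm_add_le _ _).trans ?_
          rw [norm_mul, norm_mul, Complex.norm_conj]
          have h2 := mul_le_mul_of_nonneg_left (avg_norm_le (lam - ν n) hT) (norm_nonneg (d n))
          have h3 := mul_le_mul_of_nonneg_left (avg_norm_le (lam + ν n) hT) (norm_nonneg (d n))
          linarith
        linarith
    rw [tsum_mul_left] at hser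
    refine hser.congr' ?_
    filter_upwards [eventually_gt_atTop 0] with T hT
    rw [tsum_mul_left, (hint T hT).tsum_eq]

end Pool.Agent.PrimesOnly
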