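import Pool.Agent.PrimesOnly.Targets

/-! Reflection of orders. -/

namespace Pool.Agent.PrimesOnly

open Complex Filter Topology Set MeasureTheory Pool.Agent.SelPole Pool.Agent.CohenPD
open scoped ComplexConjugate ArithmeticFunction.vonMangoldt

theorem REF_pos {z : ℂ} {k : ℤ} (hk : 0 < k) :
    Tendsto (fun s : ℂ => ‖s - z‖ ^ k) (𝓝[≠] z) (𝓝 0) := by
  obtain ⟨m, rfl⟩ := Int.eq_ofNat_of_zero_le hk.le
  have hm : m ≠ 0 := by
    rintro rfl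
    exact absurd hk (lt_irrefl _)
  have h1 : Continuous (fun s : ℂ => ‖s - z‖ ^ m) := by fun_prop
  have h2 := (h1.tendsto z).mono_left (nhdsWithin_le_nhds (s := {z}ᶜ))
  simp only [sub_self, norm_zero, zero_pow hm] at h2
  simpa [zpow_natCast] using h2

theorem REF_zpow {z : ℂ} {k : ℤ} {c : ℝ} (hc : c ≠ 0)
    (h : Tendsto (fun s : ℂ => ‖s - z‖ ^ k) (𝓝[≠] z) (𝓝 c)) : k = 0 := by
  rcases lt_trichotomy k 0 with hk | hk | hk
  · have h1 := h.inv₀ hc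
    have h2 : Tendsto (fun s : ℂ => ‖s - z‖ ^ (-k)) (𝓝[≠] z) (𝓝 c⁻¹) := by
      refine h1.congr fun s => ?_
      rw [zpow_neg]
    exact absurd (tendsto_nhds_unique h2 (REF_pos (z := z) (by omega))) (inv_ne_zero hc)
  · exact hk
  · exact absurd (tendsto_nhds_unique h (REF_pos hk)) hc

theorem REF_refl (z : ℂ) : Tendsto (fun s : ℂ => 1 - conj s) (𝓝[≠] z) (𝓝[≠] (1 - conj z)) := by
  rw [tendsto_nhdsWithin_iff]
  constructor
  · have h1 : Continuous (fun s : ℂ => 1 - conj s) := by fun_prop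
    exact (h1.tendsto z).mono_left nhdsWithin_le_nhds
  · filter_upwards [self_mem_nhdsWithin] with s hs
    intro h
    apply hs
    have h1 : (1 : ℂ) - conj s = 1 - conj z := h
    have h2 : conj s = conj z := by
      linear_combination -h1
    have h3 := congrArg conj h2
    simpa using h3

theorem REF_norm (s z : ℂ) : ‖(1 - conj s) - (1 - conj z)‖ = ‖s - z‖ := by
  have h1 : (1 - conj s) - (1 - conj z) = - conj (s - z) := by
    rw [map_sub]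
    ring
  rw [h1, norm_neg, Complex.norm_conj]

theorem REF_strip {z : ℂ} (h0 : 0 < z.re) (h1 : z.re < 1) :
    ∀ᶠ s : ℂ in 𝓝[≠] z, 0 < s.re ∧ s.re < 1 := by
  have h2 : ∀ᶠ s : ℂ in 𝓝 z, 0 < s.re := continuous_re.tendsto z |>.eventually (lt_mem_nhds h0)
  have h3 : ∀ᶠ s : ℂ in 𝓝 z, s.re < 1 := continuous_re.tendsto z |>.eventually (gt_mem_nhds h1)
  exact (h2.and h3).filter_mono nhdsWithin_le_nhds

theorem REF_eq {F : ℂ → ℂ} {X : ℝ → ℝ → ℝ}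
    (hF : ∀ σ t : ℝ, 0 < σ → σ < 1 →
      ‖F ((σ : ℂ) + t * I)‖ = X σ t * ‖F (((1 - σ : ℝ) : ℂ) + t * I)‖) {s : ℂ} (h0 : 0 < s.re)
    (h1 : s.re < 1) : ‖F s‖ = X s.re s.im * ‖F (1 - conj s)‖ := by
  have h2 := hF s.re s.im h0 h1
  have h3 : (((1 - s.re : ℝ) : ℂ) + s.im * I) = 1 - conj s := by
    apply Complex.ext <;> simp
  rw [Complex.re_add_im, h3] at h2
  exact h2

theorem REF_top {F : ℂ → ℂ} {X : ℝ → ℝ → ℝ}
    (hX : ∀ σ t, 0 < σ → σ < 1 → 0 < X σ t)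
    (hF : ∀ σ t : ℝ, 0 < σ → σ < 1 →
      ‖F ((σ : ℂ) + t * I)‖ = X σ t * ‖F (((1 - σ : ℝ) : ℂ) + t * I)‖) {z : ℂ} (h0 : 0 < z.re)
    (h1 : z.re < 1) (h : meromorphicOrderAt F (1 - conj z) = ⊤) : meromorphicOrderAt F z = ⊤ := by
  rw [meromorphicOrderAt_eq_top_iff] at h ⊢
  filter_upwards [REF_strip h0 h1, (REF_refl z).eventually h] with s hs hs2
  have h2 := REF_eq hF hs.1 hs.2
  rw [hs2, norm_zero, mul_zero, norm_eq_zero] at h2
  exact h2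

theorem p_REF : T_REF := by
  intro F hU hM z h0 h1
  obtain ⟨D, κ, X, hX, hXc, hF, -⟩ := hU
  set z' : ℂ := 1 - conj z with hz'
  have hre : z'.re = 1 - z.re := by rw [hz']; simp
  have h0' : 0 < z'.re := by rw [hre]; linarith
  have h1' : z'.re < 1 := by rw [hre]; linarith
  have hinv : 1 - conj z' = z := by rw [hz']; simp
  by_cases ht : meromorphicOrderAt F z' = ⊤
  · rw [ht, REF_top hX hF h0 h1 ht]
  by_cases ht2 : meromorphicOrderAt F z = ⊤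
  · exact absurd (REF_top hX hF h0' h1' (by rw [hinv]; exact ht2)) ht
  obtain ⟨n, hn⟩ := WithTop.ne_top_iff_exists.1 ht2
  obtain ⟨m, hm⟩ := WithTop.ne_top_iff_exists.1 ht
  obtain ⟨g, hg, hg0, hgF⟩ := (meromorphicOrderAt_eq_int_iff (hM z)).1 hn.symm
  obtain ⟨k, hk, hk0, hkF⟩ := (meromorphicOrderAt_eq_int_iff (hM z')).1 hm.symm
  have hopen : IsOpen (Ioo (0 : ℝ) 1 ×ˢ (univ : Set ℝ)) := isOpen_Ioo.prod isOpen_univ
  have hmem : (z.re, z.im) ∈ Ioo (0 : ℝ) 1 ×ˢ (univ : Set ℝ) := ⟨⟨h0, h1⟩, mem_univ _⟩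
  have hXat : ContinuousAt (fun w : ℝ × ℝ => X w.1 w.2) (z.re, z.im) :=
    hXc.continuousAt (hopen.mem_nhds hmem)
  have hXt : Tendsto (fun s : ℂ => X s.re s.im) (𝓝[≠] z) (𝓝 (X z.re z.im)) := by
    have h2 : Tendsto (fun s : ℂ => (s.re, s.im)) (𝓝 z) (𝓝 (z.re, z.im)) := by
      have : Continuous (fun s : ℂ => (s.re, s.im)) := by fun_prop
      exact this.tendsto z
    exact (hXat.tendsto.comp h2).mono_left nhdsWithin_le_nhds
  have hgt : Tendsto (fun s : ℂ => ‖g s‖) (𝓝[≠] z) (𝓝 ‖g z‖) :=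
    (hg.continuousAt.norm.tendsto).mono_left nhdsWithin_le_nhds
  have hkt : Tendsto (fun s : ℂ => ‖k (1 - conj s)‖) (𝓝[≠] z) (𝓝 ‖k z'‖) :=
    (hk.continuousAt.norm.tendsto).comp
      ((REF_refl z).mono_right nhdsWithin_le_nhds)
  have hlim : Tendsto (fun s : ℂ => X s.re s.im * ‖k (1 - conj s)‖ / ‖g s‖) (𝓝[≠] z)
      (𝓝 (X z.re z.im * ‖k z'‖ / ‖g z‖)) :=
    (hXt.mul hkt).div hgt (norm_ne_zero_iff.2 hg0)
  have hgne : ∀ᶠ s in 𝓝[≠] z, g s ≠ 0 :=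
    (hg.continuousAt.eventually_ne hg0).filter_mono nhdsWithin_le_nhds
  have heq : ∀ᶠ s in 𝓝[≠] z, X s.re s.im * ‖k (1 - conj s)‖ / ‖g s‖ = ‖s - z‖ ^ (n - m) := by
    filter_upwards [REF_strip h0 h1, hgF, (REF_refl z).eventually hkF, hgne,
      self_mem_nhdsWithin] with s hs hs1 hs2 hs3 hs4
    have h2 := REF_eq hF hs.1 hs.2
    rw [hs1, hs2, norm_smul, norm_smul, norm_zpow, norm_zpow, REF_norm] at h2
    have h3 : ‖s - z‖ ≠ 0 := norm_ne_zero_iff.2 (sub_ne_zero.2 hs4)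
    have h4 : ‖g s‖ ≠ 0 := norm_ne_zero_iff.2 hs3
    have h5 : ‖s - z‖ ^ m ≠ 0 := zpow_ne_zero _ h3
    rw [zpow_sub₀ h3, div_eq_div_iff h4 h5]
    linarith
  have hfin := hlim.congr' heq
  have hc : X z.re z.im * ‖k z'‖ / ‖g z‖ ≠ 0 :=
    div_ne_zero (mul_ne_zero (hX _ _ h0 h1).ne' (norm_ne_zero_iff.2 hk0))
      (norm_ne_zero_iff.2 hg0)
  have := REF_zpow hc hfin
  rw [← hn, ← hm]
  congr 1
  omega

end Pool.Agent.PrimesOnly
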