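import Pool.Agent.PrimesOnly.Targets

/-! Operations on the functional equation. -/

namespace Pool.Agent.PrimesOnly

open Complex Filter Topology Set

theorem UOPS_mul {F G : ℂ → ℂ} (hF : UFE F) (hG : UFE G) : UFE (fun s => F s * G s) := by
  obtain ⟨D, κ, X, h1, h2, h3, h4⟩ := hF
  obtain ⟨D', κ', X', h1', h2', h3', h4'⟩ := hG
  refine ⟨D + D', κ + κ', fun σ t => X σ t * X' σ t, ?_, h2.mul h2', ?_, ?_⟩
  · intro σ t h0 h5
    exact mul_pos (h1 σ t h0 h5) (h1' σ t h0 h5)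
  · intro σ t h0 h5
    rw [norm_mul, norm_mul, h3 σ t h0 h5, h3' σ t h0 h5]
    ring
  · intro ε hε
    filter_upwards [h4 (ε / 2) (by positivity), h4' (ε / 2) (by positivity)] with t ht ht' σ h0 h5
    have e1 := ht σ h0 h5
    have e2 := ht' σ h0 h5
    have p1 := h1 σ t h0 (by linarith)
    have p2 := h1' σ t h0 (by linarith)
    rw [Real.log_mul p1.ne' p2.ne']
    have e3 : Real.log (X σ t) + Real.log (X' σ t) -
        (1 - 2 * σ) * ((D + D') * Real.log t + (κ + κ')) =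
        (Real.log (X σ t) - (1 - 2 * σ) * (D * Real.log t + κ)) +
        (Real.log (X' σ t) - (1 - 2 * σ) * (D' * Real.log t + κ')) := by ring
    rw [e3]
    exact (abs_add_le _ _).trans (by linarith)

theorem UOPS_inv {F : ℂ → ℂ} (hF : UFE F) : UFE (fun s => (F s)⁻¹) := by
  obtain ⟨D, κ, X, h1, h2, h3, h4⟩ := hF
  refine ⟨-D, -κ, fun σ t => (X σ t)⁻¹, ?_, ?_, ?_, ?_⟩
  · intro σ t h0 h5
    exact inv_pos.2 (h1 σ t h0 h5)
  · refine h2.inv₀ ?_
    rintro ⟨σ, t⟩ ⟨hσ, -⟩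
    exact (h1 σ t hσ.1 hσ.2).ne'
  · intro σ t h0 h5
    rw [norm_inv, norm_inv, h3 σ t h0 h5, mul_inv]
  · intro ε hε
    filter_upwards [h4 ε hε] with t ht σ h0 h5
    have e1 := ht σ h0 h5
    rw [Real.log_inv]
    have e3 : -Real.log (X σ t) - (1 - 2 * σ) * (-D * Real.log t + -κ) =
        -(Real.log (X σ t) - (1 - 2 * σ) * (D * Real.log t + κ)) := by ring
    rw [e3, abs_neg]
    exact e1

theorem UOPS_one : UFE (fun _ => 1) := by
  refine ⟨0, 0, fun _ _ => 1, fun _ _ _ _ => one_pos, continuousOn_const, ?_, ?_⟩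
  · intro σ t _ _
    rw [one_mul]
  · intro ε hε
    refine Eventually.of_forall fun t σ _ _ => ?_
    simpa using hε.le

theorem UOPS_pow {F : ℂ → ℂ} (hF : UFE F) (r : ℕ) : UFE (fun s => F s ^ r) := by
  induction r with
  | zero => simpa using UOPS_one
  | succ r ih =>
    have h := UOPS_mul ih hF
    simpa only [pow_succ] using h

theorem p_UOPS : T_UOPS := ⟨UOPS_mul, UOPS_inv, UOPS_one, UOPS_pow⟩

end Pool.Agent.PrimesOnly
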