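import Pool.Agent.PrimesOnly.CTargets
import Pool.Agent.PrimesOnly.REF
import Pool.Agent.PrimesOnly.UOPS

/-! The potential for complex coefficients. -/

namespace Pool.Agent.PrimesOnly

open Complex Filter Topology Set MeasureTheory Pool.Agent.SelPole Pool.Agent.CohenPD
open scoped ComplexConjugate

theorem p_CPOT : T_CPOT := by
  have h1 : T_REF := p_REF
  have h3 : T_UOPS := p_UOPS
  intro P R p q hP hR hab uP uR heq
  obtain ⟨T₀, hT₀⟩ := heq
  set T₁ : ℝ := max T₀ 0 with hT₁
  set f : ℂ → ℂ := fun s => R s * (P s)⁻¹ with hf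
  have uf : UFE f := h3.1 uR (h3.2.1 uP)
  have hmf : ∀ z, MeromorphicAt f z := fun z =>
    (hR.meromorphicAt z).mul (hP.meromorphicAt z).inv
  -- the log series
  set e : ℕ → ℂ := q - p with he
  obtain ⟨C, hC0, hC⟩ := quotient hP hR (β := 1 / 2) (by norm_num) hab
  have he1 : e 1 = 0 := by
    rw [he, Pi.sub_apply, hP.one, hR.one, sub_zero]
  set ℓ : ℂ → ℂ := LSeries (unlog e) with hℓ
  have hℓd : ∀ s : ℂ, 1 / 2 < s.re → AnalyticAt ℂ ℓ s := by
    intro s hs
    have hab2 : LSeries.abscissaOfAbsConv (unlog e) ≤ ((1 / 2 : ℝ) : EReal) := by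
      refine LSeries.abscissaOfAbsConv_le_of_forall_lt_LSeriesSummable (fun y hy => ?_)
      apply unlog_summable he1
      apply LSeriesSummable_of_abscissaOfAbsConv_lt_re
      refine lt_of_le_of_lt hab ?_
      exact_mod_cast (by simpa using hy)
    exact LSeries_analyticOnNhd (unlog e) s
      (lt_of_le_of_lt hab2 (show (((1 / 2 : ℝ)) : EReal) < s.re by exact_mod_cast hs))
  set g : ℂ → ℂ := fun s => C * exp (ℓ s) with hg
  have hgan : ∀ s : ℂ, 1 / 2 < s.re → AnalyticAt ℂ g s := by
    intro s hs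
    exact analyticAt_const.mul (hℓd s hs).cexp
  have hgne : ∀ s : ℂ, 1 / 2 < s.re → g s ≠ 0 := by
    intro s hs
    exact mul_ne_zero hC0 (Complex.exp_ne_zero _)
  -- P does not vanish in punctured neighbourhoods
  have hPne : ∀ z : ℂ, ∀ᶠ s in 𝓝[≠] z, P s ≠ 0 := by
    intro z
    exact (meromorphicOrderAt_ne_top_iff_eventually_ne_zero (hP.meromorphicAt z)).mp
      (hP.order_ne_top z)
  -- f = g to the right
  have hfg : ∀ z : ℂ, 1 / 2 < z.re → z ≠ 1 → f =ᶠ[𝓝[≠] z] g := by
    intro z hz hz1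
    have a1 : ∀ᶠ s in 𝓝[≠] z, 1 / 2 < s.re ∧ s ≠ 1 := by
      apply mem_nhdsWithin_of_mem_nhds
      exact ((isOpen_lt continuous_const continuous_re).inter isOpen_ne).mem_nhds ⟨hz, hz1⟩
    filter_upwards [a1, hPne z] with s hs1 hs2
    simp only [hf, hg]
    rw [hC s hs1.1 hs1.2]
    field_simp
  -- orders
  have hord_right : ∀ z : ℂ, 1 / 2 < z.re → z ≠ 1 → meromorphicOrderAt f z = 0 := by
    intro z hz hz1
    rw [meromorphicOrderAt_congr (hfg z hz hz1)]
    exact (hgan z hz).meromorphicNFAt.meromorphicOrderAt_eq_zero_iff.mpr (hgne z hz)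
  have hord_line : ∀ t : ℝ, T₁ < t → meromorphicOrderAt f (1 / 2 + t * I) = 0 := by
    intro t ht
    have ht0 : T₀ < t := lt_of_le_of_lt (le_max_left _ _) ht
    have ht1 : 0 < t := lt_of_le_of_lt (le_max_right _ _) ht
    set z : ℂ := 1 / 2 + t * I with hz
    have b1 : meromorphicOrderAt f z
        = meromorphicOrderAt R z + -meromorphicOrderAt P z := by
      rw [← meromorphicOrderAt_inv, ← meromorphicOrderAt_mul (hR.meromorphicAt z)
        (hP.meromorphicAt z).inv]
      rfl
    have b3 : ((meromorphicOrderAt R z).untop₀ : WithTop ℤ) = meromorphicOrderAt R z :=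
      WithTop.coe_untop₀_of_ne_top (hR.order_ne_top z)
    have b4 : ((meromorphicOrderAt P z).untop₀ : WithTop ℤ) = meromorphicOrderAt P z :=
      WithTop.coe_untop₀_of_ne_top (hP.order_ne_top z)
    have b5 := hT₀ t ht0
    rw [eo, ← hz, sub_eq_zero] at b5
    rw [b1, ← b3, ← b4, b5]
    have b6 : ∀ a : ℤ, ((a : ℤ) : WithTop ℤ) + -((a : ℤ) : WithTop ℤ) = 0 := by
      intro a
      rw [← WithTop.LinearOrderedAddCommGroup.coe_neg, ← WithTop.coe_add, add_neg_cancel]
      rfl
    exact b6 _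
  have hord : ∀ z ∈ dom T₁, meromorphicOrderAt f z = 0 := by
    intro z hz
    obtain ⟨hz0, hz1, hz2⟩ := hz
    have hzp : 0 < z.im := lt_of_le_of_lt (le_max_right _ _) hz2
    rcases lt_trichotomy z.re (1 / 2) with h | h | h
    · rw [h1 uf hmf z hz0 hz1]
      apply hord_right
      · simp only [Complex.sub_re, Complex.one_re, Complex.conj_re]
        linarith
      · intro hc
        have := congrArg Complex.im hc
        simp at this
        linarith
    · have : z = 1 / 2 + (z.im : ℝ) * I := by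
        apply Complex.ext
        · simp [h]
        · simp
      rw [this]
      exact hord_line z.im hz2
    · apply hord_right z h
      intro hc
      have := congrArg Complex.im hc
      simp at this
      linarith
  -- normal form
  have hmon : MeromorphicOn f (dom T₁) := fun z _ => hmf z
  set F : ℂ → ℂ := toMeromorphicNFOn f (dom T₁) with hF
  have hFnf : ∀ z ∈ dom T₁, MeromorphicNFAt F z := fun z hz =>
    meromorphicNFOn_toMeromorphicNFOn f (dom T₁) hz
  have hFord : ∀ z ∈ dom T₁, meromorphicOrderAt F z = 0 := by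
    intro z hz
    rw [hF, meromorphicOrderAt_toMeromorphicNFOn hmon hz]
    exact hord z hz
  have hFan : ∀ z ∈ dom T₁, AnalyticAt ℂ F z := by
    intro z hz
    exact (hFnf z hz).meromorphicOrderAt_nonneg_iff_analyticAt.mp (by rw [hFord z hz])
  have hFne : ∀ z ∈ dom T₁, F z ≠ 0 := by
    intro z hz
    exact (hFnf z hz).meromorphicOrderAt_eq_zero_iff.mp (hFord z hz)
  have hFf : ∀ z ∈ dom T₁, F =ᶠ[𝓝[≠] z] f := fun z hz =>
    hmon.toMeromorphicNFOn_eq_self_on_nhdsNE hz
  obtain ⟨D, κ, X, hX0, hXc, hXn, hXa⟩ := uf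
  refine ⟨T₁, fun z => Real.log ‖F z‖, D, κ, X, Real.log ‖C‖, ?_, ?_, ?_, ?_, hX0, hXc, hXa⟩
  · intro z hz
    refine ContinuousAt.continuousWithinAt ?_
    exact ((hFan z hz).continuousAt.norm).log (norm_ne_zero_iff.mpr (hFne z hz))
  · intro c ρ hρ hsub
    have hρ' : |ρ| = ρ := abs_of_pos hρ
    apply AnalyticOnNhd.circleAverage_log_norm_of_ne_zero
    · rw [hρ']; exact fun z hz => hFan z (hsub hz)
    · rw [hρ']; exact fun z hz => hFne z (hsub hz)
  · intro σ t hσ1 hσ2 ht
    set z : ℂ := (σ : ℂ) + t * I with hz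
    have hzre : z.re = σ := by simp [hz]
    have hzim : z.im = t := by simp [hz]
    have hzd : z ∈ dom T₁ := ⟨by rw [hzre]; linarith, by rw [hzre]; exact hσ2, by rw [hzim]; exact ht⟩
    have hz1 : z ≠ 1 := by
      intro hc
      have h5 := congrArg Complex.im hc
      rw [hzim] at h5
      simp at h5
      have : 0 < t := lt_of_le_of_lt (le_max_right _ _) ht
      linarith
    have c1 : F =ᶠ[𝓝[≠] z] g := (hFf z hzd).trans (hfg z (by rw [hzre]; exact hσ1) hz1)
    have c2 : F z = g z := by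
      have c3 := ((hFnf z hzd).eventuallyEq_nhdsNE_iff_eventuallyEq_nhds
        (hgan z (by rw [hzre]; exact hσ1)).meromorphicNFAt).mp c1
      exact c3.eq_of_nhds
    change Real.log ‖F z‖ = Real.log ‖C‖ + (ℓ z).re
    rw [c2]
    simp only [hg]
    rw [norm_mul, Real.log_mul, Complex.norm_exp, Real.log_exp]
    · exact norm_ne_zero_iff.mpr hC0
    · exact norm_ne_zero_iff.mpr (Complex.exp_ne_zero _)
  · intro σ t hσ0 hσ1 ht
    set z : ℂ := (σ : ℂ) + t * I with hz
    set z' : ℂ := ((1 - σ : ℝ) : ℂ) + t * I with hz'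
    have hzre : z.re = σ := by simp [hz]
    have hzim : z.im = t := by simp [hz]
    have hzre' : z'.re = 1 - σ := by simp [hz']
    have hzim' : z'.im = t := by simp [hz']
    have hzd : z ∈ dom T₁ := ⟨by rw [hzre]; exact hσ0, by rw [hzre]; linarith, by rw [hzim]; exact ht⟩
    have hzd' : z' ∈ dom T₁ :=
      ⟨by rw [hzre']; linarith, by rw [hzre']; linarith, by rw [hzim']; exact ht⟩
    have hrefl : 1 - conj z = z' := by
      apply Complex.ext <;> simp [hz, hz']
    -- the reflected map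
    have hcont : Continuous (fun s : ℂ => 1 - conj s) := by fun_prop
    have htend : Tendsto (fun s : ℂ => 1 - conj s) (𝓝[≠] z) (𝓝[≠] z') := by
      refine tendsto_nhdsWithin_of_tendsto_nhds_of_eventually_within _ ?_ ?_
      · have := (hcont.tendsto z).mono_left (nhdsWithin_le_nhds (s := {z}ᶜ))
        rwa [hrefl] at this
      · filter_upwards [self_mem_nhdsWithin] with s hs hc
        apply hs
        have h5 : conj s = conj z := by
          have h6 : 1 - conj s = 1 - conj z := by rw [hc, hrefl]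
          linear_combination -h6
        have h7 := congrArg conj h5
        simpa using h7
    have hev : ∀ᶠ s in 𝓝[≠] z, ‖F s‖ = X s.re s.im * ‖F (1 - conj s)‖ := by
      have d1 : ∀ᶠ s in 𝓝[≠] z, 0 < s.re ∧ s.re < 1 := by
        apply mem_nhdsWithin_of_mem_nhds
        exact ((isOpen_lt continuous_const continuous_re).inter
          (isOpen_lt continuous_re continuous_const)).mem_nhds ⟨hzd.1, hzd.2.1⟩
      filter_upwards [d1, hFf z hzd, htend.eventually (hFf z' hzd')] with s e1 e2 e3
      rw [e2, e3]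
      have e4 := hXn s.re s.im e1.1 e1.2
      have e5 : (s.re : ℂ) + s.im * I = s := Complex.re_add_im s
      have e6 : ((1 - s.re : ℝ) : ℂ) + s.im * I = 1 - conj s := by
        apply Complex.ext <;> simp
      rw [e5, e6] at e4
      exact e4
    have hl1 : Tendsto (fun s => ‖F s‖) (𝓝[≠] z) (𝓝 ‖F z‖) :=
      ((hFan z hzd).continuousAt.norm).tendsto.mono_left nhdsWithin_le_nhds
    have hl2 : Tendsto (fun s : ℂ => X s.re s.im * ‖F (1 - conj s)‖) (𝓝[≠] z)
        (𝓝 (X σ t * ‖F z'‖)) := by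
      refine Tendsto.mul ?_ ?_
      · have hXat : ContinuousAt (fun w : ℝ × ℝ => X w.1 w.2) (σ, t) :=
          hXc.continuousAt ((isOpen_Ioo.prod isOpen_univ).mem_nhds ⟨⟨hσ0, by linarith⟩, trivial⟩)
        have h5 : Tendsto (fun s : ℂ => (s.re, s.im)) (𝓝[≠] z) (𝓝 (σ, t)) := by
          have h6 : Continuous (fun s : ℂ => (s.re, s.im)) := by fun_prop
          have h7 := (h6.tendsto z).mono_left (nhdsWithin_le_nhds (s := {z}ᶜ))
          simp only [hzre, hzim] at h7
          exact h7
        exact hXat.tendsto.comp h5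
      · have h5 : Tendsto (fun w => ‖F w‖) (𝓝[≠] z') (𝓝 ‖F z'‖) :=
          ((hFan z' hzd').continuousAt.norm).tendsto.mono_left nhdsWithin_le_nhds
        exact h5.comp htend
    have hfin : ‖F z‖ = X σ t * ‖F z'‖ :=
      tendsto_nhds_unique hl1 (hl2.congr' (by filter_upwards [hev] with s hs; exact hs.symm))
    change Real.log ‖F z‖ = Real.log (X σ t) + Real.log ‖F z'‖
    rw [hfin, Real.log_mul (hX0 σ t hσ0 (by linarith)).ne' (norm_ne_zero_iff.mpr (hFne z' hzd'))]

end Pool.Agent.PrimesOnly
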