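import Pool.Agent.PrimesOnly.Final
import Pool.Agent.PrimesOnly.CLB
import Pool.Agent.PrimesOnly.CLHM
import Pool.Agent.PrimesOnly.CPOT

/-! The comparison theorem for complex coefficients and its application. -/

namespace Pool.Agent.PrimesOnly

open Complex Filter Topology Set Pool.Agent.SelPole Pool.Agent.CohenPD
open scoped ComplexConjugate ArithmeticFunction.vonMangoldt

/-- Comparison of complex coefficients. -/
theorem cmain {P R : ℂ → ℂ} {p q : ℕ → ℂ} {E : Set ℕ} {σ₀ K : ℝ}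
    (h : CCmp P R p q E σ₀ K) (uP : UFE P) (uR : UFE R) : ∀ n : ℕ, 2 ≤ n → q n = p n :=
  cmain_of p_CELL p_CLB p_CLHM p_CPOT p_MOPS (p_CIR p_MOPS p_MLOG) h uP uR

/-- Equality of the real parts of the coefficients implies equality, if the imaginary parts
vanish outside the squares of primes and are bounded at the squares of primes. -/
theorem imag {F : ℂ → ℂ} {b : ℕ → ℂ} (hF : IsEulerProduct F b) {r : ℕ}
    {L : ℂ → ℂ} {c : ℕ → ℝ} (hL : IsEulerProduct L (fun n => (c n : ℂ)))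
    {E : Set ℕ} {σ₀ : ℝ} (hσ₀ : σ₀ < 1 / 2)
    (hE : Summable (E.indicator fun n : ℕ => Pool.Agent.SelPole.wt b c n * (n : ℝ) ^ (-σ₀)))
    (hre : ∀ n : ℕ, 2 ≤ n → (b n).re * Real.log n = gc r c n) {B : ℝ}
    (h1 : ∀ n : ℕ, n ∉ E → (∀ p : ℕ, p.Prime → n ≠ p ^ 2) →
      (b n).re * Real.log n = gc r c n → (b n).im = 0)
    (h2 : ∀ p : ℕ, p.Prime → p ^ 2 ∉ E → |(b (p ^ 2)).im| ≤ B) :
    ∀ s : ℂ, s ≠ 1 → F s = riemannZeta s ^ r * L s := by
  have hG := zetaL_EulerFE r hL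
  have tU := p_UPROD p_UNORM
  have tO : T_UOPS := p_UOPS
  have uG : UFE (fun s => riemannZeta s ^ r * L s) := tO.1 (tO.2.2.2 tU.2 r) (tU.1 hL).1
  have hre' : ∀ n : ℕ, (b n).re * Real.log n = gc r c n := by
    intro n
    rcases Nat.lt_or_ge n 2 with hn | hn
    · have h3 : Real.log n = 0 := by
        interval_cases n <;> simp
      have h4 : Λ n = 0 := by
        interval_cases n <;> simp
      rw [gc, h3, h4]
      ring
    · exact hre n hn
  have hdiff : ∀ n : ℕ, ldc b n - (gc r c n : ℂ) = (Real.log n * (b n).im : ℝ) * I := by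
    intro n
    rw [← hre' n, ldc]
    generalize Real.log (n : ℝ) = l
    apply Complex.ext
    · simp
      ring
    · simp
  have hcmp : CCmp (fun s => riemannZeta s ^ r * L s) F (fun n => (gc r c n : ℂ)) (ldc b) E σ₀
      (max B 0) := by
    refine ⟨hG, hF.toEulerFE, hσ₀, ?_, fun n hn => ?_⟩
    · refine thin_summable (K := 2 * (r + 1)) hE (fun n => ?_)
      have h3 := wt_bound r b c n
      have hl : 0 ≤ Real.log n := Real.log_natCast_nonneg n
      rw [Pi.sub_apply, hdiff n, norm_mul, Complex.norm_real, Complex.norm_I, mul_one,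
        Real.norm_eq_abs, abs_mul, abs_of_nonneg hl]
      have h4 : Real.log n * |(b n).im| ≤ Real.log n * ‖b n‖ :=
        mul_le_mul_of_nonneg_left (Complex.abs_im_le_norm _) hl
      have h5 : 0 ≤ |gc r c n| := abs_nonneg _
      have h6 : 0 ≤ Real.log n * ‖b n‖ := mul_nonneg hl (norm_nonneg _)
      linarith
    · have hl : 0 ≤ Real.log n := Real.log_natCast_nonneg n
      rw [hdiff n, norm_mul, Complex.norm_real, Complex.norm_I, mul_one, Real.norm_eq_abs, abs_mul,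
        abs_of_nonneg hl]
      by_cases hsq : ∃ p : ℕ, p.Prime ∧ n = p ^ 2
      · obtain ⟨p, hp, rfl⟩ := hsq
        rw [sq_prime hp, mul_comm]
        exact mul_le_mul_of_nonneg_right ((h2 p hp hn).trans (le_max_left _ _)) hl
      · have h3 := h1 n hn (fun p hp hpn => hsq ⟨p, hp, hpn⟩) (hre' n)
        rw [h3, abs_zero, mul_zero]
        exact mul_nonneg (le_max_right _ _) (sq_nonneg' n)
  have heq := cmain hcmp uG (tU.1 hF).1
  intro s hs
  exact eq_of_coeff hG hF.toEulerFE (fun n hn => heq n hn) (zetaL_tendsto r hL) hF.tendsto_one s hs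

/-- The theorem for members of the Selberg class, complex coefficients. -/
theorem cfinal {F : ℂ → ℂ} {a b : ℕ → ℂ} (hF : IsSelberg F a b) {r : ℕ}
    (hpole : meromorphicOrderAt F 1 = ((-(r : ℤ) : ℤ) : WithTop ℤ))
    {L : ℂ → ℂ} {c : ℕ → ℝ} (hL : IsEulerProduct L (fun n => (c n : ℂ)))
    (hLent : Differentiable ℂ L) {θ C : ℝ} (hθ : θ < 1 / 2)
    (hc : ∀ n : ℕ, 1 ≤ n → |c n| ≤ C * (n : ℝ) ^ θ) {E : Set ℕ} {σ₀ : ℝ} (hσ₀ : σ₀ < 1 / 2)
    (hE : Summable (E.indicator fun n : ℕ =>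
      ((‖b n‖ + |c n|) * Real.log n + Λ n) * (n : ℝ) ^ (-σ₀))) {K : ℝ}
    (h : ((∀ n : ℕ, n ∉ E → (∀ p : ℕ, p.Prime → n ≠ p ^ 2) →
            r * Λ n + c n * Real.log n ≤ (b n).re * Real.log n) ∧
          (∀ p : ℕ, p.Prime → p ^ 2 ∉ E → c (p ^ 2) - K ≤ (b (p ^ 2)).re) ∧ L 1 ≠ 0 ∧
          ∀ x : ℝ, 1 / 2 < x → x < 1 → meromorphicOrderAt L x ≤ meromorphicOrderAt F x) ∨
        ((∀ n : ℕ, n ∉ E → (∀ p : ℕ, p.Prime → n ≠ p ^ 2) →
            (b n).re * Real.log n ≤ r * Λ n + c n * Real.log n) ∧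
          (∀ p : ℕ, p.Prime → p ^ 2 ∉ E → (b (p ^ 2)).re ≤ c (p ^ 2) + K) ∧
          ∀ x : ℝ, 1 / 2 < x → x < 1 → meromorphicOrderAt F x ≤ meromorphicOrderAt L x)) :
    (∀ s : ℂ, s ≠ 1 → F s * (starRingEnd ℂ) (F ((starRingEnd ℂ) s)) =
      (riemannZeta s ^ r * L s) ^ 2) ∧
    ((∀ n : ℕ, n ∉ E → (∀ p : ℕ, p.Prime → n ≠ p ^ 2) →
        (b n).re * Real.log n = r * Λ n + c n * Real.log n → (b n).im = 0) →
      (∀ p : ℕ, p.Prime → p ^ 2 ∉ E → |(b (p ^ 2)).im| ≤ K) →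
      ∀ s : ℂ, s ≠ 1 → F s = riemannZeta s ^ r * L s) := by
  obtain ⟨h1, h2⟩ := final_full hF hpole hL hLent hθ hc hσ₀ hE h
  exact ⟨h2, fun h3 h4 => imag hF.isEulerProduct hL hσ₀ hE h1 h3 h4⟩

end Pool.Agent.PrimesOnly
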