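import Pool.Agent.PrimesOnly.Targets

/-! The circle argument. -/

set_option autoImplicit false

namespace Pool.Agent.PrimesOnly

open Complex Filter Topology Set MeasureTheory Pool.Agent.SelPole Pool.Agent.CohenPD

lemma CIR_circle (σ₀ t ρ θ : ℝ) : circleMap ((σ₀ : ℂ) + t * I) ρ θ =
    ((σ₀ + ρ * Real.cos θ : ℝ) : ℂ) + ((t + ρ * Real.sin θ : ℝ) : ℂ) * I := by
  rw [circleMap, Complex.exp_mul_I, ← Complex.ofReal_cos, ← Complex.ofReal_sin]
  push_cast
  ring

lemma CIR_norm_exp (lam t : ℝ) : ‖exp ((lam : ℂ) * t * I)‖ = 1 := by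
  rw [← Complex.ofReal_mul]
  exact Complex.norm_exp_ofReal_mul_I _

/-- means of bounded functions -/
lemma CIR_bound {T B lam : ℝ} (hT : 0 < T) {f : ℝ → ℝ} (hf : ∀ t, T ≤ t → t ≤ 2 * T → |f t| ≤ B) :
    ‖(1 / T : ℂ) * ∫ t in T..2 * T, (f t : ℂ) * exp (lam * t * I)‖ ≤ B := by
  have hT2 : T ≤ 2 * T := by linarith
  have h1 : ‖∫ t in T..2 * T, (f t : ℂ) * exp (lam * t * I)‖ ≤ B * |2 * T - T| := by
    apply intervalIntegral.norm_integral_le_of_norm_le_const
    intro t ht
    rw [uIoc_of_le hT2] at ht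
    rw [norm_mul, CIR_norm_exp, mul_one, Complex.norm_real]
    exact hf t ht.1.le ht.2
  rw [norm_mul, norm_div, norm_one, Complex.norm_real, Real.norm_of_nonneg hT.le]
  have e : |2 * T - T| = T := by
    rw [abs_of_nonneg (by linarith)]
    ring
  rw [e] at h1
  calc 1 / T * ‖∫ t in T..2 * T, (f t : ℂ) * exp (lam * t * I)‖ ≤ 1 / T * (B * T) := by gcongr
    _ = B := by field_simp

/-- the mean value of the logarithm of the factor is small, uniformly -/
lemma CIR_logX (h1 : T_MOPS) (h2 : T_MLOG) {lam : ℝ} (hlam : 0 < lam) {X : ℝ → ℝ → ℝ}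
    {D κ : ℝ} (hX0 : ∀ σ t : ℝ, 0 < σ → σ < 1 → 0 < X σ t)
    (hXc : ContinuousOn (fun z : ℝ × ℝ => X z.1 z.2) (Ioo 0 1 ×ˢ univ))
    (hXa : ∀ ε : ℝ, 0 < ε → ∀ᶠ t : ℝ in atTop, ∀ σ : ℝ, 0 < σ → σ < 1 / 2 →
      |Real.log (X σ t) - (1 - 2 * σ) * (D * Real.log t + κ)| ≤ ε) {ε : ℝ} (hε : 0 < ε) :
    ∀ᶠ T : ℝ in atTop, ∀ σ η : ℝ, 0 < σ → σ < 1 / 2 → |η| ≤ 1 →
      ‖(1 / T : ℂ) * ∫ t in T..2 * T, (Real.log (X σ (t + η)) : ℂ) * exp (lam * t * I)‖ ≤ ε := by
  have hD : 0 < |D| + 1 := by positivity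
  obtain ⟨t₀, ht₀⟩ := eventually_atTop.1 (hXa (ε / 3) (by positivity))
  have hlog := h2 hlam (ε / (3 * (|D| + 1))) (by positivity)
  have hκ := (h1.2.2.1 κ hlam).mean.norm
  rw [norm_zero] at hκ
  have hκ' := hκ.eventually (ge_mem_nhds (show (0 : ℝ) < ε / 3 by positivity))
  filter_upwards [hlog, hκ', eventually_ge_atTop (t₀ + 1), eventually_ge_atTop 3] with T hT1 hT2
    hT3 hT4 σ η hσ0 hσ1 hη
  have hT0 : 0 < T := by linarith
  have hTT : T ≤ 2 * T := by linarith
  obtain ⟨hη1, hη2⟩ := abs_le.1 hη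
  have hcX : Continuous fun t : ℝ => X σ (t + η) :=
    hXc.comp_continuous (f := fun t : ℝ => (σ, t + η)) (by fun_prop)
      (fun t => ⟨⟨hσ0, by linarith⟩, mem_univ _⟩)
  have hcf : Continuous fun t : ℝ => Real.log (X σ (t + η)) :=
    hcX.log fun t => (hX0 σ _ hσ0 (by linarith)).ne'
  have hce : Continuous fun t : ℝ => exp (lam * t * I) := by fun_prop
  have hcl : ContinuousOn (fun t : ℝ => Real.log (t + η)) (uIcc T (2 * T)) := by
    rw [uIcc_of_le hTT]
    apply ContinuousOn.log (by fun_prop)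
    intro t ht
    have := ht.1
    linarith
  have hi1 : IntervalIntegrable (fun t : ℝ => ((Real.log (X σ (t + η)) -
      (1 - 2 * σ) * (D * Real.log (t + η) + κ) : ℝ) : ℂ) * exp (lam * t * I)) volume T (2 * T) := by
    apply ContinuousOn.intervalIntegrable
    apply ContinuousOn.mul _ hce.continuousOn
    apply Complex.continuous_ofReal.comp_continuousOn
    exact hcf.continuousOn.sub (continuousOn_const.mul ((continuousOn_const.mul hcl).add
      continuousOn_const))
  have hi2 : IntervalIntegrable (fun t : ℝ => (Real.log (t + η) : ℂ) * exp (lam * t * I))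
      volume T (2 * T) := by
    apply ContinuousOn.intervalIntegrable
    apply ContinuousOn.mul _ hce.continuousOn
    exact Complex.continuous_ofReal.comp_continuousOn hcl
  have hi3 : IntervalIntegrable (fun t : ℝ => (κ : ℂ) * exp (lam * t * I)) volume T (2 * T) :=
    (continuous_const.mul hce).intervalIntegrable _ _
  have hsplit : ∫ t in T..2 * T, (Real.log (X σ (t + η)) : ℂ) * exp (lam * t * I) =
      (∫ t in T..2 * T, ((Real.log (X σ (t + η)) -
        (1 - 2 * σ) * (D * Real.log (t + η) + κ) : ℝ) : ℂ) * exp (lam * t * I)) +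
      (((1 - 2 * σ) * D : ℝ) : ℂ) * (∫ t in T..2 * T, (Real.log (t + η) : ℂ) * exp (lam * t * I)) +
      ((1 - 2 * σ : ℝ) : ℂ) * ∫ t in T..2 * T, (κ : ℂ) * exp (lam * t * I) := by
    rw [← intervalIntegral.integral_const_mul, ← intervalIntegral.integral_const_mul,
      ← intervalIntegral.integral_add hi1 (hi2.const_mul _),
      ← intervalIntegral.integral_add (hi1.add (hi2.const_mul _)) (hi3.const_mul _)]
    congr 1
    funext t
    push_cast
    ring
  have hb1 := CIR_bound (lam := lam) (B := ε / 3) hT0 (f := fun t => Real.log (X σ (t + η)) -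
      (1 - 2 * σ) * (D * Real.log (t + η) + κ))
      (fun t ht _ => ht₀ (t + η) (by linarith) σ hσ0 hσ1)
  have hb2 := hT1 η hη
  rw [hsplit, mul_add, mul_add]
  set A : ℂ := (1 / T : ℂ) * ∫ t in T..2 * T, ((Real.log (X σ (t + η)) -
        (1 - 2 * σ) * (D * Real.log (t + η) + κ) : ℝ) : ℂ) * exp (lam * t * I) with hA
  have e2 : (1 / T : ℂ) * ((((1 - 2 * σ) * D : ℝ) : ℂ) *
      ∫ t in T..2 * T, (Real.log (t + η) : ℂ) * exp (lam * t * I)) = (((1 - 2 * σ) * D : ℝ) : ℂ) *
      ((1 / T : ℂ) * ∫ t in T..2 * T, (Real.log (t + η) : ℂ) * exp (lam * t * I)) := by ring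
  have e3 : (1 / T : ℂ) * (((1 - 2 * σ : ℝ) : ℂ) *
      ∫ t in T..2 * T, (κ : ℂ) * exp (lam * t * I)) = ((1 - 2 * σ : ℝ) : ℂ) *
      ((1 / T : ℂ) * ∫ t in T..2 * T, (κ : ℂ) * exp (lam * t * I)) := by ring
  rw [e2, e3]
  have hs : |1 - 2 * σ| ≤ 1 := by
    rw [abs_le]
    constructor <;> linarith
  have hn2 : ‖(((1 - 2 * σ) * D : ℝ) : ℂ) *
      ((1 / T : ℂ) * ∫ t in T..2 * T, (Real.log (t + η) : ℂ) * exp (lam * t * I))‖ ≤ ε / 3 := by
    rw [norm_mul, Complex.norm_real, Real.norm_eq_abs, abs_mul]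
    calc |1 - 2 * σ| * |D| *
        ‖(1 / T : ℂ) * ∫ t in T..2 * T, (Real.log (t + η) : ℂ) * exp (lam * t * I)‖ ≤
        1 * |D| * (ε / (3 * (|D| + 1))) := by gcongr
      _ = ε / 3 * (|D| / (|D| + 1)) := by field_simp
      _ ≤ ε / 3 * 1 := by
        gcongr
        rw [div_le_one hD]
        linarith
      _ = _ := mul_one _
  have hn3 : ‖((1 - 2 * σ : ℝ) : ℂ) *
      ((1 / T : ℂ) * ∫ t in T..2 * T, (κ : ℂ) * exp (lam * t * I))‖ ≤ ε / 3 := by
    rw [norm_mul, Complex.norm_real, Real.norm_eq_abs]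
    calc |1 - 2 * σ| * ‖(1 / T : ℂ) * ∫ t in T..2 * T, (κ : ℂ) * exp (lam * t * I)‖ ≤
        1 * (ε / 3) := by gcongr
      _ = _ := one_mul _
  refine (norm_add_le _ _).trans ?_
  refine (add_le_add (norm_add_le _ _) le_rfl).trans ?_
  linarith

/-- Fubini -/
lemma CIR_fubini {u : ℂ → ℝ} {T₁ : ℝ} (hu : ContinuousOn u (dom T₁))
    (hav : ∀ (c : ℂ) (ρ : ℝ), 0 < ρ → Metric.closedBall c ρ ⊆ dom T₁ →
      Real.circleAverage u c ρ = u c) {σ₀ ρ lam T : ℝ} (hρ : 0 < ρ) (hσ1 : 0 < σ₀ - ρ)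
    (hσ2 : σ₀ + ρ < 1) (hT0 : 0 < T) (hT : T₁ + ρ < T) :
    (1 / T : ℂ) * ∫ t in T..2 * T, (u ((σ₀ : ℂ) + t * I) : ℂ) * exp (lam * t * I) =
      (2 * Real.pi : ℂ)⁻¹ * ∫ θ in 0..2 * Real.pi, (1 / T : ℂ) *
        ∫ t in T..2 * T, (u (circleMap ((σ₀ : ℂ) + t * I) ρ θ) : ℂ) * exp (lam * t * I) ∧
    AEStronglyMeasurable (fun θ : ℝ => (1 / T : ℂ) *
        ∫ t in T..2 * T, (u (circleMap ((σ₀ : ℂ) + t * I) ρ θ) : ℂ) * exp (lam * t * I))
      (volume.restrict (uIoc 0 (2 * Real.pi))) := by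
  have hTT : T ≤ 2 * T := by linarith
  have hpi := Real.pi_pos
  have hdom : ∀ t θ : ℝ, T ≤ t → circleMap ((σ₀ : ℂ) + t * I) ρ θ ∈ dom T₁ := by
    intro t θ ht
    rw [CIR_circle]
    have h1 := Real.neg_one_le_cos θ
    have h2 := Real.cos_le_one θ
    have h3 := Real.neg_one_le_sin θ
    refine ⟨?_, ?_, ?_⟩
    · simp only [add_re, ofReal_re, mul_re, I_re, mul_zero, ofReal_im, I_im, mul_one, sub_self,
        add_zero]
      nlinarith
    · simp only [add_re, ofReal_re, mul_re, I_re, mul_zero, ofReal_im, I_im, mul_one, sub_self,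
        add_zero]
      nlinarith
    · simp only [add_im, ofReal_im, mul_im, ofReal_re, I_im, mul_one, I_re, mul_zero, add_zero,
        zero_add]
      nlinarith
  have hball : ∀ t : ℝ, T ≤ t → Metric.closedBall ((σ₀ : ℂ) + t * I) ρ ⊆ dom T₁ := by
    intro t ht z hz
    rw [Metric.mem_closedBall, dist_eq_norm] at hz
    have h1 := (Complex.abs_re_le_norm (z - ((σ₀ : ℂ) + t * I))).trans hz
    have h2 := (Complex.abs_im_le_norm (z - ((σ₀ : ℂ) + t * I))).trans hz
    rw [abs_le] at h1 h2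
    simp only [sub_re, add_re, ofReal_re, mul_re, I_re, mul_zero, ofReal_im, I_im, mul_one,
      sub_self, add_zero, sub_im, add_im, mul_im, zero_add] at h1 h2
    exact ⟨by linarith [h1.1], by linarith [h1.2], by linarith [h2.1]⟩
  set F : ℝ → ℝ → ℂ := fun t θ =>
    (u (circleMap ((σ₀ : ℂ) + t * I) ρ θ) : ℂ) * exp (lam * t * I) with hF
  have hcont : ContinuousOn F.uncurry (Icc T (2 * T) ×ˢ Icc 0 (2 * Real.pi)) := by
    apply ContinuousOn.mul
    · apply Complex.continuous_ofReal.comp_continuousOn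
      apply hu.comp
      · apply Continuous.continuousOn
        unfold circleMap
        fun_prop
      · intro z hz
        exact hdom z.1 z.2 hz.1.1
    · apply Continuous.continuousOn
      fun_prop
  have hint : IntegrableOn F.uncurry (Icc T (2 * T) ×ˢ Icc 0 (2 * Real.pi)) :=
    hcont.integrableOn_compact (isCompact_Icc.prod isCompact_Icc)
  have hint2 : IntegrableOn F.uncurry (uIoc T (2 * T) ×ˢ uIoc 0 (2 * Real.pi)) := by
    apply hint.mono_set
    rw [uIoc_of_le hTT, uIoc_of_le (by positivity)]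
    exact prod_mono Ioc_subset_Icc_self Ioc_subset_Icc_self
  constructor
  · have h1 : ∫ t in T..2 * T, (u ((σ₀ : ℂ) + t * I) : ℂ) * exp (lam * t * I) =
        ∫ t in T..2 * T, (2 * Real.pi : ℂ)⁻¹ * ∫ θ in 0..2 * Real.pi, F t θ := by
      apply intervalIntegral.integral_congr
      intro t ht
      rw [uIcc_of_le hTT] at ht
      simp only
      rw [← hav ((σ₀ : ℂ) + t * I) ρ hρ (hball t ht.1), Real.circleAverage_def, hF]
      simp only
      rw [intervalIntegral.integral_mul_const, intervalIntegral.integral_ofReal, smul_eq_mul]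
      push_cast
      ring
    rw [h1, intervalIntegral.integral_const_mul, intervalIntegral_intervalIntegral_swap hint2,
      intervalIntegral.integral_const_mul]
    ring
  · have h2 : Integrable F.uncurry ((volume.restrict (uIoc T (2 * T))).prod
        (volume.restrict (uIoc 0 (2 * Real.pi)))) := by
      rw [Measure.prod_restrict, ← Measure.volume_eq_prod]
      exact hint2
    have h3 := h2.integral_prod_right.aestronglyMeasurable
    apply AEStronglyMeasurable.const_mul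
    have h4 : (fun θ : ℝ => ∫ t in T..2 * T, F t θ) =
        fun θ => ∫ t, F.uncurry (t, θ) ∂(volume.restrict (uIoc T (2 * T))) := by
      funext θ
      rw [intervalIntegral.integral_of_le hTT, uIoc_of_le hTT]
      rfl
    rw [h4]
    exact h3

/-- the exceptional angles -/
lemma CIR_ae : ∀ᵐ θ : ℝ, Real.cos θ ≠ -(1 / 2) := by
  have h : {θ : ℝ | Real.cos θ = -(1 / 2)}.Countable := by
    have h1 : Real.cos (Real.pi - Real.pi / 3) = -(1 / 2) := by
      rw [Real.cos_pi_sub, Real.cos_pi_div_three]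
    have h2 : {θ : ℝ | Real.cos θ = -(1 / 2)} ⊆
        range (fun k : ℤ => 2 * (k : ℝ) * Real.pi + (Real.pi - Real.pi / 3)) ∪
        range (fun k : ℤ => 2 * (k : ℝ) * Real.pi - (Real.pi - Real.pi / 3)) := by
      intro θ hθ
      rw [mem_ofPred_eq, ← h1, eq_comm, Real.cos_eq_cos_iff] at hθ
      obtain ⟨k, hk | hk⟩ := hθ
      · exact Or.inl ⟨k, hk.symm⟩
      · exact Or.inr ⟨k, hk.symm⟩
    exact ((countable_range _).union (countable_range _)).mono h2
  have h3 := h.ae_notMem volume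
  filter_upwards [h3] with θ hθ
  exact hθ

/-- the integral of the defect is not zero -/
lemma CIR_pos {lam ρ : ℝ} (hlam : 0 < lam) (hρ : 0 < ρ) (hρl : lam * ρ ≤ 1) :
    ∫ θ in 0..2 * Real.pi, exp (-((lam * (ρ * Real.sin θ) : ℝ) : ℂ) * I) *
      (exp (-((lam * (1 / 2 + ρ / 2 + ρ * Real.cos θ) : ℝ) : ℂ)) -
        exp (-((lam * max (1 / 2 + ρ / 2 + ρ * Real.cos θ)
          (1 - (1 / 2 + ρ / 2 + ρ * Real.cos θ)) : ℝ) : ℂ))) ≠ 0 := by
  have hpi := Real.pi_pos
  set f : ℝ → ℂ := fun θ => exp (-((lam * (ρ * Real.sin θ) : ℝ) : ℂ) * I) *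
      (exp (-((lam * (1 / 2 + ρ / 2 + ρ * Real.cos θ) : ℝ) : ℂ)) -
        exp (-((lam * max (1 / 2 + ρ / 2 + ρ * Real.cos θ)
          (1 - (1 / 2 + ρ / 2 + ρ * Real.cos θ)) : ℝ) : ℂ))) with hf
  have hfc : Continuous f := by
    rw [hf]
    fun_prop
  have hre : ∀ θ, (f θ).re = Real.cos (lam * (ρ * Real.sin θ)) *
      (Real.exp (-(lam * (1 / 2 + ρ / 2 + ρ * Real.cos θ))) -
        Real.exp (-(lam * max (1 / 2 + ρ / 2 + ρ * Real.cos θ)
          (1 - (1 / 2 + ρ / 2 + ρ * Real.cos θ))))) := by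
    intro θ
    have e1 : exp (-((lam * (1 / 2 + ρ / 2 + ρ * Real.cos θ) : ℝ) : ℂ)) -
        exp (-((lam * max (1 / 2 + ρ / 2 + ρ * Real.cos θ)
          (1 - (1 / 2 + ρ / 2 + ρ * Real.cos θ)) : ℝ) : ℂ)) =
        ((Real.exp (-(lam * (1 / 2 + ρ / 2 + ρ * Real.cos θ))) -
        Real.exp (-(lam * max (1 / 2 + ρ / 2 + ρ * Real.cos θ)
          (1 - (1 / 2 + ρ / 2 + ρ * Real.cos θ)))) : ℝ) : ℂ) := by
      rw [← Complex.ofReal_neg, ← Complex.ofReal_neg, ← Complex.ofReal_exp, ← Complex.ofReal_exp,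
        ← Complex.ofReal_sub]
    have e2 : exp (-((lam * (ρ * Real.sin θ) : ℝ) : ℂ) * I) =
        exp (((-(lam * (ρ * Real.sin θ)) : ℝ) : ℂ) * I) := by
      rw [Complex.ofReal_neg]
    rw [hf]
    simp only
    rw [e1, e2, Complex.re_mul_ofReal, Complex.exp_ofReal_mul_I_re, Real.cos_neg]
  have hpos : 0 < ∫ θ in 0..2 * Real.pi, (f θ).re := by
    apply intervalIntegral.integral_pos (by positivity)
    · exact (Complex.continuous_re.comp hfc).continuousOn
    · intro θ _
      rw [hre]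
      apply mul_nonneg
      · have h1 := Real.neg_one_le_sin θ
        have h2 := Real.sin_le_one θ
        have h3 : |lam * (ρ * Real.sin θ)| ≤ 1 := by
          rw [← mul_assoc, abs_mul, abs_of_pos (by positivity : 0 < lam * ρ)]
          calc lam * ρ * |Real.sin θ| ≤ 1 * 1 := by
                gcongr
                exact abs_le.2 ⟨h1, h2⟩
            _ = 1 := one_mul 1
        obtain ⟨h4, h5⟩ := abs_le.1 h3
        have h6 := Real.pi_gt_three
        exact (Real.cos_pos_of_mem_Ioo ⟨by linarith, by linarith⟩).le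
      · rw [sub_nonneg, Real.exp_le_exp, neg_le_neg_iff]
        gcongr
        exact le_max_left _ _
    · refine ⟨Real.pi, ⟨hpi.le, by linarith⟩, ?_⟩
      rw [hre, Real.sin_pi, mul_zero, mul_zero, Real.cos_zero, one_mul, Real.cos_pi, sub_pos,
        Real.exp_lt_exp, neg_lt_neg_iff]
      gcongr
      refine lt_of_lt_of_le ?_ (le_max_right _ _)
      linarith
  intro h0
  have h1 : (∫ θ in 0..2 * Real.pi, f θ).re = ∫ θ in 0..2 * Real.pi, (f θ).re :=
    (Complex.reCLM.intervalIntegral_comp_comm (hfc.intervalIntegrable _ _)).symm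
  rw [h0, Complex.zero_re] at h1
  linarith

/-- the circle average of the exponential -/
lemma CIR_expavg (lam σ₀ ρ : ℝ) :
    (2 * Real.pi : ℂ)⁻¹ * ∫ θ in 0..2 * Real.pi, exp (-((lam * (ρ * Real.sin θ) : ℝ) : ℂ) * I) *
      exp (-((lam * (σ₀ + ρ * Real.cos θ) : ℝ) : ℂ)) = exp (-((lam * σ₀ : ℝ) : ℂ)) := by
  have hd : Differentiable ℂ fun s : ℂ => exp (-(lam : ℂ) * s) := by fun_prop
  have h := (hd.diffContOnCl (s := Metric.ball (σ₀ : ℂ) |ρ|)).circleAverage
  rw [Real.circleAverage_def] at h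
  have e1 : ∀ θ : ℝ, exp (-(lam : ℂ) * circleMap (σ₀ : ℂ) ρ θ) =
      exp (-((lam * (ρ * Real.sin θ) : ℝ) : ℂ) * I) *
      exp (-((lam * (σ₀ + ρ * Real.cos θ) : ℝ) : ℂ)) := by
    intro θ
    have h1 := CIR_circle σ₀ 0 ρ θ
    rw [Complex.ofReal_zero, zero_mul, add_zero, zero_add] at h1
    rw [h1, ← Complex.exp_add]
    congr 1
    push_cast
    ring
  simp_rw [e1] at h
  rw [Complex.real_smul] at h
  have e2 : exp (-((lam * σ₀ : ℝ) : ℂ)) = exp (-(lam : ℂ) * σ₀) := by
    congr 1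
    push_cast
    ring
  rw [e2, ← h]
  congr 1
  push_cast
  ring

theorem p_CIR (h1 : T_MOPS) (h2 : T_MLOG) : T_CIR := by
  intro u T₁ hu hav φ lam hlam c C hφ huφ X D κ hX0 hXc hXa hl
  have hpi := Real.pi_pos
  obtain ⟨ρ, hρ0, hρ8, hρl⟩ : ∃ ρ : ℝ, 0 < ρ ∧ ρ ≤ 1 / 8 ∧ lam * ρ ≤ 1 := by
    refine ⟨min (1 / 8) (1 / lam), by positivity, min_le_left _ _, ?_⟩
    calc lam * min (1 / 8) (1 / lam) ≤ lam * (1 / lam) := by
          gcongr
          exact min_le_right _ _
      _ = 1 := by field_simp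
  set σ₀ : ℝ := 1 / 2 + ρ / 2 with hσ₀
  set S : ℝ → ℝ := fun θ => σ₀ + ρ * Real.cos θ with hS
  set J : ℝ → ℝ → ℂ := fun T θ => (1 / T : ℂ) *
    ∫ t in T..2 * T, (u (circleMap ((σ₀ : ℂ) + t * I) ρ θ) : ℂ) * exp (lam * t * I) with hJ
  set L : ℝ → ℂ := fun θ => exp (-((lam * (ρ * Real.sin θ) : ℝ) : ℂ) * I) *
    (c * exp (-((lam * max (S θ) (1 - S θ) : ℝ) : ℂ))) with hL
  set g : ℝ → ℝ := fun θ => C * (1 + Real.log (1 / |S θ - 1 / 2|)) + 1 with hg
  have hS0 : ∀ θ, 0 < S θ ∧ S θ < 1 := by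
    intro θ
    have h3 := Real.neg_one_le_cos θ
    have h4 := Real.cos_le_one θ
    constructor
    · rw [hS]; simp only; nlinarith
    · rw [hS]; simp only; nlinarith
  have hη : ∀ θ, |ρ * Real.sin θ| ≤ 1 / 8 := by
    intro θ
    rw [abs_mul, abs_of_pos hρ0]
    calc ρ * |Real.sin θ| ≤ 1 / 8 * 1 := by
          gcongr
          exact Real.abs_sin_le_one θ
      _ = _ := mul_one _
  -- the right side
  have hJ1 : ∀ T θ : ℝ, 0 < T → T₁ + 1 < T → 1 / 2 < S θ → J T θ = (1 / T : ℂ) *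
      ∫ t in T..2 * T, (φ (S θ) (t + ρ * Real.sin θ) : ℂ) * exp (lam * t * I) := by
    intro T θ hT0 hT hθ
    have hTT : T ≤ 2 * T := by linarith
    rw [hJ]
    simp only
    congr 1
    apply intervalIntegral.integral_congr
    intro t ht
    rw [uIcc_of_le hTT] at ht
    simp only
    have h3 := (abs_le.1 (hη θ)).1
    rw [CIR_circle, huφ (σ₀ + ρ * Real.cos θ) (t + ρ * Real.sin θ) hθ (hS0 θ).2
      (by linarith [ht.1])]
  have hJ2 : ∀ T θ : ℝ, 0 < T → T₁ + 1 < T → S θ < 1 / 2 → J T θ = (1 / T : ℂ) *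
      (∫ t in T..2 * T, (Real.log (X (S θ) (t + ρ * Real.sin θ)) : ℂ) * exp (lam * t * I)) +
      (1 / T : ℂ) *
      ∫ t in T..2 * T, (φ (1 - S θ) (t + ρ * Real.sin θ) : ℂ) * exp (lam * t * I) := by
    intro T θ hT0 hT hθ
    have hTT : T ≤ 2 * T := by linarith
    have hce : Continuous fun t : ℝ => exp (lam * t * I) := by fun_prop
    have hcX : Continuous fun t : ℝ => X (S θ) (t + ρ * Real.sin θ) :=
      hXc.comp_continuous (f := fun t : ℝ => (S θ, t + ρ * Real.sin θ)) (by fun_prop)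
        (fun t => ⟨hS0 θ, mem_univ _⟩)
    have hcl : Continuous fun t : ℝ => Real.log (X (S θ) (t + ρ * Real.sin θ)) :=
      hcX.log fun t => (hX0 _ _ (hS0 θ).1 (hS0 θ).2).ne'
    have hcφ := (hφ (1 - S θ) (by linarith) (by linarith [(hS0 θ).1])).cont
    have hi1 : IntervalIntegrable (fun t : ℝ => (Real.log (X (S θ) (t + ρ * Real.sin θ)) : ℂ) *
        exp (lam * t * I)) volume T (2 * T) :=
      Continuous.intervalIntegrable ((Complex.continuous_ofReal.comp hcl).mul hce) _ _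
    have hi2 : IntervalIntegrable (fun t : ℝ => (φ (1 - S θ) (t + ρ * Real.sin θ) : ℂ) *
        exp (lam * t * I)) volume T (2 * T) := by
      have h4 : Continuous fun t : ℝ => φ (1 - S θ) (t + ρ * Real.sin θ) :=
        hcφ.comp (by fun_prop)
      exact Continuous.intervalIntegrable ((Complex.continuous_ofReal.comp h4).mul hce) _ _
    rw [← mul_add, ← intervalIntegral.integral_add hi1 hi2]
    rw [hJ]
    simp only
    congr 1
    apply intervalIntegral.integral_congr
    intro t ht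
    rw [uIcc_of_le hTT] at ht
    simp only
    have h3 := (abs_le.1 (hη θ)).1
    rw [CIR_circle, hl (σ₀ + ρ * Real.cos θ) (t + ρ * Real.sin θ) (hS0 θ).1 hθ
      (by linarith [ht.1])]
    push_cast
    ring
  -- the limit of the average
  have hdom : Tendsto (fun T : ℝ => ∫ θ in 0..2 * Real.pi, J T θ) atTop
      (𝓝 (∫ θ in 0..2 * Real.pi, L θ)) := by
    apply intervalIntegral.tendsto_integral_filter_of_dominated_convergence g
    · filter_upwards [eventually_gt_atTop 0, eventually_gt_atTop (T₁ + ρ)] with T hT0 hT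
      exact (CIR_fubini hu hav (σ₀ := σ₀) (ρ := ρ) (lam := lam) (T := T) hρ0 (by linarith)
        (by linarith) hT0 hT).2
    · filter_upwards [eventually_gt_atTop 0, eventually_gt_atTop (T₁ + 1),
        CIR_logX h1 h2 hlam hX0 hXc hXa one_pos] with T hT0 hT hX1
      filter_upwards [CIR_ae] with θ hθ _
      have hne : S θ ≠ 1 / 2 := by
        intro h0
        apply hθ
        have h3 : ρ * (Real.cos θ + 1 / 2) = 0 := by
          rw [hS, hσ₀] at h0
          simp only at h0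
          linarith
        rcases mul_eq_zero.1 h3 with h4 | h4
        · exact absurd h4 hρ0.ne'
        · linarith
      rcases lt_or_gt_of_ne hne with h3 | h3
      · rw [hJ2 T θ hT0 hT h3]
        have hb := (hφ (1 - S θ) (by linarith) (by linarith [(hS0 θ).1])).bound
        have h4 := CIR_bound (lam := lam) hT0 (f := fun t => φ (1 - S θ) (t + ρ * Real.sin θ))
          (fun t _ _ => hb _)
        have h5 := hX1 (S θ) (ρ * Real.sin θ) (hS0 θ).1 h3 ((hη θ).trans (by norm_num))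
        refine (norm_add_le _ _).trans ?_
        have e : 1 - S θ - 1 / 2 = |S θ - 1 / 2| := by
          rw [abs_of_neg (by linarith)]
          ring
        rw [e] at h4
        rw [hg]
        simp only
        linarith
      · rw [hJ1 T θ hT0 hT h3]
        have hb := (hφ (S θ) h3 (hS0 θ).2).bound
        have h4 := CIR_bound (lam := lam) hT0 (f := fun t => φ (S θ) (t + ρ * Real.sin θ))
          (fun t _ _ => hb _)
        have e : S θ - 1 / 2 = |S θ - 1 / 2| := by
          rw [abs_of_pos (by linarith)]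
        rw [e] at h4
        rw [hg]
        simp only
        linarith
    · have hmer : MeromorphicOn (fun θ : ℝ => ρ * (Real.cos θ + 1 / 2)) (uIcc 0 (2 * Real.pi)) := by
        intro θ _
        apply AnalyticAt.meromorphicAt
        have := Real.analyticAt_cos (x := θ)
        fun_prop
      have h3 := hmer.intervalIntegrable_log_norm
      have e : g = fun θ => C * (1 - Real.log ‖ρ * (Real.cos θ + 1 / 2)‖) + 1 := by
        funext θ
        rw [hg, hS, hσ₀]
        simp only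
        rw [one_div, Real.log_inv, Real.norm_eq_abs, ← sub_eq_add_neg]
        congr 5
        ring_nf
      rw [e]
      exact ((intervalIntegrable_const.sub h3).const_mul _).add intervalIntegrable_const
    · filter_upwards [CIR_ae] with θ hθ _
      have hne : S θ ≠ 1 / 2 := by
        intro h0
        apply hθ
        have h3 : ρ * (Real.cos θ + 1 / 2) = 0 := by
          rw [hS, hσ₀] at h0
          simp only at h0
          linarith
        rcases mul_eq_zero.1 h3 with h4 | h4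
        · exact absurd h4 hρ0.ne'
        · linarith
      rcases lt_or_gt_of_ne hne with h3 | h3
      · have h4 := h1.2.2.2 (hφ (1 - S θ) (by linarith) (by linarith [(hS0 θ).1])) (ρ * Real.sin θ)
        have h5 : Tendsto (fun T : ℝ => (1 / T : ℂ) * ∫ t in T..2 * T,
            (Real.log (X (S θ) (t + ρ * Real.sin θ)) : ℂ) * exp (lam * t * I)) atTop (𝓝 0) := by
          rw [tendsto_zero_iff_norm_tendsto_zero]
          rw [Metric.tendsto_atTop']
          intro ε hε
          obtain ⟨T₂, hT₂⟩ := eventually_atTop.1 (CIR_logX h1 h2 hlam hX0 hXc hXa (half_pos hε))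
          refine ⟨T₂, fun T hT => ?_⟩
          have h6 := hT₂ T hT.le (S θ) (ρ * Real.sin θ) (hS0 θ).1 h3 ((hη θ).trans (by norm_num))
          rw [dist_zero_right, norm_norm]
          linarith
        have h6 := h5.add h4
        rw [zero_add] at h6
        have hmax : max (S θ) (1 - S θ) = 1 - S θ := max_eq_right (by linarith)
        have e : L θ = exp (-((lam * (ρ * Real.sin θ) : ℝ) : ℂ) * I) *
            (c * exp (-((lam * (1 - S θ) : ℝ) : ℂ))) := by
          rw [hL]
          simp only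
          rw [hmax]
        rw [e]
        refine h6.congr' ?_
        filter_upwards [eventually_gt_atTop 0, eventually_gt_atTop (T₁ + 1)] with T hT0 hT
        exact (hJ2 T θ hT0 hT h3).symm
      · have h4 := h1.2.2.2 (hφ (S θ) h3 (hS0 θ).2) (ρ * Real.sin θ)
        have hmax : max (S θ) (1 - S θ) = S θ := max_eq_left (by linarith)
        have e : L θ = exp (-((lam * (ρ * Real.sin θ) : ℝ) : ℂ) * I) *
            (c * exp (-((lam * (S θ) : ℝ) : ℂ))) := by
          rw [hL]
          simp only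
          rw [hmax]
        rw [e]
        refine h4.congr' ?_
        filter_upwards [eventually_gt_atTop 0, eventually_gt_atTop (T₁ + 1)] with T hT0 hT
        exact (hJ1 T θ hT0 hT h3).symm
  -- the centre
  have hcen := (hφ σ₀ (by linarith) (by linarith)).mean
  have hcen2 : Tendsto (fun T : ℝ => (2 * Real.pi : ℂ)⁻¹ * ∫ θ in 0..2 * Real.pi, J T θ) atTop
      (𝓝 (c * exp (-((lam * σ₀ : ℝ) : ℂ)))) := by
    refine hcen.congr' ?_
    filter_upwards [eventually_gt_atTop 0, eventually_gt_atTop (T₁ + 1)] with T hT0 hT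
    have hTT : T ≤ 2 * T := by linarith
    rw [← (CIR_fubini hu hav (σ₀ := σ₀) (ρ := ρ) (lam := lam) (T := T) hρ0 (by linarith)
        (by linarith) hT0 (by linarith)).1]
    congr 1
    apply intervalIntegral.integral_congr
    intro t ht
    rw [uIcc_of_le hTT] at ht
    simp only
    rw [huφ σ₀ t (by linarith) (by linarith) (by linarith [ht.1])]
  have hlim := tendsto_nhds_unique hcen2 (hdom.const_mul _)
  have hexp := CIR_expavg lam σ₀ ρ
  have hpos := CIR_pos hlam hρ0 hρl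
  rw [← hexp] at hlim
  have hLc : Continuous fun θ : ℝ => exp (-((lam * (ρ * Real.sin θ) : ℝ) : ℂ) * I) *
      exp (-((lam * (σ₀ + ρ * Real.cos θ) : ℝ) : ℂ)) := by fun_prop
  have hLc2 : Continuous L := by
    rw [hL, hS]
    fun_prop
  have hpi0 : (2 * Real.pi : ℂ)⁻¹ ≠ 0 := by
    apply inv_ne_zero
    apply mul_ne_zero two_ne_zero
    exact_mod_cast hpi.ne'
  have h3 : c * ∫ θ in 0..2 * Real.pi, exp (-((lam * (ρ * Real.sin θ) : ℝ) : ℂ) * I) *
      (exp (-((lam * (σ₀ + ρ * Real.cos θ) : ℝ) : ℂ)) -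
        exp (-((lam * max (σ₀ + ρ * Real.cos θ)
          (1 - (σ₀ + ρ * Real.cos θ)) : ℝ) : ℂ))) = 0 := by
    have h4 : (2 * Real.pi : ℂ)⁻¹ * (c * (∫ θ in 0..2 * Real.pi,
        exp (-((lam * (ρ * Real.sin θ) : ℝ) : ℂ) * I) *
        exp (-((lam * (σ₀ + ρ * Real.cos θ) : ℝ) : ℂ))) - ∫ θ in 0..2 * Real.pi, L θ) = 0 := by
      linear_combination hlim
    have h5 := (mul_eq_zero.1 h4).resolve_left hpi0
    have hi1 : IntervalIntegrable (fun θ : ℝ => c *
        (exp (-((lam * (ρ * Real.sin θ) : ℝ) : ℂ) * I) *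
        exp (-((lam * (σ₀ + ρ * Real.cos θ) : ℝ) : ℂ)))) volume 0 (2 * Real.pi) :=
      Continuous.intervalIntegrable (continuous_const.mul hLc) _ _
    have hi2 : IntervalIntegrable L volume 0 (2 * Real.pi) := hLc2.intervalIntegrable _ _
    rw [← h5, ← intervalIntegral.integral_const_mul, ← intervalIntegral.integral_const_mul,
      ← intervalIntegral.integral_sub hi1 hi2]
    congr 1
    funext θ
    rw [hL, hS]
    simp only
    ring
  exact (mul_eq_zero.1 h3).resolve_right hpos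

end Pool.Agent.PrimesOnly
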