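import Pool.Agent.PrimesOnly.Targets

/-! The structure theorem for integer valued positive definite functions: the Hilbert space of a
positive definite function. -/

namespace Pool.Agent.PrimesOnly

open Filter Topology UniformSpace Pool.Agent.CohenPD

/-- `f` is positive definite and even -/
structure COH_IsPD (f : ℝ → ℤ) : Prop where
  pd : ∀ (s : Finset ℝ) (c : ℝ → ℝ), 0 ≤ ∑ x ∈ s, ∑ y ∈ s, c x * c y * (f (x - y) : ℝ)
  even : ∀ t, f (-t) = f t

/-- finitely supported functions, with the inner product of `f` -/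
def COH_Pre {f : ℝ → ℤ} (_h : COH_IsPD f) : Type := ℝ →₀ ℝ

noncomputable instance {f : ℝ → ℤ} (h : COH_IsPD f) : AddCommGroup (COH_Pre h) :=
  inferInstanceAs (AddCommGroup (ℝ →₀ ℝ))

noncomputable instance {f : ℝ → ℤ} (h : COH_IsPD f) : Module ℝ (COH_Pre h) :=
  inferInstanceAs (Module ℝ (ℝ →₀ ℝ))

/-- the bilinear form of `f` -/
noncomputable def COH_form (f : ℝ → ℤ) (x y : ℝ →₀ ℝ) : ℝ :=
  x.sum fun s a => y.sum fun t b => a * b * (f (s - t) : ℝ)

theorem COH_form_comm {f : ℝ → ℤ} (h : COH_IsPD f) (x y : ℝ →₀ ℝ) :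
    COH_form f y x = COH_form f x y := by
  rw [COH_form, COH_form, Finsupp.sum_comm]
  refine Finsupp.sum_congr (fun s _ => Finsupp.sum_congr (fun t _ => ?_))
  rw [← h.even (t - s), neg_sub]
  ring

theorem COH_form_self {f : ℝ → ℤ} (h : COH_IsPD f) (x : ℝ →₀ ℝ) : 0 ≤ COH_form f x x :=
  h.pd x.support x

theorem COH_form_add (f : ℝ → ℤ) (x y z : ℝ →₀ ℝ) :
    COH_form f (x + y) z = COH_form f x z + COH_form f y z := by
  rw [COH_form, COH_form, COH_form, Finsupp.sum_add_index']
  · intro s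
    simp
  · intro s a b
    rw [← Finsupp.sum_add]
    refine Finsupp.sum_congr (fun t _ => ?_)
    ring

theorem COH_form_smul (f : ℝ → ℤ) (r : ℝ) (x z : ℝ →₀ ℝ) :
    COH_form f (r • x) z = r * COH_form f x z := by
  rw [COH_form, COH_form, Finsupp.sum_smul_index, Finsupp.mul_sum]
  · refine Finsupp.sum_congr (fun s _ => ?_)
    rw [Finsupp.mul_sum]
    refine Finsupp.sum_congr (fun t _ => ?_)
    ring
  · intro s
    simp

noncomputable instance {f : ℝ → ℤ} (h : COH_IsPD f) :
    PreInnerProductSpace.Core ℝ (COH_Pre h) where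
  inner x y := COH_form f x y
  conj_inner_symm x y := COH_form_comm h x y
  re_inner_nonneg x := COH_form_self h x
  add_left x y z := COH_form_add f x y z
  smul_left x y r := COH_form_smul f r x y

noncomputable instance {f : ℝ → ℤ} (h : COH_IsPD f) : SeminormedAddCommGroup (COH_Pre h) :=
  InnerProductSpace.Core.toSeminormedAddCommGroup (𝕜 := ℝ)

noncomputable instance {f : ℝ → ℤ} (h : COH_IsPD f) : InnerProductSpace ℝ (COH_Pre h) :=
  InnerProductSpace.ofCore _

theorem COH_inner {f : ℝ → ℤ} (h : COH_IsPD f) (x y : COH_Pre h) :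
    (inner ℝ x y : ℝ) = COH_form f x y := rfl

/-- translation of finitely supported functions -/
noncomputable def COH_tl {f : ℝ → ℤ} (h : COH_IsPD f) (t : ℝ) : COH_Pre h →ₗ[ℝ] COH_Pre h :=
  Finsupp.lmapDomain ℝ ℝ (fun s => s + t)

theorem COH_form_map (f : ℝ → ℤ) (t : ℝ) (x y : ℝ →₀ ℝ) :
    COH_form f (Finsupp.mapDomain (fun s => s + t) x) (Finsupp.mapDomain (fun s => s + t) y)
      = COH_form f x y := by
  unfold COH_form
  rw [Finsupp.sum_mapDomain_index]
  · refine Finsupp.sum_congr (fun s _ => ?_)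
    rw [Finsupp.sum_mapDomain_index]
    · refine Finsupp.sum_congr (fun v _ => ?_)
      rw [add_sub_add_right_eq_sub]
    · intro v; simp
    · intro v a b; ring
  · intro s; simp
  · intro s a b
    rw [← Finsupp.sum_add]
    refine Finsupp.sum_congr (fun v _ => ?_)
    ring

theorem COH_tl_inner {f : ℝ → ℤ} (h : COH_IsPD f) (t : ℝ) (x y : COH_Pre h) :
    (inner ℝ (COH_tl h t x) (COH_tl h t y) : ℝ) = inner ℝ x y :=
  COH_form_map f t x y

theorem COH_tl_norm {f : ℝ → ℤ} (h : COH_IsPD f) (t : ℝ) (x : COH_Pre h) :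
    ‖COH_tl h t x‖ = ‖x‖ := by
  have h1 : ‖COH_tl h t x‖ ^ 2 = ‖x‖ ^ 2 := by
    rw [← real_inner_self_eq_norm_sq, ← real_inner_self_eq_norm_sq, COH_tl_inner]
  exact (sq_eq_sq₀ (norm_nonneg _) (norm_nonneg _)).mp h1

/-- translation as a continuous linear map -/
noncomputable def COH_tc {f : ℝ → ℤ} (h : COH_IsPD f) (t : ℝ) : COH_Pre h →L[ℝ] COH_Pre h :=
  (COH_tl h t).mkContinuous 1 (fun x => by rw [COH_tl_norm, one_mul])

/-- the representation -/
noncomputable def COH_rep {f : ℝ → ℤ} (h : COH_IsPD f) (t : ℝ) :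
    Completion (COH_Pre h) →L[ℝ] Completion (COH_Pre h) := (COH_tc h t).completion

theorem COH_rep_coe {f : ℝ → ℤ} (h : COH_IsPD f) (t : ℝ) (x : COH_Pre h) :
    COH_rep h t (x : Completion (COH_Pre h)) = ((COH_tl h t x : COH_Pre h) :
      Completion (COH_Pre h)) := by
  rw [COH_rep]
  simp [COH_tc]

theorem COH_tl_zero {f : ℝ → ℤ} (h : COH_IsPD f) (x : COH_Pre h) : COH_tl h 0 x = x := by
  change Finsupp.mapDomain (fun s : ℝ => s + 0) (x : ℝ →₀ ℝ) = x
  simp only [add_zero]
  exact Finsupp.mapDomain_id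

theorem COH_map_add (s t : ℝ) (x : ℝ →₀ ℝ) :
    Finsupp.mapDomain (fun v : ℝ => v + (s + t)) x
    = Finsupp.mapDomain (fun v : ℝ => v + s) (Finsupp.mapDomain (fun v : ℝ => v + t) x) := by
  rw [← Finsupp.mapDomain_comp]
  congr 1
  funext v
  simp only [Function.comp_apply]
  ring

theorem COH_tl_add {f : ℝ → ℤ} (h : COH_IsPD f) (s t : ℝ) (x : COH_Pre h) :
    COH_tl h (s + t) x = COH_tl h s (COH_tl h t x) := COH_map_add s t x

theorem COH_isRep {f : ℝ → ℤ} (h : COH_IsPD f) : IsRep (COH_rep h) where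
  zero x := by
    induction x using Completion.induction_on with
    | hp => exact isClosed_eq (COH_rep h 0).continuous continuous_id
    | ih x => rw [COH_rep_coe, COH_tl_zero]
  add s t x := by
    induction x using Completion.induction_on with
    | hp =>
      refine isClosed_eq (COH_rep h (s + t)).continuous ?_
      exact (COH_rep h s).continuous.comp (COH_rep h t).continuous
    | ih x => rw [COH_rep_coe, COH_rep_coe, COH_rep_coe, COH_tl_add]
  isom t x y := by
    induction x, y using Completion.induction_on₂ with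
    | hp =>
      apply isClosed_eq
      · exact ((COH_rep h t).continuous.comp continuous_fst).inner
          ((COH_rep h t).continuous.comp continuous_snd)
      · exact continuous_fst.inner continuous_snd
    | ih x y => rw [COH_rep_coe, COH_rep_coe, Completion.inner_coe, Completion.inner_coe,
        COH_tl_inner]

/-- the cyclic vector -/
noncomputable def COH_vec {f : ℝ → ℤ} (h : COH_IsPD f) : COH_Pre h :=
  (Finsupp.single (0 : ℝ) (1 : ℝ) : ℝ →₀ ℝ)

theorem COH_coeff {f : ℝ → ℤ} (h : COH_IsPD f) (t : ℝ) :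
    (inner ℝ (COH_rep h t (COH_vec h : Completion (COH_Pre h)))
      (COH_vec h : Completion (COH_Pre h)) : ℝ) = f t := by
  rw [COH_rep_coe, Completion.inner_coe, COH_inner]
  have h1 : COH_tl h t (COH_vec h) = (Finsupp.single t (1 : ℝ) : ℝ →₀ ℝ) := by
    change Finsupp.mapDomain (fun v : ℝ => v + t) (Finsupp.single (0 : ℝ) (1 : ℝ)) = _
    rw [Finsupp.mapDomain_single, zero_add]
  rw [h1, COH_vec, COH_form, Finsupp.sum_single_index, Finsupp.sum_single_index]
  · simp
  · simp
  · simp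

theorem p_COH : T_COH := by
  intro f hpd heven δ hδ h0
  have h : COH_IsPD f := ⟨hpd, heven⟩
  obtain ⟨l, hl1, hl2⟩ := structure_rep (COH_isRep h)
    (ξ := (COH_vec h : Completion (COH_Pre h))) (fun t => ⟨f t, COH_coeff h t⟩) hδ
    (fun t h1 h2 => by rw [COH_coeff, h0 t h1 h2]; simp)
  refine ⟨l, hl1, fun t => ?_⟩
  have h3 := hl2 t
  rw [COH_coeff] at h3
  exact_mod_cast h3

end Pool.Agent.PrimesOnly
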