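import Pool.Agent.PrimesOnly.Targets

/-! Boundary behaviour of the logarithmic derivative. -/

namespace Pool.Agent.PrimesOnly

open Complex Filter Topology Set MeasureTheory Pool.Agent.SelPole Pool.Agent.CohenPD

/-- the logarithmic derivative of the quotient near a point of the line `Re s = β`, for
coefficients which need not be real -/
theorem lim_gen {P R : ℂ → ℂ} {p q : ℕ → ℂ} (hP : EulerFE P p) (hR : EulerFE R q) {β : ℝ}
    (hβ : β ≤ 1) (hs : LSeries.abscissaOfAbsConv (q - p) ≤ β) {z : ℂ} (hz : z.re = β) (hz1 : z ≠ 1) :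
    Tendsto (fun y : ℝ => (y : ℂ) * LSeries (q - p) (z + y)) (𝓝[>] 0)
      (𝓝 (-(((meromorphicOrderAt R z).untop₀ - (meromorphicOrderAt P z).untop₀ : ℤ) : ℂ))) := by
  obtain ⟨C, hC0, hC⟩ := quotient hP hR hβ hs
  obtain ⟨m, v, hm, hv, hv0, hPv⟩ := hP.local_form z
  obtain ⟨n, w, hn, hw, hw0, hRw⟩ := hR.local_form z
  rw [hm, hn, WithTop.untop₀_coe, WithTop.untop₀_coe]
  set e : ℕ → ℂ := q - p with he
  have he1 : e 1 = 0 := by simp [he, hP.one, hR.one]
  have hab : LSeries.abscissaOfAbsConv (unlog e) ≤ β := by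
    refine LSeries.abscissaOfAbsConv_le_of_forall_lt_LSeriesSummable (fun y hy => ?_)
    apply unlog_summable he1
    apply LSeriesSummable_of_abscissaOfAbsConv_lt_re
    refine lt_of_le_of_lt hs ?_
    exact_mod_cast (by simpa using hy)
  set l : ℂ → ℂ := LSeries (unlog e) with hl
  have hld : ∀ s : ℂ, β < s.re → HasDerivAt l (-LSeries e s) s := by
    intro s hs'
    have h1 : LSeries.abscissaOfAbsConv (unlog e) < s.re :=
      lt_of_le_of_lt hab (by exact_mod_cast hs')
    have h2 := LSeries_hasDerivAt h1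
    have h3 : LSeries (LSeries.logMul (unlog e)) s = LSeries e s :=
      LSeries_congr (fun hn => logMul_unlog he1 hn) s
    rw [h3] at h2
    exact h2
  -- the function `u = w / v`
  set u : ℂ → ℂ := fun s => w s / v s with hu
  have huan : AnalyticAt ℂ u z := hw.div hv hv0
  have hu0 : u z ≠ 0 := div_ne_zero hw0 hv0
  -- the identity near `z`
  have h1 : ∀ᶠ s in 𝓝 z, (s ≠ z → β < s.re → C * exp (l s) = (s - z) ^ (n - m) * u s) ∧
      AnalyticAt ℂ u s ∧ u s ≠ 0 := by
    filter_upwards [eventually_nhdsWithin_iff.mp hPv, eventually_nhdsWithin_iff.mp hRw,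
      huan.eventually_analyticAt, huan.continuousAt.eventually_ne hu0,
      hv.continuousAt.eventually_ne hv0, isOpen_ne.mem_nhds hz1] with s a1 a2 a3 a4 a5 a6
    refine ⟨fun hsz hsre => ?_, a3, a4⟩
    have b1 := hC s hsre a6
    rw [a1 hsz, a2 hsz] at b1
    have hne : s - z ≠ 0 := sub_ne_zero.mpr hsz
    have b2 : (s - z) ^ m ≠ 0 := zpow_ne_zero _ hne
    have b3 : C * exp (l s) = ((s - z) ^ n * w s) / ((s - z) ^ m * v s) := by
      rw [eq_div_iff (mul_ne_zero b2 a5)]
      rw [← b1.symm]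
    rw [b3, zpow_sub₀ hne, hu]
    field_simp
  -- along the horizontal line
  have htend : Tendsto (fun y : ℝ => z + (y : ℂ)) (𝓝[>] 0) (𝓝 z) := by
    have : Tendsto (fun y : ℝ => z + (y : ℂ)) (𝓝 0) (𝓝 (z + ((0 : ℝ) : ℂ))) := by
      exact (by fun_prop : Continuous (fun y : ℝ => z + (y : ℂ))).tendsto 0
    simp only [Complex.ofReal_zero, add_zero] at this
    exact this.mono_left nhdsWithin_le_nhds
  have h2 : ∀ᶠ y : ℝ in 𝓝[>] 0, (y : ℂ) * LSeries e (z + y) =
      -((n - m : ℤ) : ℂ) - (y : ℂ) * (deriv u (z + y) / u (z + y)) := by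
    have h3 := htend.eventually h1.eventually_nhds
    filter_upwards [h3, self_mem_nhdsWithin] with y hy hy0
    have hy0' : (0 : ℝ) < y := hy0
    have hyc : (y : ℂ) ≠ 0 := by exact_mod_cast hy0'.ne'
    set s : ℂ := z + y with hs'
    have hsre : β < s.re := by simp [hs', hz, hy0']
    have hsz : s ≠ z := by
      intro h
      rw [hs'] at h
      exact hyc (by simpa using h)
    have hsz' : s - z = y := by rw [hs']; ring
    have hne : s - z ≠ 0 := sub_ne_zero.mpr hsz
    have hs2 := hy.self_of_nhds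
    have hd1 : HasDerivAt (fun s => C * exp (l s)) (C * (exp (l s) * (-LSeries e s))) s :=
      ((hld s hsre).cexp).const_mul C
    have hd2 : HasDerivAt (fun x => (x - z) ^ (n - m) * u x)
        ((((n - m : ℤ) : ℂ) * (s - z) ^ (n - m - 1)) * 1 * u s + (s - z) ^ (n - m) * deriv u s) s := by
      have e1 : HasDerivAt (fun x : ℂ => (x - z) ^ (n - m))
          ((((n - m : ℤ) : ℂ) * (s - z) ^ (n - m - 1)) * 1) s := by
        have := (hasDerivAt_zpow (n - m) (s - z) (Or.inl hne)).comp s ((hasDerivAt_id s).sub_const z)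
        exact this
      exact e1.mul hs2.2.1.differentiableAt.hasDerivAt
    have heq : (fun s => C * exp (l s)) =ᶠ[𝓝 s] (fun x => (x - z) ^ (n - m) * u x) := by
      filter_upwards [hy, isOpen_ne.mem_nhds hsz,
        (isOpen_lt continuous_const continuous_re).mem_nhds hsre] with x a1 a2 a3
      exact a1.1 a2 a3
    have h4 := (hd2.congr_of_eventuallyEq heq).unique hd1
    have h5 : C * exp (l s) = (s - z) ^ (n - m) * u s := heq.eq_of_nhds
    have h6 : C * (exp (l s) * (-LSeries e s)) = (s - z) ^ (n - m) * u s * (-LSeries e s) := by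
      rw [← h5]; ring
    rw [h6] at h4
    have h7 : (s - z) ^ (n - m) = (s - z) ^ (n - m - 1) * (s - z) := by
      rw [← zpow_add_one₀ hne]
      congr 1
      ring
    have h8 : (s - z) ^ (n - m - 1) ≠ 0 := zpow_ne_zero _ hne
    rw [h7] at h4
    have h9 : ((n - m : ℤ) : ℂ) * u s + (s - z) * deriv u s = (s - z) * u s * (-LSeries e s) := by
      apply mul_left_cancel₀ h8
      linear_combination h4
    rw [hsz'] at h9
    have hus := hs2.2.2
    field_simp
    linear_combination h9
  have h3 : Tendsto (fun y : ℝ => -((n - m : ℤ) : ℂ) - (y : ℂ) * (deriv u (z + y) / u (z + y)))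
      (𝓝[>] 0) (𝓝 (-((n - m : ℤ) : ℂ) - 0 * (deriv u z / u z))) := by
    refine tendsto_const_nhds.sub (Tendsto.mul ?_ ?_)
    · have : Tendsto (fun y : ℝ => (y : ℂ)) (𝓝 0) (𝓝 ((0 : ℝ) : ℂ)) :=
        Complex.continuous_ofReal.tendsto 0
      simpa using this.mono_left nhdsWithin_le_nhds
    · have h4 : Tendsto (fun s => deriv u s / u s) (𝓝 z) (𝓝 (deriv u z / u z)) :=
        (huan.deriv.continuousAt.div huan.continuousAt hu0)
      exact h4.comp htend
  have h4 := h3.congr' (EventuallyEq.symm h2)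
  simpa using h4

theorem p_LIM : T_LIM := by
  intro P R p q hP hR hab t
  have h1 : (fun n => ((q n - p n : ℝ) : ℂ)) = (fun n => (q n : ℂ)) - (fun n => (p n : ℂ)) := by
    funext n
    simp
  rw [h1] at hab ⊢
  have h2 := lim_gen hP hR (β := 1 / 2) (by norm_num) (by simpa using hab)
    (z := 1 / 2 + t * I) (by simp) (by
      intro h
      have := congrArg Complex.re h
      norm_num at this)
  have h3 : (fun y : ℝ => (y : ℂ) * LSeries ((fun n => (q n : ℂ)) - (fun n => (p n : ℂ)))
      (1 / 2 + y + t * I)) = (fun y : ℝ => (y : ℂ) * LSeries ((fun n => (q n : ℂ)) -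
        (fun n => (p n : ℂ))) (1 / 2 + t * I + y)) := by
    funext y
    congr 2
    ring
  rw [h3, eo]
  exact h2

end Pool.Agent.PrimesOnly
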