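import Pool.Agent.PrimesOnly.App
import Pool.Agent.PrimesOnly.LIM

/-! Exact targets for complex coefficients: two functions whose log-derivative coefficients agree
outside a thin set and outside the squares, where their difference is bounded. -/

namespace Pool.Agent.PrimesOnly

open Complex Filter Topology Set MeasureTheory Pool.Agent.SelPole Pool.Agent.CohenPD
open scoped ComplexConjugate ArithmeticFunction.vonMangoldt

/-- complex comparison data -/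
structure CCmp (P R : ℂ → ℂ) (p q : ℕ → ℂ) (E : Set ℕ) (σ₀ K : ℝ) : Prop where
  hP : EulerFE P p
  hR : EulerFE R q
  hσ₀ : σ₀ < 1 / 2
  hE : LSeriesSummable (E.indicator (q - p)) σ₀
  hdom : ∀ n ∉ E, ‖q n - p n‖ ≤ K * sq n

/-- the coefficient of the log series at the frequency `λ` -/
noncomputable def lcc (e : ℕ → ℂ) (lam : ℝ) : ℂ := by
  classical exact if h : ∃ n : ℕ, 2 ≤ n ∧ lam = Real.log n then
    (e (h.choose)) / Real.log h.choose else 0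

/-- abscissa of absolute convergence, and only finitely many zeros and poles on the line -/
def T_CELL : Prop := ∀ {P R : ℂ → ℂ} {p q : ℕ → ℂ} {E : Set ℕ} {σ₀ K : ℝ},
  CCmp P R p q E σ₀ K →
    LSeries.abscissaOfAbsConv (q - p) ≤ ((1 / 2 : ℝ) : EReal) ∧
    ∃ T₀ : ℝ, ∀ t : ℝ, T₀ < t → eo P R t = 0

/-- logarithmic bound -/
def T_CLB : Prop := ∀ {P R : ℂ → ℂ} {p q : ℕ → ℂ} {E : Set ℕ} {σ₀ K : ℝ},
  CCmp P R p q E σ₀ K → ∃ C : ℝ, ∀ y : ℝ, 1 / 2 < y → y ≤ 1 →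
    Summable (fun n : ℕ => ‖q n - p n‖ / Real.log n * (n : ℝ) ^ (-y)) ∧
    ∑' n : ℕ, ‖q n - p n‖ / Real.log n * (n : ℝ) ^ (-y) ≤ C * (1 + Real.log (1 / (y - 1 / 2)))

/-- mean values of the log series -/
def T_CLHM : Prop := ∀ {e : ℕ → ℂ}, (∃ C : ℝ, ∀ y : ℝ, 1 / 2 < y → y ≤ 1 →
    Summable (fun n : ℕ => ‖e n‖ / Real.log n * (n : ℝ) ^ (-y)) ∧
    ∑' n : ℕ, ‖e n‖ / Real.log n * (n : ℝ) ^ (-y) ≤ C * (1 + Real.log (1 / (y - 1 / 2)))) →
  ∀ {lam : ℝ}, 0 < lam →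
    ∃ C : ℝ, ∀ σ : ℝ, 1 / 2 < σ → σ ≤ 1 → HasMean
      (fun t => (LSeries (unlog e) ((σ : ℂ) + t * I)).re) lam
      ((1 / 2) * lcc e lam * exp (-((lam * σ : ℝ) : ℂ)))
      (C * (1 + Real.log (1 / (σ - 1 / 2))))

/-- the potential -/
def T_CPOT : Prop := ∀ {P R : ℂ → ℂ} {p q : ℕ → ℂ}, EulerFE P p → EulerFE R q →
  LSeries.abscissaOfAbsConv (q - p) ≤ ((1 / 2 : ℝ) : EReal) → UFE P → UFE R →
  (∃ T₀ : ℝ, ∀ t : ℝ, T₀ < t → eo P R t = 0) →
    ∃ (T₁ : ℝ) (u : ℂ → ℝ) (D κ : ℝ) (X : ℝ → ℝ → ℝ) (c₀ : ℝ),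
      ContinuousOn u (dom T₁) ∧
      (∀ (c : ℂ) (ρ : ℝ), 0 < ρ → Metric.closedBall c ρ ⊆ dom T₁ → Real.circleAverage u c ρ = u c) ∧
      (∀ σ t : ℝ, 1 / 2 < σ → σ < 1 → T₁ < t → u ((σ : ℂ) + t * I) =
        c₀ + (LSeries (unlog (q - p)) ((σ : ℂ) + t * I)).re) ∧
      (∀ σ t : ℝ, 0 < σ → σ < 1 / 2 → T₁ < t → u ((σ : ℂ) + t * I) =
        Real.log (X σ t) + u (((1 - σ : ℝ) : ℂ) + t * I)) ∧
      (∀ σ t : ℝ, 0 < σ → σ < 1 → 0 < X σ t) ∧
      ContinuousOn (fun z : ℝ × ℝ => X z.1 z.2) (Ioo 0 1 ×ˢ univ) ∧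
      ∀ ε : ℝ, 0 < ε → ∀ᶠ t : ℝ in atTop, ∀ σ : ℝ, 0 < σ → σ < 1 / 2 →
        |Real.log (X σ t) - (1 - 2 * σ) * (D * Real.log t + κ)| ≤ ε

/-- The comparison theorem for complex coefficients. -/
theorem cmain_of (tCELL : T_CELL) (tCLB : T_CLB) (tCLHM : T_CLHM) (tCPOT : T_CPOT)
    (tMOPS : T_MOPS) (tCIR : T_CIR) {P R : ℂ → ℂ} {p q : ℕ → ℂ} {E : Set ℕ} {σ₀ K : ℝ}
    (h : CCmp P R p q E σ₀ K) (uP : UFE P) (uR : UFE R) : ∀ n : ℕ, 2 ≤ n → q n = p n := by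
  obtain ⟨hab, hT⟩ := tCELL h
  obtain ⟨T₁, u, D, κ, X, c₀, hu, hav, hr, hll, hX0, hXc, hXa⟩ :=
    tCPOT h.hP h.hR hab uP uR hT
  have key : ∀ lam : ℝ, 0 < lam → lcc (q - p) lam = 0 := by
    intro lam hlam
    obtain ⟨C₂, hC₂⟩ := tCLHM (e := q - p) (tCLB h) hlam
    have hc := tCIR (u := u) (T₁ := T₁) hu hav
      (φ := fun σ t => c₀ + (LSeries (unlog (q - p)) ((σ : ℂ) + t * I)).re) hlam
      (c := (1 / 2) * lcc (q - p) lam) (C := |c₀| + C₂) ?_ ?_ hX0 hXc hXa ?_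
    · rcases mul_eq_zero.mp hc with h3 | h3
      · norm_num at h3
      · exact h3
    · intro σ h1 h2
      have a := tMOPS.1 (tMOPS.2.2.1 c₀ hlam) (hC₂ σ h1 h2.le)
      refine ⟨a.cont, fun t => (a.bound t).trans ?_, ?_⟩
      · have h3 : 0 ≤ Real.log (1 / (σ - 1 / 2)) := by
          apply Real.log_nonneg
          rw [le_div_iff₀ (by linarith)]
          linarith
        have h4 : |c₀| ≤ |c₀| * (1 + Real.log (1 / (σ - 1 / 2))) := by
          have := mul_nonneg (abs_nonneg c₀) h3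
          linarith
        calc |c₀| + C₂ * (1 + Real.log (1 / (σ - 1 / 2)))
            ≤ |c₀| * (1 + Real.log (1 / (σ - 1 / 2))) + C₂ * (1 + Real.log (1 / (σ - 1 / 2))) := by
              linarith
          _ = _ := by ring
      · convert a.mean using 2
        ring
    · intro σ t h1 h2 h3
      exact hr σ t h1 h2 h3
    · intro σ t h1 h2 h3
      rw [hll σ t h1 h2 h3, hr (1 - σ) t (by linarith) (by linarith) h3]
  intro n hn
  have hlog : 0 < Real.log n := Real.log_pos (by exact_mod_cast (by omega : 1 < n))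
  have h1 := key (Real.log n) hlog
  have hex : ∃ m : ℕ, 2 ≤ m ∧ Real.log n = Real.log m := ⟨n, hn, rfl⟩
  rw [lcc, dif_pos hex] at h1
  have h2 := hex.choose_spec
  have hm : hex.choose = n := by
    have a1 : (0 : ℝ) < n := by positivity
    have a2 : (0 : ℝ) < (hex.choose : ℝ) := by
      have : 0 < hex.choose := by omega
      exact_mod_cast this
    have := Real.log_injOn_pos (Set.mem_Ioi.2 a1) (Set.mem_Ioi.2 a2) h2.2
    exact_mod_cast this.symm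
  rw [hm] at h1
  have h3 : (Real.log n : ℂ) ≠ 0 := by exact_mod_cast hlog.ne'
  have h4 : (q - p) n = 0 := by
    rcases div_eq_zero_iff.mp h1 with h5 | h5
    · exact h5
    · exact absurd h5 h3
  exact sub_eq_zero.mp h4

end Pool.Agent.PrimesOnly
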