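import Pool.Agent.SelPole.Half
import Pool.Agent.CohenPD.Structure

/-! Definitions for the comparison theorem at primes. -/

namespace Pool.Agent.PrimesOnly

open Complex Filter Topology Set MeasureTheory Pool.Agent.SelPole Pool.Agent.CohenPD
open scoped ArithmeticFunction.vonMangoldt

/-- difference of the orders of `R` and `P` at `1/2 + it` -/
noncomputable def eo (P R : ℂ → ℂ) (t : ℝ) : ℤ :=
  (meromorphicOrderAt R (1 / 2 + t * I)).untop₀ - (meromorphicOrderAt P (1 / 2 + t * I)).untop₀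

/-- the coefficients of `-2 ζ'/ζ (2s)` -/
noncomputable def sq (n : ℕ) : ℝ := by
  classical exact if IsSquare n then 2 * Λ (Nat.sqrt n) else 0

/-- the integer valued function `-(ord R - ord P)(1/2+it) + K [t = 0]` -/
noncomputable def pe (P R : ℂ → ℂ) (K : ℕ) (t : ℝ) : ℤ := by
  classical exact -eo P R t + if t = 0 then (K : ℤ) else 0

/-- the comparison data -/
structure Cmp (P R : ℂ → ℂ) (p q : ℕ → ℝ) (E : Set ℕ) (σ₀ : ℝ) (K : ℕ) : Prop where
  hP : EulerFE P (fun n => (p n : ℂ))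
  hR : EulerFE R (fun n => (q n : ℂ))
  hσ₀ : σ₀ < 1 / 2
  hE : LSeriesSummable (E.indicator (fun n => ((q n - p n : ℝ) : ℂ))) σ₀
  hdom : ∀ n ∉ E, p n ≤ q n + K * sq n
  hord : ∀ x : ℝ, 1 / 2 < x → x ≤ 1 → meromorphicOrderAt P x ≤ meromorphicOrderAt R x

/-- the functional equation in absolute values, with uniform asymptotics -/
def UFE (F : ℂ → ℂ) : Prop :=
  ∃ (D κ : ℝ) (X : ℝ → ℝ → ℝ), (∀ σ t, 0 < σ → σ < 1 → 0 < X σ t) ∧
    ContinuousOn (fun z : ℝ × ℝ => X z.1 z.2) (Ioo 0 1 ×ˢ univ) ∧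
    (∀ σ t : ℝ, 0 < σ → σ < 1 → ‖F ((σ : ℂ) + t * I)‖ = X σ t * ‖F (((1 - σ : ℝ) : ℂ) + t * I)‖) ∧
    ∀ ε : ℝ, 0 < ε → ∀ᶠ t : ℝ in atTop, ∀ σ : ℝ, 0 < σ → σ < 1 / 2 →
      |Real.log (X σ t) - (1 - 2 * σ) * (D * Real.log t + κ)| ≤ ε

/-- the factor `(1 - exp (-(2π/τ)(s - 1/2 - ia)))^n` for `x = (n, a, τ)`, `τ > 0` -/
noncomputable def apf (x : ℤ × ℝ × ℝ) (s : ℂ) : ℂ := by
  classical exact if x.2.2 = 0 then 1 else
    (1 - exp (-((2 * Real.pi / x.2.2 : ℝ) : ℂ) * (s - 1 / 2 - x.2.1 * I))) ^ x.1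

/-- the product of the factors of a list -/
noncomputable def apl (l : List (ℤ × ℝ × ℝ)) (s : ℂ) : ℂ := (l.map (fun x => apf x s)).prod

/-- `φ` is continuous, bounded by `B`, and its mean value against `exp(iλt)` is `m` -/
structure HasMean (φ : ℝ → ℝ) (lam : ℝ) (m : ℂ) (B : ℝ) : Prop where
  cont : Continuous φ
  bound : ∀ t, |φ t| ≤ B
  mean : Tendsto (fun T : ℝ => (1 / T : ℂ) * ∫ t in T..2 * T, (φ t : ℂ) * exp (lam * t * I)) atTop
    (𝓝 m)

/-- the mean value of `log |apl l (σ + it)|` against `exp(iλt)` is `-(1/2) exp(-λ(σ - 1/2))` times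
this number, for `σ > 1/2` -/
noncomputable def apm (l : List (ℤ × ℝ × ℝ)) (lam : ℝ) : ℂ := by
  classical exact (l.map (fun x => if 0 < x.2.2 ∧ ∃ j : ℕ, 0 < j ∧ lam = j * (2 * Real.pi / x.2.2)
    then (x.1 : ℂ) * ((2 * Real.pi / x.2.2 / lam : ℝ) : ℂ) * exp (lam * x.2.1 * I) else 0)).sum

/-- the coefficient of the log series at the frequency `λ` -/
noncomputable def lcf (p q : ℕ → ℝ) (lam : ℝ) : ℝ := by
  classical exact if h : ∃ n : ℕ, 2 ≤ n ∧ lam = Real.log n then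
    (q h.choose - p h.choose) / Real.log h.choose else 0

end Pool.Agent.PrimesOnly
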