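import Pool.Agent.PrimesOnly.Targets

/-!
# FIN: recurrence of trigonometric polynomials
-/

set_option autoImplicit false

namespace Pool.Agent.PrimesOnly

open Complex Filter Topology Set MeasureTheory

theorem FIN_rec {ι : Type} [Fintype ι] (c z : ι → ℂ) (hz : ∀ i, ‖z i‖ = 1)
    (h : Tendsto (fun j : ℕ => ∑ i, c i * z i ^ j) atTop (𝓝 0)) : ∑ i, c i = 0 := by
  obtain ⟨w, _, φ, hφ, hw⟩ := (isCompact_closedBall (0 : ι → ℂ) 1).tendsto_subseq
    (x := fun j : ℕ => fun i => z i ^ j) (fun j => by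
      rw [mem_closedBall_zero_iff, pi_norm_le_iff_of_nonneg zero_le_one]
      intro i
      rw [norm_pow, hz, one_pow])
  have hwi : ∀ i, Tendsto (fun k => z i ^ φ k) atTop (𝓝 (w i)) := fun i =>
    (tendsto_pi_nhds.1 hw) i
  have hw1 : ∀ i, w i ≠ 0 := by
    intro i h0
    have h1 := (hwi i).norm
    simp only [norm_pow, hz, one_pow] at h1
    have := tendsto_nhds_unique h1 tendsto_const_nhds
    rw [h0, norm_zero] at this
    norm_num at this
  have hz0 : ∀ i, z i ≠ 0 := by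
    intro i h0
    have := hz i
    rw [h0, norm_zero] at this
    norm_num at this
  have h2 : ∀ k, k + φ k ≤ φ (k + k) := fun k => hφ.add_le_nat k k
  obtain ⟨d, hd⟩ : ∃ d : ℕ → ℕ, ∀ k, φ (k + k) = d k + φ k :=
    ⟨fun k => φ (k + k) - φ k, fun k => (Nat.sub_add_cancel (by
      have := h2 k
      omega)).symm⟩
  have hdt : Tendsto d atTop atTop := by
    refine tendsto_atTop_mono (fun k => ?_) tendsto_id
    have h3 := h2 k
    have h4 := hd k
    simp only [id]
    omega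
  have hkk : Tendsto (fun k : ℕ => k + k) atTop atTop :=
    tendsto_atTop_mono (fun k => by simp only [id]; omega) tendsto_id
  have hone : ∀ i, Tendsto (fun k => z i ^ d k) atTop (𝓝 1) := by
    intro i
    have h3 : Tendsto (fun k => z i ^ φ (k + k) / z i ^ φ k) atTop (𝓝 (w i / w i)) :=
      ((hwi i).comp hkk).div (hwi i) (hw1 i)
    rw [div_self (hw1 i)] at h3
    refine h3.congr fun k => ?_
    rw [hd, pow_add, mul_div_assoc, div_self (pow_ne_zero _ (hz0 i)), mul_one]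
  have h3 : Tendsto (fun k => ∑ i, c i * z i ^ d k) atTop (𝓝 (∑ i, c i * 1)) :=
    tendsto_finsetSum _ fun i _ => (hone i).const_mul (c i)
  have h4 := tendsto_nhds_unique h3 (h.comp hdt)
  simpa using h4

/-- the frequency `lam` occurs in the factor `x` -/
def FIN_cond (x : ℤ × ℝ × ℝ) (lam : ℝ) : Prop :=
  0 < x.2.2 ∧ ∃ j : ℕ, 0 < j ∧ lam = j * (2 * Real.pi / x.2.2)

theorem FIN_per1 (y : ℝ) (hy : 0 < y) (x : ℤ × ℝ × ℝ) :
    ∃ N : ℕ, 1 ≤ N ∧ ∀ j : ℕ, FIN_cond x ((1 + N * j) * y) ↔ FIN_cond x y := by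
  by_cases hτ : 0 < x.2.2
  · obtain ⟨om, hom⟩ : ∃ om : ℝ, om = 2 * Real.pi / x.2.2 := ⟨_, rfl⟩
    have hom0 : 0 < om := by
      rw [hom]
      have := Real.pi_pos
      positivity
    unfold FIN_cond
    rw [← hom]
    by_cases h : ∃ m : ℕ, 1 ≤ m ∧ ∃ i : ℕ, (m : ℝ) * y = i * om
    · obtain ⟨m, hm, i, hi⟩ := h
      refine ⟨m, hm, fun j => ⟨?_, ?_⟩⟩
      · rintro ⟨_, a, ha, e⟩
        have e1 : y = ((a : ℝ) - (j * i : ℕ)) * om := by
          push_cast
          linear_combination e - j * hi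
        have e2 : j * i < a := by
          have h1 : 0 < ((a : ℝ) - (j * i : ℕ)) * om := by rw [← e1]; exact hy
          have h2 := pos_of_mul_pos_left h1 hom0.le
          have h3 : ((j * i : ℕ) : ℝ) < a := by linarith
          exact_mod_cast h3
        refine ⟨hτ, a - j * i, by omega, ?_⟩
        rw [Nat.cast_sub e2.le]
        exact e1
      · rintro ⟨_, a, ha, e⟩
        refine ⟨hτ, a + j * i, by omega, ?_⟩
        push_cast
        linear_combination e + j * hi
    · refine ⟨1, le_rfl, fun j => ⟨?_, ?_⟩⟩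
      · rintro ⟨_, a, ha, e⟩
        refine absurd ⟨1 + j, by omega, a, ?_⟩ h
        push_cast at e ⊢
        linear_combination e
      · rintro ⟨_, a, ha, e⟩
        refine absurd ⟨1, le_rfl, a, ?_⟩ h
        push_cast
        linear_combination e
  · exact ⟨1, le_rfl, fun j => ⟨fun h => absurd h.1 hτ, fun h => absurd h.1 hτ⟩⟩

theorem FIN_per (y : ℝ) (hy : 0 < y) (l : List (ℤ × ℝ × ℝ)) :
    ∃ N : ℕ, 1 ≤ N ∧ ∀ x ∈ l, ∀ j : ℕ, FIN_cond x ((1 + N * j) * y) ↔ FIN_cond x y := by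
  induction l with
  | nil => exact ⟨1, le_rfl, fun x hx => by simp at hx⟩
  | cons x l ih =>
    obtain ⟨N₁, h1, h2⟩ := ih
    obtain ⟨N₂, h3, h4⟩ := FIN_per1 y hy x
    refine ⟨N₁ * N₂, Nat.mul_pos h1 h3, fun x' hx' j => ?_⟩
    rcases List.mem_cons.1 hx' with rfl | hx'
    · have := h4 (N₁ * j)
      have e : (1 + ((N₁ * N₂ : ℕ) : ℝ) * j) = 1 + (N₂ : ℝ) * ((N₁ * j : ℕ) : ℝ) := by
        push_cast
        ring
      rw [e]
      exact this
    · have := h2 x' hx' (N₂ * j)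
      have e : (1 + ((N₁ * N₂ : ℕ) : ℝ) * j) = 1 + (N₁ : ℝ) * ((N₂ * j : ℕ) : ℝ) := by
        push_cast
        ring
      rw [e]
      exact this

/-- the term of a factor -/
noncomputable def FIN_g (x : ℤ × ℝ × ℝ) (lam : ℝ) : ℂ := by
  classical exact if FIN_cond x lam then
    (x.1 : ℂ) * ((2 * Real.pi / x.2.2 : ℝ) : ℂ) * exp (lam * x.2.1 * I) else 0

theorem FIN_mul (l : List (ℤ × ℝ × ℝ)) (lam : ℝ) (h0 : lam ≠ 0) :
    (lam : ℂ) * apm l lam = (l.map fun x => FIN_g x lam).sum := by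
  unfold apm
  rw [← List.sum_map_mul_left]
  congr 1
  apply List.map_congr_left
  intro x _
  unfold FIN_g FIN_cond
  by_cases h : 0 < x.2.2 ∧ ∃ j : ℕ, 0 < j ∧ lam = j * (2 * Real.pi / x.2.2)
  · rw [if_pos h, if_pos h]
    have h1 : (lam : ℂ) * ((2 * Real.pi / x.2.2 / lam : ℝ) : ℂ) =
        ((2 * Real.pi / x.2.2 : ℝ) : ℂ) := by
      rw [← Complex.ofReal_mul]
      congr 1
      field_simp
    rw [← h1]
    ring
  · rw [if_neg h, if_neg h, mul_zero]

theorem FIN_bound {p q : ℕ → ℝ} (l : List (ℤ × ℝ × ℝ))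
    (hrel : ∀ lam : ℝ, 0 < lam → (lcf p q lam : ℂ) = exp ((lam / 2 : ℝ) : ℂ) * apm l lam)
    {θ C : ℝ} (hC : ∀ n : ℕ, 2 ≤ n → |q n - p n| ≤ C * (n : ℝ) ^ θ) (lam : ℝ) (hl : 0 < lam) :
    ‖(lam : ℂ) * apm l lam‖ ≤ |C| * Real.exp ((θ - 1 / 2) * lam) := by
  have h1 : apm l lam = exp ((-(lam / 2) : ℝ) : ℂ) * (lcf p q lam : ℂ) := by
    rw [hrel lam hl, ← mul_assoc, ← Complex.exp_add, ← Complex.ofReal_add, neg_add_cancel,
      Complex.ofReal_zero, Complex.exp_zero, one_mul]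
  rw [h1, norm_mul, norm_mul, Complex.norm_exp_ofReal, Complex.norm_real, Complex.norm_real,
    Real.norm_of_nonneg hl.le, Real.norm_eq_abs]
  unfold lcf
  by_cases h : ∃ n : ℕ, 2 ≤ n ∧ lam = Real.log n
  · rw [dif_pos h]
    obtain ⟨m, hm⟩ : ∃ m : ℕ, m = h.choose := ⟨_, rfl⟩
    obtain ⟨hm2, hlm⟩ := h.choose_spec
    rw [← hm] at hm2 hlm ⊢
    have hm0 : (0 : ℝ) < m := by exact_mod_cast (by omega : 0 < m)
    rw [← hlm, abs_div, abs_of_pos hl]
    have h2 := hC m hm2
    have h3 : (m : ℝ) ^ θ = Real.exp (θ * lam) := by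
      rw [Real.rpow_def_of_pos hm0, ← hlm, mul_comm]
    have h4 : |q m - p m| ≤ |C| * Real.exp (θ * lam) := by
      rw [← h3]
      exact h2.trans (mul_le_mul_of_nonneg_right (le_abs_self C) (by positivity))
    have h5 : Real.exp ((θ - 1 / 2) * lam) = Real.exp (-(lam / 2)) * Real.exp (θ * lam) := by
      rw [← Real.exp_add]
      congr 1
      ring
    rw [h5]
    calc lam * (Real.exp (-(lam / 2)) * (|q m - p m| / lam))
        = Real.exp (-(lam / 2)) * |q m - p m| := by field_simp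
      _ ≤ Real.exp (-(lam / 2)) * (|C| * Real.exp (θ * lam)) :=
          mul_le_mul_of_nonneg_left h4 (Real.exp_pos _).le
      _ = |C| * (Real.exp (-(lam / 2)) * Real.exp (θ * lam)) := by ring
  · rw [dif_neg h, abs_zero, mul_zero, mul_zero]
    positivity

theorem p_FIN : T_FIN := by
  intro p q l _ hrel θ C hθ hC
  have key : ∀ y : ℝ, 0 < y → apm l y = 0 := by
    intro y hy
    obtain ⟨N, hN, hper⟩ := FIN_per y hy l
    obtain ⟨c, hc⟩ : ∃ c : Fin l.length → ℂ, ∀ i, c i = FIN_g (l.get i) y := ⟨_, fun _ => rfl⟩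
    obtain ⟨z, hz⟩ : ∃ z : Fin l.length → ℂ, ∀ i, z i =
      exp (((N * y * (l.get i).2.1 : ℝ) : ℂ) * I) := ⟨_, fun _ => rfl⟩
    have hsum : ∀ f : ℤ × ℝ × ℝ → ℂ, (l.map f).sum = ∑ i : Fin l.length, f (l.get i) := by
      intro f
      conv_lhs => rw [← List.ofFn_get l, List.map_ofFn, List.sum_ofFn]
      rfl
    have hF : ∀ j : ℕ, (((1 + N * j) * y : ℝ) : ℂ) * apm l ((1 + N * j) * y) =
        ∑ i, c i * z i ^ j := by
      intro j
      have h0 : (1 + (N : ℝ) * j) * y ≠ 0 := by positivity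
      rw [FIN_mul l _ h0, hsum]
      refine Finset.sum_congr rfl fun i _ => ?_
      rw [hc, hz]
      unfold FIN_g
      have h1 := hper (l.get i) (l.get_mem i) j
      by_cases h2 : FIN_cond (l.get i) y
      · rw [if_pos h2, if_pos (h1.2 h2), mul_assoc _ _ (exp _ ^ j), ← Complex.exp_nat_mul,
          ← Complex.exp_add]
        congr 2
        push_cast
        ring
      · rw [if_neg h2, if_neg fun h3 => h2 (h1.1 h3), zero_mul]
    have hlim : Tendsto (fun j : ℕ => ∑ i, c i * z i ^ j) atTop (𝓝 0) := by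
      have h1 : Tendsto (fun j : ℕ => (1 + (N : ℝ) * j) * y) atTop atTop := by
        refine Tendsto.atTop_mul_const hy ?_
        refine tendsto_atTop_add_const_left _ _ ?_
        exact Tendsto.const_mul_atTop (by exact_mod_cast hN) tendsto_natCast_atTop_atTop
      have h2 : Tendsto (fun j : ℕ => |C| * Real.exp ((θ - 1 / 2) * ((1 + (N : ℝ) * j) * y)))
          atTop (𝓝 (|C| * 0)) := by
        refine Tendsto.const_mul _ (Real.tendsto_exp_atBot.comp ?_)
        exact Tendsto.const_mul_atTop_of_neg (by linarith) h1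
      rw [mul_zero] at h2
      refine squeeze_zero_norm (fun j => ?_) h2
      rw [← hF j]
      exact FIN_bound l hrel hC _ (by positivity)
    have h3 := FIN_rec c z (fun i => by rw [hz, Complex.norm_exp_ofReal_mul_I]) hlim
    have h4 := hF 0
    simp only [pow_zero, mul_one, h3, Nat.cast_zero, mul_zero, add_zero, one_mul] at h4
    rcases mul_eq_zero.1 h4 with h5 | h5
    · exact absurd (Complex.ofReal_eq_zero.1 h5) hy.ne'
    · exact h5
  intro n hn
  have hlog : 0 < Real.log n := Real.log_pos (by exact_mod_cast (by omega : 1 < n))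
  have h1 := hrel (Real.log n) hlog
  rw [key _ hlog, mul_zero] at h1
  have h2 : lcf p q (Real.log n) = 0 := by exact_mod_cast h1
  have hex : ∃ m : ℕ, 2 ≤ m ∧ Real.log n = Real.log m := ⟨n, hn, rfl⟩
  unfold lcf at h2
  rw [dif_pos hex] at h2
  obtain ⟨hm2, hlm⟩ := hex.choose_spec
  have hmn : hex.choose = n := by
    have h3 := Real.log_injOn_pos
      (show (0 : ℝ) < n by exact_mod_cast (by omega : 0 < n))
      (show (0 : ℝ) < hex.choose by exact_mod_cast (by omega : 0 < hex.choose)) hlm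
    exact_mod_cast h3.symm
  rw [hmn] at h2
  rcases div_eq_zero_iff.1 h2 with h3 | h3
  · linarith
  · exact absurd h3 hlog.ne'

end Pool.Agent.PrimesOnly
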