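import Pool.Agent.PrimesOnly.Targets

/-! Logarithmic bound for the series of `log R/P` (block LB). -/

set_option autoImplicit false

namespace Pool.Agent.PrimesOnly

open Complex Filter Topology Set MeasureTheory Pool.Agent.SelPole Pool.Agent.CohenPD

/-- the dyadic argument -/
lemma LB_dyadic (B : ℝ → ℝ) (C : ℝ) (hC : 0 ≤ C) (hB0 : 0 ≤ B (1 / 2))
    (hmono : ∀ h h' : ℝ, 0 < h → h ≤ h' → B h' ≤ B h)
    (hstep : ∀ h : ℝ, 0 < h → h ≤ 1 / 2 → B h ≤ B (2 * h) + C) (h : ℝ) (h0 : 0 < h)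
    (h1 : h ≤ 1 / 2) : B h ≤ (B (1 / 2) + 2 * C) * (1 + Real.log (1 / h)) := by
  have key : ∀ k : ℕ, ∀ h : ℝ, 0 < h → h ≤ 1 / 2 → 1 / 2 ≤ 2 ^ k * h →
      B h ≤ B (1 / 2) + k * C := by
    intro k
    induction k with
    | zero =>
      intro h h0 h1 h2
      have : h = 1 / 2 := le_antisymm h1 (by simpa using h2)
      rw [this]; simp
    | succ k ih =>
      intro h h0 h1 h2
      have h3 := hstep h h0 h1
      have h4 : B (2 * h) ≤ B (1 / 2) + k * C := by
        rcases le_or_gt (2 * h) (1 / 2) with h5 | h5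
        · apply ih (2 * h) (by linarith) h5
          calc (1 / 2 : ℝ) ≤ 2 ^ (k + 1) * h := h2
            _ = 2 ^ k * (2 * h) := by rw [pow_succ]; ring
        · have := hmono (1 / 2) (2 * h) (by norm_num) h5.le
          have : 0 ≤ (k : ℝ) * C := by positivity
          linarith
      push_cast
      linarith
  have hx : (1 : ℝ) ≤ 1 / (2 * h) := by
    rw [le_div_iff₀ (by positivity)]; linarith
  obtain ⟨j, hj1, hj2⟩ := exists_nat_pow_near hx (one_lt_two : (1 : ℝ) < 2)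
  have h2 := key (j + 1) h h0 h1 (by
    rw [div_lt_iff₀ (by positivity)] at hj2
    linarith)
  have hlog0 : 0 ≤ Real.log (1 / h) := by
    apply Real.log_nonneg
    rw [le_div_iff₀ h0]; linarith
  have hj3 : (j : ℝ) ≤ 2 * Real.log (1 / h) := by
    have h3 : Real.log ((2 : ℝ) ^ j) ≤ Real.log (1 / (2 * h)) := Real.log_le_log (by positivity) hj1
    rw [Real.log_pow] at h3
    have h4 : Real.log (1 / (2 * h)) ≤ Real.log (1 / h) := by
      apply Real.log_le_log (by positivity)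
      apply one_div_le_one_div_of_le h0
      linarith
    have h5 : (1 / 2 : ℝ) ≤ Real.log 2 := by
      have := Real.log_two_gt_d9
      linarith
    have h6 : (j : ℝ) * (1 / 2) ≤ j * Real.log 2 := mul_le_mul_of_nonneg_left h5 (by positivity)
    linarith
  have h3 : (j : ℝ) * C ≤ 2 * Real.log (1 / h) * C := mul_le_mul_of_nonneg_right hj3 hC
  have h4 : 0 ≤ B (1 / 2) * Real.log (1 / h) := mul_nonneg hB0 hlog0
  push_cast at h2
  nlinarith

lemma LB_term (g : ℕ → ℝ) (x : ℝ) (hx : 0 < x) (n : ℕ) :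
    LSeries.term (fun n => (g n : ℂ)) (x : ℂ) n = ((g n * (n : ℝ) ^ (-x) : ℝ) : ℂ) := by
  rcases eq_or_ne n 0 with rfl | hn
  · simp [LSeries.term_def, Real.zero_rpow (neg_ne_zero.2 hx.ne')]
  · rw [LSeries.term_def, if_neg hn, Real.rpow_neg (by positivity), Complex.ofReal_mul,
      Complex.ofReal_inv, Complex.ofReal_cpow (by positivity), Complex.ofReal_natCast, div_eq_mul_inv]

lemma LB_summable (g : ℕ → ℝ) (x : ℝ) (hx : 0 < x)
    (h : LSeriesSummable (fun n => (g n : ℂ)) (x : ℂ)) :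
    Summable (fun n : ℕ => g n * (n : ℝ) ^ (-x)) := by
  have h1 : Summable (fun n : ℕ => ((g n * (n : ℝ) ^ (-x) : ℝ) : ℂ)) := by
    refine h.congr fun n => ?_
    exact (LB_term g x hx n)
  exact Complex.summable_ofReal.1 h1

lemma LB_LSeries (g : ℕ → ℝ) (x : ℝ) (hx : 0 < x) :
    LSeries (fun n => (g n : ℂ)) (x : ℂ) = ((∑' n : ℕ, g n * (n : ℝ) ^ (-x) : ℝ) : ℂ) := by
  rw [LSeries, Complex.ofReal_tsum]
  exact tsum_congr fun n => LB_term g x hx n

lemma LB_limit (g : ℕ → ℝ) (L : ℂ)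
    (h : Tendsto (fun y : ℝ => (y : ℂ) * LSeries (fun n => (g n : ℂ)) (1 / 2 + y + (0 : ℝ) * I))
      (𝓝[>] 0) (𝓝 L)) : ∃ h₀ : ℝ, 0 < h₀ ∧ ∀ y : ℝ, 0 < y → y < h₀ →
        y * ∑' n : ℕ, g n * (n : ℝ) ^ (-(1 / 2 + y)) ≤ L.re + 1 := by
  have h1 := (Complex.continuous_re.tendsto L).comp h
  have h2 : ∀ᶠ y : ℝ in 𝓝[>] (0 : ℝ),
      ((y : ℂ) * LSeries (fun n => (g n : ℂ)) (1 / 2 + y + (0 : ℝ) * I)).re < L.re + 1 := by
    have h0 : L.re < L.re + 1 := by linarith
    exact h1.eventually (gt_mem_nhds h0)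
  obtain ⟨u, hu, hu2⟩ := mem_nhdsGT_iff_exists_Ioo_subset.1 h2
  refine ⟨u, hu, fun y hy hyu => ?_⟩
  have h3 : ((y : ℂ) * LSeries (fun n => (g n : ℂ)) (1 / 2 + y + (0 : ℝ) * I)).re < L.re + 1 :=
    hu2 ⟨hy, hyu⟩
  have e : (1 / 2 + (y : ℂ) + ((0 : ℝ) : ℂ) * I) = ((1 / 2 + y : ℝ) : ℂ) := by
    push_cast; ring
  rw [e, LB_LSeries g (1 / 2 + y) (by positivity), ← Complex.ofReal_mul, Complex.ofReal_re] at h3
  exact h3.le

lemma LB_sq_nonneg (n : ℕ) : 0 ≤ sq n := by
  unfold sq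
  split_ifs
  · exact mul_nonneg zero_le_two ArithmeticFunction.vonMangoldt_nonneg
  · exact le_rfl

lemma LB_rpow_anti (n : ℕ) {x y : ℝ} (hx : 0 < x) (hxy : x ≤ y) :
    (n : ℝ) ^ (-y) ≤ (n : ℝ) ^ (-x) := by
  rcases Nat.eq_zero_or_pos n with rfl | hn
  · simp [Real.zero_rpow (neg_ne_zero.2 hx.ne'), Real.zero_rpow (neg_ne_zero.2 (hx.trans_le hxy).ne')]
  · exact Real.rpow_le_rpow_of_exponent_le (by exact_mod_cast hn) (by linarith)

theorem p_LB (h1 : T_ABS) (h2 : T_LIM) (h3 : T_SQ) : T_LB := by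
  intro P R p q E σ₀ K hc
  have habs := h1 hc
  have hlim := h2 hc.hP hc.hR habs 0
  obtain ⟨hsq1, hsq2⟩ := h3
  have hsq3 := hsq2 0
  rw [if_pos rfl] at hsq3
  set e : ℕ → ℝ := fun n => q n - p n with he
  obtain ⟨u₁, hu1, hu1'⟩ := LB_limit e _ hlim
  obtain ⟨u₂, hu2, hu2'⟩ := LB_limit sq _ hsq3
  -- summability
  have hes : ∀ h : ℝ, 0 < h → Summable (fun n : ℕ => e n * (n : ℝ) ^ (-(1 / 2 + h))) := by
    intro h hh
    apply LB_summable e (1 / 2 + h) (by positivity)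
    apply LSeriesSummable_of_abscissaOfAbsConv_lt_re
    refine lt_of_le_of_lt habs ?_
    rw [Complex.ofReal_re]
    exact_mod_cast (by linarith : (1 / 2 : ℝ) < 1 / 2 + h)
  have has : ∀ h : ℝ, 0 < h → Summable (fun n : ℕ => |e n| * (n : ℝ) ^ (-(1 / 2 + h))) := by
    intro h hh
    refine (hes h hh).abs.congr fun n => ?_
    rw [abs_mul, abs_of_nonneg (Real.rpow_nonneg (Nat.cast_nonneg n) _)]
  have hqs : ∀ h : ℝ, 0 < h → Summable (fun n : ℕ => sq n * (n : ℝ) ^ (-(1 / 2 + h))) := by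
    intro h hh
    apply LB_summable sq (1 / 2 + h) (by positivity)
    apply hsq1
    rw [Complex.ofReal_re]; linarith
  -- the exceptional set
  obtain ⟨sE, hsE⟩ : ∃ s : ℕ → ℝ, s = fun n =>
      ‖LSeries.term (E.indicator (fun n => ((q n - p n : ℝ) : ℂ))) σ₀ n‖ := ⟨_, rfl⟩
  have hsEs : Summable sE := by rw [hsE]; exact hc.hE.norm
  have hsE0 : ∀ n, 0 ≤ sE n := by intro n; rw [hsE]; exact norm_nonneg _
  have hsEle : ∀ n ∈ E, ∀ h : ℝ, 0 < h → |e n| * (n : ℝ) ^ (-(1 / 2 + h)) ≤ sE n := by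
    intro n hn h hh
    rcases Nat.eq_zero_or_pos n with rfl | hn0
    · have : ((0 : ℕ) : ℝ) ^ (-(1 / 2 + h)) = 0 := by
        rw [Nat.cast_zero]
        exact Real.zero_rpow (by linarith)
      rw [this, mul_zero]; exact hsE0 0
    · have e1 : sE n = |e n| * (n : ℝ) ^ (-σ₀) := by
        rw [hsE]
        simp only
        rw [LSeries.norm_term_eq, if_neg hn0.ne', indicator_of_mem hn, Complex.norm_real,
          Real.norm_eq_abs, Complex.ofReal_re, Real.rpow_neg (by positivity), div_eq_mul_inv]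
      rw [e1]
      apply mul_le_mul_of_nonneg_left _ (abs_nonneg _)
      exact Real.rpow_le_rpow_of_exponent_le (by exact_mod_cast hn0) (by linarith [hc.hσ₀])
  -- the first bound
  obtain ⟨S, hS⟩ : ∃ S : ℝ → ℝ, S = fun h => ∑' n : ℕ, |e n| * (n : ℝ) ^ (-(1 / 2 + h)) :=
    ⟨_, rfl⟩
  have hS0 : ∀ h, 0 ≤ S h := by
    intro h; rw [hS]
    exact tsum_nonneg fun n => mul_nonneg (abs_nonneg _) (Real.rpow_nonneg (Nat.cast_nonneg n) _)
  have hSmono : ∀ h h' : ℝ, 0 < h → h ≤ h' → S h' ≤ S h := by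
    intro h h' hh hhh
    rw [hS]
    exact (has h' (hh.trans_le hhh)).tsum_le_tsum
      (fun n => mul_le_mul_of_nonneg_left (LB_rpow_anti n (by linarith) (by linarith))
        (abs_nonneg _)) (has h hh)
  have hSle : ∀ h : ℝ, 0 < h → S h ≤ (∑' n : ℕ, e n * (n : ℝ) ^ (-(1 / 2 + h))) +
      2 * K * (∑' n : ℕ, sq n * (n : ℝ) ^ (-(1 / 2 + h))) + 2 * ∑' n, sE n := by
    intro h hh
    have hq2 : Summable (fun n : ℕ => 2 * (K : ℝ) * (sq n * (n : ℝ) ^ (-(1 / 2 + h)))) :=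
      (hqs h hh).mul_left _
    rw [hS, ← tsum_mul_left, ← tsum_mul_left, ← (hes h hh).tsum_add hq2,
      ← ((hes h hh).add hq2).tsum_add (hsEs.mul_left 2)]
    refine (has h hh).tsum_le_tsum (fun n => ?_) (((hes h hh).add hq2).add (hsEs.mul_left 2))
    have hx : 0 ≤ (n : ℝ) ^ (-(1 / 2 + h)) := Real.rpow_nonneg (Nat.cast_nonneg n) _
    have hq := LB_sq_nonneg n
    have hqx : 0 ≤ 2 * (K : ℝ) * (sq n * (n : ℝ) ^ (-(1 / 2 + h))) := by positivity
    by_cases hn : n ∈ E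
    · have h4 := hsEle n hn h hh
      have h5 : -(|e n| * (n : ℝ) ^ (-(1 / 2 + h))) ≤ e n * (n : ℝ) ^ (-(1 / 2 + h)) := by
        have := mul_le_mul_of_nonneg_right (neg_abs_le (e n)) hx
        linarith
      linarith
    · have h4 := hc.hdom n hn
      have h5 : |e n| ≤ e n + 2 * K * sq n := by
        rw [he]
        have h6 : 0 ≤ (K : ℝ) * sq n := by positivity
        rcases abs_cases (q n - p n) with ⟨h7, h8⟩ | ⟨h7, h8⟩
        · rw [h7]; linarith
        · rw [h7]; linarith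
      have h6 := mul_le_mul_of_nonneg_right h5 hx
      have h7 := hsE0 n
      linarith
  -- bounded multiple
  obtain ⟨C, hC0, hC⟩ : ∃ C : ℝ, 0 ≤ C ∧ ∀ h : ℝ, 0 < h → h ≤ 1 / 2 → h * S h ≤ C := by
    set u : ℝ := min u₁ u₂ with hu
    have hu0 : 0 < u := lt_min hu1 hu2
    set C₁ : ℝ := (-(eo P R 0 : ℂ)).re + 1 + 2 * K * ((1 : ℂ).re + 1) + 2 * ∑' n, sE n with hC₁
    refine ⟨max C₁ (S (u / 2)), (hS0 _).trans (le_max_right _ _), fun h hh hh1 => ?_⟩
    rcases lt_or_ge h u with h4 | h4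
    · refine le_trans ?_ (le_max_left _ _)
      have h5 := mul_le_mul_of_nonneg_left (hSle h hh) hh.le
      have h6 := hu1' h hh (h4.trans_le (min_le_left _ _))
      have h7 := hu2' h hh (h4.trans_le (min_le_right _ _))
      have h8 : 0 ≤ ∑' n, sE n := tsum_nonneg hsE0
      have h9 : h * (2 * ∑' n, sE n) ≤ 2 * ∑' n, sE n :=
        mul_le_of_le_one_left (by positivity) (by linarith)
      have h10 := mul_le_mul_of_nonneg_left h7 (by positivity : (0 : ℝ) ≤ 2 * K)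
      rw [hC₁]
      nlinarith
    · refine le_trans ?_ (le_max_right _ _)
      have h5 := hSmono (u / 2) h (by positivity) (by linarith)
      have h6 := hS0 h
      have h7 : h * S h ≤ S h := mul_le_of_le_one_left h6 (by linarith)
      linarith
  -- the series with the logarithm
  obtain ⟨b, hb⟩ : ∃ b : ℝ → ℕ → ℝ, b = fun h n =>
    |e n| / Real.log n * (n : ℝ) ^ (-(1 / 2 + h)) := ⟨_, rfl⟩
  have hlog : ∀ n : ℕ, 0 ≤ Real.log n := fun n => Real.log_natCast_nonneg n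
  have hb0 : ∀ h n, 0 ≤ b h n := by
    intro h n; rw [hb]
    exact mul_nonneg (div_nonneg (abs_nonneg _) (hlog n))
      (Real.rpow_nonneg (Nat.cast_nonneg n) _)
  have hble : ∀ h n, b h n ≤ 2 * (|e n| * (n : ℝ) ^ (-(1 / 2 + h))) := by
    intro h n
    have hx : 0 ≤ (n : ℝ) ^ (-(1 / 2 + h)) := Real.rpow_nonneg (Nat.cast_nonneg n) _
    have h5 : |e n| / Real.log n ≤ 2 * |e n| := by
      rcases Nat.lt_or_ge n 2 with hn | hn
      · have : Real.log n = 0 := by
          interval_cases n <;> simp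
        rw [this, div_zero]; positivity
      · have h6 : (1 / 2 : ℝ) ≤ Real.log n := by
          have h7 : Real.log 2 ≤ Real.log n := Real.log_le_log (by norm_num) (by exact_mod_cast hn)
          have := Real.log_two_gt_d9
          linarith
        rw [div_le_iff₀ (by linarith)]
        have := mul_le_mul_of_nonneg_left h6 (abs_nonneg (e n))
        linarith
    rw [hb]
    have := mul_le_mul_of_nonneg_right h5 hx
    linarith
  have hbs : ∀ h : ℝ, 0 < h → Summable (b h) := fun h hh =>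
    Summable.of_nonneg_of_le (hb0 h) (hble h) ((has h hh).mul_left 2)
  obtain ⟨B, hB⟩ : ∃ B : ℝ → ℝ, B = fun h => ∑' n, b h n := ⟨_, rfl⟩
  have hBmono : ∀ h h' : ℝ, 0 < h → h ≤ h' → B h' ≤ B h := by
    intro h h' hh hhh
    rw [hB]
    refine (hbs h' (hh.trans_le hhh)).tsum_le_tsum (fun n => ?_) (hbs h hh)
    rw [hb]
    exact mul_le_mul_of_nonneg_left (LB_rpow_anti n (by linarith) (by linarith))
      (div_nonneg (abs_nonneg _) (hlog n))
  have hBstep : ∀ h : ℝ, 0 < h → h ≤ 1 / 2 → B h ≤ B (2 * h) + C := by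
    intro h hh hh1
    have h4 : B h ≤ B (2 * h) + h * S h := by
      rw [hB, hS]
      simp only
      rw [← tsum_mul_left, ← (hbs (2 * h) (by linarith)).tsum_add ((has h hh).mul_left h)]
      refine (hbs h hh).tsum_le_tsum (fun n => ?_)
        ((hbs (2 * h) (by linarith)).add ((has h hh).mul_left h))
      rw [hb]
      simp only
      rcases Nat.lt_or_ge n 2 with hn | hn
      · have h5 : Real.log n = 0 := by
          interval_cases n <;> simp
        have h6 : 0 ≤ (n : ℝ) ^ (-(1 / 2 + h)) := Real.rpow_nonneg (Nat.cast_nonneg n) _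
        rw [h5, div_zero, zero_mul, zero_mul, zero_add]
        positivity
      · have hn0 : (0 : ℝ) < n := by exact_mod_cast (by omega : 0 < n)
        have hl : 0 < Real.log n := Real.log_pos (by exact_mod_cast (by omega : 1 < n))
        have h5 : (n : ℝ) ^ (-(1 / 2 + 2 * h)) = (n : ℝ) ^ (-(1 / 2 + h)) * (n : ℝ) ^ (-h) := by
          rw [← Real.rpow_add hn0]; congr 1; ring
        have h6 : 1 - h * Real.log n ≤ (n : ℝ) ^ (-h) := by
          rw [Real.rpow_def_of_pos hn0]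
          have := Real.add_one_le_exp (Real.log n * -h)
          linarith
        have hx : 0 < (n : ℝ) ^ (-(1 / 2 + h)) := Real.rpow_pos_of_pos hn0 _
        rw [h5]
        have h7 : |e n| / Real.log n * (n : ℝ) ^ (-(1 / 2 + h)) * (1 - h * Real.log n) ≤
            |e n| / Real.log n * (n : ℝ) ^ (-(1 / 2 + h)) * (n : ℝ) ^ (-h) :=
          mul_le_mul_of_nonneg_left h6 (by positivity)
        have h8 : |e n| / Real.log n * (n : ℝ) ^ (-(1 / 2 + h)) * (1 - h * Real.log n) =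
            |e n| / Real.log n * (n : ℝ) ^ (-(1 / 2 + h)) -
              h * (|e n| * (n : ℝ) ^ (-(1 / 2 + h))) := by
          field_simp
        linarith
    linarith [hC h hh hh1]
  have hB0 : 0 ≤ B (1 / 2) := by rw [hB]; exact tsum_nonneg (hb0 _)
  refine ⟨B (1 / 2) + 2 * C, fun y hy hy1 => ?_⟩
  have hfun : (fun n : ℕ => |q n - p n| / Real.log n * (n : ℝ) ^ (-y)) = b (y - 1 / 2) := by
    rw [hb]
    funext n
    have : (1 / 2 + (y - 1 / 2) : ℝ) = y := by ring
    simp only [this, he]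
  rw [hfun]
  refine ⟨hbs _ (by linarith), ?_⟩
  have := LB_dyadic B C hC0 hB0 hBmono hBstep (y - 1 / 2) (by linarith) (by linarith)
  rw [hB] at this ⊢
  exact this

end Pool.Agent.PrimesOnly
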