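import Pool.Agent.PrimesOnly.Targets

/-! Mean values of the log series (block LHM). -/

set_option autoImplicit false

namespace Pool.Agent.PrimesOnly

open Complex Filter Topology Set MeasureTheory Pool.Agent.SelPole Pool.Agent.CohenPD
open scoped ComplexConjugate ArithmeticFunction.vonMangoldt

/-- the coefficients -/
noncomputable def LHM_d (p q : ℕ → ℝ) (σ : ℝ) (n : ℕ) : ℂ :=
  unlog (fun n => ((q n - p n : ℝ) : ℂ)) n * (((n : ℝ) ^ (-σ) : ℝ) : ℂ)

theorem LHM_norm (p q : ℕ → ℝ) (σ : ℝ) (n : ℕ) :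
    ‖LHM_d p q σ n‖ = |q n - p n| / Real.log n * (n : ℝ) ^ (-σ) := by
  rw [LHM_d, unlog, norm_mul, norm_div, Complex.norm_real, Complex.norm_real, Complex.norm_real,
    Real.norm_eq_abs, Real.norm_of_nonneg (Real.log_natCast_nonneg n),
    Real.norm_of_nonneg (Real.rpow_nonneg (Nat.cast_nonneg n) _)]

theorem LHM_term (p q : ℕ → ℝ) (σ t : ℝ) (n : ℕ) :
    LSeries.term (unlog (fun n => ((q n - p n : ℝ) : ℂ))) ((σ : ℂ) + t * I) n =
      LHM_d p q σ n * exp (-((Real.log n : ℝ) : ℂ) * t * I) := by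
  by_cases hn : n = 0
  · subst hn
    simp [LHM_d, unlog]
  · have hn' : (0 : ℝ) < n := by exact_mod_cast Nat.pos_of_ne_zero hn
    have hnc : (n : ℂ) ≠ 0 := by exact_mod_cast hn
    rw [LSeries.term_of_ne_zero hn, LHM_d, Complex.cpow_def_of_ne_zero hnc,
      Real.rpow_def_of_pos hn', div_eq_mul_inv, ← Complex.exp_neg, mul_assoc,
      Complex.ofReal_exp, ← Complex.exp_add, ← Complex.natCast_log]
    congr 2
    push_cast
    ring

theorem LHM_mean (p q : ℕ → ℝ) (σ : ℝ) {lam : ℝ} (hlam : 0 < lam) :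
    ∑' n : ℕ, (if Real.log n = lam then LHM_d p q σ n else 0) =
      (lcf p q lam : ℂ) * exp (-((lam * σ : ℝ) : ℂ)) := by
  classical
  have htwo : ∀ n : ℕ, Real.log n = lam → 2 ≤ n := by
    intro n hn
    by_contra h
    have : n = 0 ∨ n = 1 := by omega
    rcases this with h | h <;> · subst h; simp at hn; exact hlam.ne hn
  by_cases h : ∃ n : ℕ, 2 ≤ n ∧ lam = Real.log n
  · have hc := h.choose_spec
    set m := h.choose with hm
    have hm0 : (0 : ℝ) < m := by
      have : 0 < m := by omega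
      exact_mod_cast this
    rw [tsum_eq_single m]
    · rw [if_pos hc.2.symm, lcf, dif_pos h, ← hm, LHM_d, unlog, Real.rpow_def_of_pos hm0,
        ← hc.2, Complex.ofReal_exp]
      push_cast
      congr 2
      ring
    · intro n hn
      rw [if_neg]
      intro hln
      apply hn
      have h2 := htwo n hln
      have hn0 : (0 : ℝ) < n := by
        have : 0 < n := by omega
        exact_mod_cast this
      have := Real.log_injOn_pos (Set.mem_Ioi.2 hn0) (Set.mem_Ioi.2 hm0) (hln.trans hc.2)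
      exact_mod_cast this
  · have h0 : ∀ n : ℕ, (if Real.log n = lam then LHM_d p q σ n else 0) = 0 := by
      intro n
      rw [if_neg]
      intro hln
      exact h ⟨n, htwo n hln, hln.symm⟩
    simp only [h0, tsum_zero, lcf, dif_neg h]
    simp

theorem p_LHM (_h1 : T_ABS) (h2 : T_LB) (h3 : T_SER) : T_LHM := by
  intro P R p q E σ₀ K hC lam hlam
  obtain ⟨C, hCb⟩ := h2 hC
  refine ⟨C, fun σ hσ hσ1 => ?_⟩
  obtain ⟨hs, hb⟩ := hCb σ hσ hσ1
  have hsum : Summable (fun n => ‖LHM_d p q σ n‖) := by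
    simpa only [LHM_norm] using hs
  have h4 := h3 hsum (fun n => Real.log n) (fun n => Real.log_natCast_nonneg n) hlam
  rw [LHM_mean p q σ hlam, ← mul_assoc] at h4
  have h5 : (fun t : ℝ => (∑' n, LHM_d p q σ n * exp (-((Real.log n : ℝ) : ℂ) * t * I)).re) =
      fun t : ℝ =>
        (LSeries (unlog (fun n => ((q n - p n : ℝ) : ℂ))) ((σ : ℂ) + t * I)).re := by
    funext t
    rw [LSeries]
    simp only [LHM_term]
  rw [h5] at h4
  have h6 : ∑' n, ‖LHM_d p q σ n‖ ≤ C * (1 + Real.log (1 / (σ - 1 / 2))) := by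
    simpa only [LHM_norm] using hb
  exact ⟨h4.cont, fun t => (h4.bound t).trans h6, h4.mean⟩

end Pool.Agent.PrimesOnly
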