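import Pool.Agent.PrimesOnly.Targets

/-! The mean value of the logarithm (PRO-MLOG). -/

namespace Pool.Agent.PrimesOnly

open Complex Filter Topology Set MeasureTheory

/-- integration by parts -/
theorem MLOG_bound {lam : ℝ} (hlam : 0 < lam) {T η : ℝ} (hT : 2 ≤ T) (hη : |η| ≤ 1) :
    ‖∫ t in T..2 * T, (Real.log (t + η) : ℂ) * exp (lam * t * I)‖ ≤
      (2 * Real.log (2 * T + 1) + 2) / lam := by
  have hη1 := (abs_le.mp hη).1
  have hη2 := (abs_le.mp hη).2
  have hTT : T ≤ 2 * T := by linarith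
  have hI : (lam : ℂ) * I ≠ 0 := mul_ne_zero (by exact_mod_cast hlam.ne') I_ne_zero
  have hpos : ∀ t ∈ uIcc T (2 * T), 0 < t + η := by
    intro t ht
    rw [uIcc_of_le hTT] at ht
    linarith [ht.1]
  have hu : ∀ t ∈ uIcc T (2 * T), HasDerivAt (fun t : ℝ => (Real.log (t + η) : ℂ))
      (((t + η)⁻¹ : ℝ) : ℂ) t := by
    intro t ht
    have h1 : HasDerivAt (fun t : ℝ => Real.log (t + η)) ((t + η)⁻¹) t := by
      have := ((hasDerivAt_id t).add_const η).log (hpos t ht).ne'
      simpa using this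
    exact h1.ofReal_comp
  have hv : ∀ t ∈ uIcc T (2 * T), HasDerivAt (fun t : ℝ => exp (lam * t * I) / (lam * I))
      (exp (lam * t * I)) t := by
    intro t _
    have h1 : HasDerivAt (fun t : ℝ => (lam : ℂ) * (t : ℂ) * I) (lam * I) t := by
      have h2 : HasDerivAt (fun t : ℝ => (t : ℂ)) 1 t := Complex.ofRealCLM.hasDerivAt
      have h3 := (h2.const_mul (lam : ℂ)).mul_const I
      simpa using h3
    have h4 := (h1.cexp).div_const ((lam : ℂ) * I)
    have e : exp (lam * t * I) * (lam * I) / (lam * I) = exp (lam * t * I) := by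
      rw [mul_div_assoc, div_self hI, mul_one]
    rwa [e] at h4
  have hcv : Continuous (fun t : ℝ => exp ((lam : ℂ) * t * I)) := by fun_prop
  have hcu : ContinuousOn (fun t : ℝ => (((t + η)⁻¹ : ℝ) : ℂ)) (uIcc T (2 * T)) := by
    refine Complex.continuous_ofReal.comp_continuousOn ?_
    refine ContinuousOn.inv₀ (by fun_prop) ?_
    intro t ht
    exact (hpos t ht).ne'
  rw [intervalIntegral.integral_mul_deriv_eq_deriv_mul hu hv hcu.intervalIntegrable
    (hcv.intervalIntegrable _ _)]
  have hn : ∀ t : ℝ, ‖exp ((lam : ℂ) * t * I) / (lam * I)‖ = 1 / lam := by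
    intro t
    rw [norm_div]
    have h1 : (lam : ℂ) * t * I = ((lam * t : ℝ) : ℂ) * I := by push_cast; ring
    rw [h1, Complex.norm_exp_ofReal_mul_I, norm_mul, Complex.norm_I, mul_one, Complex.norm_real,
      Real.norm_eq_abs, abs_of_pos hlam]
  have hlog : ∀ s : ℝ, 2 ≤ s → s ≤ 2 * T → |Real.log (s + η)| ≤ Real.log (2 * T + 1) := by
    intro s hs hs2
    rw [abs_of_nonneg (Real.log_nonneg (by linarith))]
    exact Real.log_le_log (by linarith) (by linarith)
  have hb : ∀ s : ℝ, 2 ≤ s → s ≤ 2 * T →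
      ‖(Real.log (s + η) : ℂ) * (exp ((lam : ℂ) * s * I) / (lam * I))‖ ≤
        Real.log (2 * T + 1) / lam := by
    intro s hs hs2
    rw [norm_mul, hn, Complex.norm_real, Real.norm_eq_abs, mul_one_div]
    exact div_le_div_of_nonneg_right (hlog s hs hs2) hlam.le
  have h3 : ‖∫ t in T..2 * T, (((t + η)⁻¹ : ℝ) : ℂ) * (exp (lam * t * I) / (lam * I))‖ ≤
      2 / lam := by
    have h4 : ∀ t ∈ uIoc T (2 * T), ‖(((t + η)⁻¹ : ℝ) : ℂ) * (exp (lam * t * I) / (lam * I))‖ ≤
        (T - 1)⁻¹ * (1 / lam) := by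
      intro t ht
      rw [uIoc_of_le hTT] at ht
      rw [norm_mul, hn, Complex.norm_real, Real.norm_eq_abs]
      have h5 : 0 < T - 1 := by linarith
      have h6 : T - 1 ≤ t + η := by linarith [ht.1]
      rw [abs_of_pos (inv_pos.mpr (by linarith))]
      exact mul_le_mul_of_nonneg_right (inv_anti₀ h5 h6) (by positivity)
    have h7 := intervalIntegral.norm_integral_le_of_norm_le_const h4
    refine h7.trans ?_
    have h8 : |2 * T - T| = T := by
      rw [abs_of_nonneg (by linarith)]; ring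
    rw [h8]
    have h9 : (T - 1)⁻¹ * T ≤ 2 := by
      rw [inv_mul_eq_div, div_le_iff₀ (by linarith)]
      linarith
    calc (T - 1)⁻¹ * (1 / lam) * T = (T - 1)⁻¹ * T * (1 / lam) := by ring
      _ ≤ 2 * (1 / lam) := mul_le_mul_of_nonneg_right h9 (by positivity)
      _ = 2 / lam := by ring
  refine (norm_sub_le _ _).trans ?_
  have h5 := norm_sub_le
    ((Real.log (2 * T + η) : ℂ) * (exp ((lam : ℂ) * (2 * T : ℝ) * I) / (lam * I)))
    ((Real.log (T + η) : ℂ) * (exp ((lam : ℂ) * T * I) / (lam * I)))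
  have h6 := hb (2 * T) (by linarith) le_rfl
  have h7 := hb T hT hTT
  have h8 : (2 * Real.log (2 * T + 1) + 2) / lam =
      Real.log (2 * T + 1) / lam + Real.log (2 * T + 1) / lam + 2 / lam := by ring
  rw [h8]
  refine add_le_add ?_ h3
  exact h5.trans (add_le_add h6 h7)

theorem p_MLOG : T_MLOG := by
  intro lam hlam ε hε
  have hlim : Tendsto (fun T : ℝ => (2 * Real.log (2 * T + 1) + 2) / lam / T) atTop (𝓝 0) := by
    have h1 : Tendsto (fun T : ℝ => Real.log (2 * T + 1) / (2 * T + 1)) atTop (𝓝 0) := by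
      have h2 : Tendsto (fun x : ℝ => Real.log x / x) atTop (𝓝 0) := by
        have := Real.isLittleO_log_id_atTop.tendsto_div_nhds_zero
        simpa using this
      refine h2.comp ?_
      exact tendsto_atTop_add_const_right _ _ (tendsto_id.const_mul_atTop (by norm_num))
    have h3 : Tendsto (fun T : ℝ => (2 * T + 1) / T) atTop (𝓝 2) := by
      have h4 : Tendsto (fun T : ℝ => 2 + T⁻¹) atTop (𝓝 (2 + 0)) :=
        tendsto_const_nhds.add tendsto_inv_atTop_zero
      rw [add_zero] at h4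
      refine h4.congr' ?_
      filter_upwards [eventually_gt_atTop 0] with T hT
      field_simp
    have h5 : Tendsto (fun T : ℝ => T⁻¹) atTop (𝓝 0) := tendsto_inv_atTop_zero
    have h6 : Tendsto (fun T : ℝ => 2 / lam * (Real.log (2 * T + 1) / (2 * T + 1) *
        ((2 * T + 1) / T)) + 2 / lam * T⁻¹) atTop (𝓝 (2 / lam * (0 * 2) + 2 / lam * 0)) :=
      ((h1.mul h3).const_mul _).add (h5.const_mul _)
    rw [zero_mul, mul_zero, add_zero] at h6
    refine h6.congr' ?_
    filter_upwards [eventually_gt_atTop 0] with T hT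
    have : (2 * T + 1 : ℝ) ≠ 0 := by positivity
    field_simp
  filter_upwards [hlim.eventually (eventually_le_nhds hε), eventually_ge_atTop 2] with T h1 hT
  intro η hη
  have hT0 : 0 < T := by linarith
  rw [norm_mul, norm_div, norm_one, Complex.norm_real, Real.norm_eq_abs, abs_of_pos hT0]
  refine le_trans ?_ h1
  rw [one_div, inv_mul_eq_div]
  exact div_le_div_of_nonneg_right (MLOG_bound hlam hT hη) hT0.le

end Pool.Agent.PrimesOnly
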