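import Pool.Agent.PrimesOnly.Targets

/-! Operations on mean values (PRO-MOPS). -/

namespace Pool.Agent.PrimesOnly

open Complex Filter Topology Set MeasureTheory

theorem MOPS_cexp (lam : ℝ) : Continuous (fun t : ℝ => exp ((lam : ℂ) * t * I)) := by fun_prop

theorem MOPS_norm (lam t : ℝ) : ‖exp ((lam : ℂ) * t * I)‖ = 1 := by
  have h1 : (lam : ℂ) * t * I = ((lam * t : ℝ) : ℂ) * I := by push_cast; ring
  rw [h1, Complex.norm_exp_ofReal_mul_I]

theorem MOPS_int {φ : ℝ → ℝ} (h : Continuous φ) (lam a b : ℝ) :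
    IntervalIntegrable (fun t : ℝ => (φ t : ℂ) * exp ((lam : ℂ) * t * I)) volume a b :=
  ((Complex.continuous_ofReal.comp h).mul (MOPS_cexp lam)).intervalIntegrable _ _

theorem MOPS_add {φ ψ : ℝ → ℝ} {lam B B' : ℝ} {m m' : ℂ} (h : HasMean φ lam m B)
    (h' : HasMean ψ lam m' B') : HasMean (fun t => φ t + ψ t) lam (m + m') (B + B') := by
  refine ⟨h.cont.add h'.cont, fun t => (abs_add_le _ _).trans (add_le_add (h.bound t)
    (h'.bound t)), ?_⟩
  refine (h.mean.add h'.mean).congr fun T => ?_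
  rw [← mul_add, ← intervalIntegral.integral_add (MOPS_int h.cont lam _ _)
    (MOPS_int h'.cont lam _ _)]
  congr 2
  ext t
  push_cast
  ring

theorem MOPS_mul {φ : ℝ → ℝ} {lam B : ℝ} {m : ℂ} (h : HasMean φ lam m B) (a : ℝ) :
    HasMean (fun t => a * φ t) lam (a * m) (|a| * B) := by
  refine ⟨continuous_const.mul h.cont, fun t => ?_, ?_⟩
  · rw [abs_mul]
    exact mul_le_mul_of_nonneg_left (h.bound t) (abs_nonneg a)
  · refine (h.mean.const_mul (a : ℂ)).congr fun T => ?_
    rw [mul_left_comm, ← intervalIntegral.integral_const_mul]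
    congr 2
    ext t
    push_cast
    ring

theorem MOPS_const (a : ℝ) {lam : ℝ} (hlam : 0 < lam) : HasMean (fun _ => a) lam 0 |a| := by
  refine ⟨continuous_const, fun _ => le_rfl, ?_⟩
  have h1 := (Pool.Agent.SelPole.avg_tendsto hlam.ne').const_mul (a : ℂ)
  rw [mul_zero] at h1
  refine h1.congr fun T => ?_
  rw [Pool.Agent.SelPole.avg, mul_left_comm, ← intervalIntegral.integral_const_mul]

theorem MOPS_shift {φ : ℝ → ℝ} {lam B : ℝ} {m : ℂ} (h : HasMean φ lam m B) (η : ℝ) :
    Tendsto (fun T : ℝ => (1 / T : ℂ) * ∫ t in T..2 * T, (φ (t + η) : ℂ) * exp (lam * t * I)) atTop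
    (𝓝 (exp (-((lam * η : ℝ) : ℂ) * I) * m)) := by
  set g : ℝ → ℂ := fun t => (φ t : ℂ) * exp ((lam : ℂ) * t * I) with hg
  have hgi : ∀ a b : ℝ, IntervalIntegrable g volume a b := fun a b => MOPS_int h.cont lam a b
  have hgb : ∀ t, ‖g t‖ ≤ B := by
    intro t
    simp only [hg]
    rw [norm_mul, MOPS_norm, mul_one, Complex.norm_real, Real.norm_eq_abs]
    exact h.bound t
  have hB : 0 ≤ B := (norm_nonneg _).trans (hgb 0)
  -- substitution
  have hsub : ∀ T : ℝ, ∫ t in T..2 * T, (φ (t + η) : ℂ) * exp ((lam : ℂ) * t * I) =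
      exp (-((lam * η : ℝ) : ℂ) * I) * ∫ t in (T + η)..(2 * T + η), g t := by
    intro T
    rw [← intervalIntegral.integral_comp_add_right (fun t => g t) η,
      ← intervalIntegral.integral_const_mul]
    congr 1
    ext t
    simp only [hg]
    rw [mul_left_comm, ← Complex.exp_add]
    congr 2
    push_cast
    ring
  have hdiff : ∀ T : ℝ, (∫ t in (T + η)..(2 * T + η), g t) = (∫ t in T..2 * T, g t) +
      ((∫ t in (2 * T)..(2 * T + η), g t) - ∫ t in T..(T + η), g t) := by
    intro T
    have e1 := intervalIntegral.integral_add_adjacent_intervals (hgi T (T + η))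
      (hgi (T + η) (2 * T + η))
    have e2 := intervalIntegral.integral_add_adjacent_intervals (hgi T (2 * T))
      (hgi (2 * T) (2 * T + η))
    linear_combination e1 - e2
  have herr : Tendsto (fun T : ℝ => (1 / T : ℂ) * ((∫ t in (2 * T)..(2 * T + η), g t) -
      ∫ t in T..(T + η), g t)) atTop (𝓝 0) := by
    have h0 : Tendsto (fun T : ℝ => (2 * B * |η|) * T⁻¹) atTop (𝓝 0) := by
      have := (tendsto_inv_atTop_zero (𝕜 := ℝ)).const_mul (2 * B * |η|)
      rwa [mul_zero] at this
    refine squeeze_zero_norm' ?_ h0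
    filter_upwards [eventually_gt_atTop 0] with T hT
    have h1 : ‖∫ t in (2 * T)..(2 * T + η), g t‖ ≤ B * |2 * T + η - 2 * T| :=
      intervalIntegral.norm_integral_le_of_norm_le_const fun t _ => hgb t
    have h2 : ‖∫ t in T..(T + η), g t‖ ≤ B * |T + η - T| :=
      intervalIntegral.norm_integral_le_of_norm_le_const fun t _ => hgb t
    rw [add_sub_cancel_left] at h1 h2
    rw [norm_mul, norm_div, norm_one, Complex.norm_real, Real.norm_of_nonneg hT.le, one_div,
      mul_comm]
    refine mul_le_mul_of_nonneg_right ?_ (by positivity)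
    refine (norm_sub_le _ _).trans ?_
    linarith
  have hall := (h.mean.add herr).const_mul (exp (-((lam * η : ℝ) : ℂ) * I))
  rw [add_zero] at hall
  refine hall.congr fun T => ?_
  rw [hsub, hdiff]
  simp only [hg]
  ring

theorem p_MOPS : T_MOPS :=
  ⟨fun h h' => MOPS_add h h', fun h a => MOPS_mul h a, fun a _ h => MOPS_const a h,
    fun h η => MOPS_shift h η⟩

end Pool.Agent.PrimesOnly
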