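import Pool.Agent.PrimesOnly.Targets

/-! `pe` is positive definite and even. -/

namespace Pool.Agent.PrimesOnly

open Complex Filter Topology Set MeasureTheory Pool.Agent.SelPole Pool.Agent.CohenPD
open scoped ComplexConjugate ArithmeticFunction.vonMangoldt

theorem sq_nonneg' (n : ℕ) : 0 ≤ sq n := by
  classical
  unfold sq
  split_ifs
  · have := ArithmeticFunction.vonMangoldt_nonneg (n := Nat.sqrt n)
    linarith
  · exact le_rfl

theorem conj_natCast_cpow {n : ℕ} (s : ℂ) : conj ((n : ℂ) ^ s) = (n : ℂ) ^ (conj s) := by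
  rw [Complex.cpow_conj _ _ (by rw [Complex.natCast_arg]; exact Real.pi_ne_zero.symm),
    Complex.conj_natCast]

theorem lser_conj (w : ℕ → ℝ) (s : ℂ) :
    conj (LSeries (fun n => (w n : ℂ)) s) = LSeries (fun n => (w n : ℂ)) (conj s) := by
  rw [LSeries, LSeries, Complex.conj_tsum]
  refine tsum_congr (fun n => ?_)
  by_cases hn : n = 0
  · simp [hn]
  · rw [LSeries.term_of_ne_zero hn, LSeries.term_of_ne_zero hn, map_div₀, Complex.conj_ofReal,
      conj_natCast_cpow]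

/-- positivity of the quadratic form of a Dirichlet series with nonnegative coefficients -/
theorem quad_nonneg (w : ℕ → ℝ) (hw : ∀ n, 0 ≤ w n) {a : ℝ}
    (hs : ∀ t : ℝ, LSeriesSummable (fun n => (w n : ℂ)) (a + t * I)) (s : Finset ℝ) (c : ℝ → ℝ) :
    0 ≤ (∑ x ∈ s, ∑ y ∈ s, (c x : ℂ) * (c y : ℂ) *
      LSeries (fun n => (w n : ℂ)) (a + ((x - y : ℝ) : ℂ) * I)).re := by
  have h1 : ∑ x ∈ s, ∑ y ∈ s, (c x : ℂ) * (c y : ℂ) *
      LSeries (fun n => (w n : ℂ)) (a + ((x - y : ℝ) : ℂ) * I) =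
      ∑' n : ℕ, ∑ x ∈ s, ∑ y ∈ s, (c x : ℂ) * (c y : ℂ) *
        LSeries.term (fun n => (w n : ℂ)) (a + ((x - y : ℝ) : ℂ) * I) n := by
    rw [Summable.tsum_finsetSum (fun x _ => summable_sum (fun y _ => (hs (x - y)).mul_left _))]
    refine Finset.sum_congr rfl (fun x _ => ?_)
    rw [Summable.tsum_finsetSum (fun y _ => (hs (x - y)).mul_left _)]
    refine Finset.sum_congr rfl (fun y _ => ?_)
    rw [tsum_mul_left]
    rfl
  have hsum : Summable (fun n : ℕ => ∑ x ∈ s, ∑ y ∈ s, (c x : ℂ) * (c y : ℂ) *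
        LSeries.term (fun n => (w n : ℂ)) (a + ((x - y : ℝ) : ℂ) * I) n) :=
    summable_sum (fun x _ => summable_sum (fun y _ => (hs (x - y)).mul_left _))
  rw [h1, Complex.re_tsum hsum]
  refine tsum_nonneg (fun n => ?_)
  by_cases hn : n = 0
  · simp [hn]
  have hnC : (n : ℂ) ≠ 0 := by exact_mod_cast hn
  have hn0 : (0 : ℝ) < n := by exact_mod_cast Nat.pos_of_ne_zero hn
  set v : ℝ → ℂ := fun x => (n : ℂ) ^ (-((x : ℂ) * I)) with hv
  have h2 : ∀ x y : ℝ, LSeries.term (fun n => (w n : ℂ)) (a + ((x - y : ℝ) : ℂ) * I) n =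
      ((w n * (n : ℝ) ^ (-a) : ℝ) : ℂ) * (v x * conj (v y)) := by
    intro x y
    rw [LSeries.term_of_ne_zero hn, hv]
    simp only
    rw [conj_natCast_cpow, ← Complex.cpow_add _ _ hnC, div_eq_mul_inv, ← Complex.cpow_neg]
    push_cast
    rw [mul_assoc, Complex.ofReal_cpow hn0.le, Complex.ofReal_natCast, ← Complex.cpow_add _ _ hnC]
    congr 2
    simp only [map_neg, map_mul, Complex.conj_ofReal, Complex.conj_I]
    push_cast
    ring
  have h3 : ∑ x ∈ s, ∑ y ∈ s, (c x : ℂ) * (c y : ℂ) *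
        LSeries.term (fun n => (w n : ℂ)) (a + ((x - y : ℝ) : ℂ) * I) n =
      ((w n * (n : ℝ) ^ (-a) : ℝ) : ℂ) *
        ((∑ x ∈ s, (c x : ℂ) * v x) * conj (∑ y ∈ s, (c y : ℂ) * v y)) := by
    rw [map_sum, Finset.sum_mul_sum, Finset.mul_sum]
    refine Finset.sum_congr rfl (fun x _ => ?_)
    rw [Finset.mul_sum]
    refine Finset.sum_congr rfl (fun y _ => ?_)
    rw [h2, map_mul, Complex.conj_ofReal]
    ring
  rw [h3, Complex.mul_conj, ← Complex.ofReal_mul, Complex.ofReal_re]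
  have := Complex.normSq_nonneg (∑ x ∈ s, (c x : ℂ) * v x)
  have := hw n
  positivity

/-- a series converging to the left of the line is negligible -/
theorem small_part {d : ℕ → ℂ} {σ₀ : ℝ} (hσ₀ : σ₀ < 1 / 2) (hd : LSeriesSummable d σ₀) (t : ℝ) :
    Tendsto (fun y : ℝ => (y : ℂ) * LSeries d (1 / 2 + y + t * I)) (𝓝[>] 0) (𝓝 0) := by
  have hb : ∀ y : ℝ, 0 < y → ‖LSeries d (1 / 2 + y + t * I)‖ ≤ ∑' n, ‖LSeries.term d σ₀ n‖ := by
    intro y hy
    have h1 : ∀ n, ‖LSeries.term d (1 / 2 + y + t * I) n‖ ≤ ‖LSeries.term d σ₀ n‖ := by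
      intro n
      refine LSeries.norm_term_le_of_re_le_re d ?_ n
      simp
      linarith
    have hs : Summable (fun n => ‖LSeries.term d (1 / 2 + y + t * I) n‖) :=
      Summable.of_nonneg_of_le (fun n => norm_nonneg _) h1 hd.norm
    exact (norm_tsum_le_tsum_norm hs).trans (hs.tsum_le_tsum h1 hd.norm)
  set M := ∑' n, ‖LSeries.term d σ₀ n‖ with hM
  rw [tendsto_zero_iff_norm_tendsto_zero]
  have h2 : Tendsto (fun y : ℝ => |y| * M) (𝓝[>] 0) (𝓝 0) := by
    have : Tendsto (fun y : ℝ => |y| * M) (𝓝 0) (𝓝 (|0| * M)) :=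
      (by fun_prop : Continuous (fun y : ℝ => |y| * M)).tendsto 0
    simp only [abs_zero, zero_mul] at this
    exact this.mono_left nhdsWithin_le_nhds
  refine squeeze_zero' (Eventually.of_forall (fun y => norm_nonneg _)) ?_ h2
  filter_upwards [self_mem_nhdsWithin] with y hy
  rw [norm_mul, Complex.norm_real, Real.norm_eq_abs]
  exact mul_le_mul_of_nonneg_left (hb y hy) (abs_nonneg _)

/-- the nonnegative coefficients -/
noncomputable def wt (p q : ℕ → ℝ) (E : Set ℕ) (K : ℕ) (n : ℕ) : ℝ :=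
  E.indicator (fun _ => 0) n + Eᶜ.indicator (fun n => q n - p n) n + K * sq n

theorem wt_nonneg {P R : ℂ → ℂ} {p q : ℕ → ℝ} {E : Set ℕ} {σ₀ : ℝ} {K : ℕ}
    (h : Cmp P R p q E σ₀ K) (n : ℕ) : 0 ≤ wt p q E K n := by
  have h1 := sq_nonneg' n
  unfold wt
  by_cases hn : n ∈ E
  · rw [Set.indicator_of_mem hn, Set.indicator_of_notMem (by simpa using hn)]
    have : (0 : ℝ) ≤ K := Nat.cast_nonneg K
    positivity
  · rw [Set.indicator_of_notMem hn, Set.indicator_of_mem (by simpa using hn)]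
    have := h.hdom n hn
    linarith

theorem wt_eq (p q : ℕ → ℝ) (E : Set ℕ) (K : ℕ) :
    (fun n => (wt p q E K n : ℂ)) = (fun n => ((q n - p n : ℝ) : ℂ)) + (K : ℂ) • (fun n => (sq n : ℂ))
      - E.indicator (fun n => ((q n - p n : ℝ) : ℂ)) := by
  funext n
  simp only [Pi.sub_apply, Pi.add_apply, Pi.smul_apply, smul_eq_mul]
  unfold wt
  by_cases hn : n ∈ E
  · rw [Set.indicator_of_mem hn, Set.indicator_of_notMem (by simpa using hn),
      Set.indicator_of_mem hn]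
    push_cast
    ring
  · rw [Set.indicator_of_notMem hn, Set.indicator_of_mem (by simpa using hn),
      Set.indicator_of_notMem hn]
    push_cast
    ring

theorem wt_summable (tABS : T_ABS) (tSQ : T_SQ) {P R : ℂ → ℂ} {p q : ℕ → ℝ} {E : Set ℕ} {σ₀ : ℝ}
    {K : ℕ} (h : Cmp P R p q E σ₀ K) {s : ℂ} (hs : 1 / 2 < s.re) :
    LSeriesSummable (fun n => ((q n - p n : ℝ) : ℂ)) s ∧
    LSeriesSummable ((K : ℂ) • (fun n => (sq n : ℂ))) s ∧
    LSeriesSummable (E.indicator (fun n => ((q n - p n : ℝ) : ℂ))) s ∧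
    LSeriesSummable (fun n => (wt p q E K n : ℂ)) s := by
  have h1 : LSeriesSummable (fun n => ((q n - p n : ℝ) : ℂ)) s := by
    apply LSeriesSummable_of_abscissaOfAbsConv_lt_re
    exact lt_of_le_of_lt (tABS h) (by exact_mod_cast hs)
  have h2 : LSeriesSummable ((K : ℂ) • (fun n => (sq n : ℂ))) s := (tSQ.1 s hs).smul _
  have h3 : LSeriesSummable (E.indicator (fun n => ((q n - p n : ℝ) : ℂ))) s := by
    refine h.hE.of_re_le_re ?_
    have := h.hσ₀
    simp
    linarith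
  refine ⟨h1, h2, h3, ?_⟩
  rw [wt_eq]
  exact (h1.add h2).sub h3

theorem wt_lim (tABS : T_ABS) (tLIM : T_LIM) (tSQ : T_SQ) {P R : ℂ → ℂ} {p q : ℕ → ℝ} {E : Set ℕ}
    {σ₀ : ℝ} {K : ℕ} (h : Cmp P R p q E σ₀ K) (t : ℝ) :
    Tendsto (fun y : ℝ => (y : ℂ) * LSeries (fun n => (wt p q E K n : ℂ)) (1 / 2 + y + t * I))
      (𝓝[>] 0) (𝓝 ((pe P R K t : ℤ) : ℂ)) := by
  classical
  have h1 := tLIM h.hP h.hR (tABS h) t
  have h2 := (tSQ.2 t).const_mul (K : ℂ)
  have h3 := small_part h.hσ₀ h.hE t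
  have h4 := (h1.add h2).sub h3
  have h5 : (-(eo P R t : ℂ) + (K : ℂ) * (if t = 0 then 1 else 0) - 0) = ((pe P R K t : ℤ) : ℂ) := by
    unfold pe
    split_ifs
    · push_cast; ring
    · push_cast; ring
  rw [h5] at h4
  refine h4.congr' ?_
  filter_upwards [self_mem_nhdsWithin] with y hy
  have hy' : (0 : ℝ) < y := hy
  obtain ⟨a1, a2, a3, a4⟩ := wt_summable tABS tSQ h (s := 1 / 2 + y + t * I) (by simp; linarith)
  rw [wt_eq, LSeries_sub (a1.add a2) a3, LSeries_add a1 a2, LSeries_smul]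
  ring

theorem p_PD (tABS : T_ABS) (tLIM : T_LIM) (tSQ : T_SQ) : T_PD := by
  intro P R p q E σ₀ K h
  constructor
  · intro s c
    have h1 : Tendsto (fun y : ℝ => ∑ x ∈ s, ∑ z ∈ s, (c x : ℂ) * (c z : ℂ) *
        ((y : ℂ) * LSeries (fun n => (wt p q E K n : ℂ)) (1 / 2 + y + ((x - z : ℝ) : ℂ) * I)))
        (𝓝[>] 0) (𝓝 (∑ x ∈ s, ∑ z ∈ s, (c x : ℂ) * (c z : ℂ) * ((pe P R K (x - z) : ℤ) : ℂ))) :=
      tendsto_finsetSum _ (fun x _ => tendsto_finsetSum _ (fun z _ =>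
        (wt_lim tABS tLIM tSQ h (x - z)).const_mul _))
    have h2 := (Complex.continuous_re.tendsto _).comp h1
    have h3 : (∑ x ∈ s, ∑ z ∈ s, (c x : ℂ) * (c z : ℂ) * ((pe P R K (x - z) : ℤ) : ℂ)).re =
        ∑ x ∈ s, ∑ z ∈ s, c x * c z * (pe P R K (x - z) : ℝ) := by
      rw [Complex.re_sum]
      refine Finset.sum_congr rfl (fun x _ => ?_)
      rw [Complex.re_sum]
      refine Finset.sum_congr rfl (fun z _ => ?_)
      rw [← Complex.ofReal_intCast, ← Complex.ofReal_mul, ← Complex.ofReal_mul, Complex.ofReal_re]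
    rw [h3] at h2
    refine ge_of_tendsto h2 ?_
    filter_upwards [self_mem_nhdsWithin] with y hy
    have hy' : (0 : ℝ) < y := hy
    have h4 := quad_nonneg (wt p q E K) (wt_nonneg h) (a := 1 / 2 + y) (fun t => by
      have := (wt_summable tABS tSQ h (s := ((1 / 2 + y : ℝ) : ℂ) + t * I) (by simp; linarith)).2.2.2
      exact this) s c
    have h5 : ∑ x ∈ s, ∑ z ∈ s, (c x : ℂ) * (c z : ℂ) *
        ((y : ℂ) * LSeries (fun n => (wt p q E K n : ℂ)) (1 / 2 + y + ((x - z : ℝ) : ℂ) * I)) =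
        (y : ℂ) * ∑ x ∈ s, ∑ z ∈ s, (c x : ℂ) * (c z : ℂ) *
          LSeries (fun n => (wt p q E K n : ℂ)) (((1 / 2 + y : ℝ) : ℂ) + ((x - z : ℝ) : ℂ) * I) := by
      rw [Finset.mul_sum]
      refine Finset.sum_congr rfl (fun x _ => ?_)
      rw [Finset.mul_sum]
      refine Finset.sum_congr rfl (fun z _ => ?_)
      push_cast
      ring
    simp only [Function.comp_apply]
    rw [h5, Complex.re_ofReal_mul]
    exact mul_nonneg hy'.le h4
  · intro t
    have h1 := wt_lim tABS tLIM tSQ h t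
    have h2 := wt_lim tABS tLIM tSQ h (-t)
    have h3 := (Complex.continuous_conj.tendsto _).comp h1
    have h4 : Tendsto (fun y : ℝ => (y : ℂ) * LSeries (fun n => (wt p q E K n : ℂ))
        (1 / 2 + y + ((-t : ℝ) : ℂ) * I)) (𝓝[>] 0) (𝓝 (conj ((pe P R K t : ℤ) : ℂ))) := by
      refine h3.congr (fun y => ?_)
      simp only [Function.comp_apply, map_mul, Complex.conj_ofReal]
      rw [lser_conj]
      congr 2
      simp [map_ofNat (starRingEnd ℂ) 2]
    have h5 := tendsto_nhds_unique h4 h2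
    have h6 : conj ((pe P R K t : ℤ) : ℂ) = ((pe P R K t : ℤ) : ℂ) := by
      rw [← Complex.ofReal_intCast, Complex.conj_ofReal]
    rw [h6] at h5
    exact_mod_cast h5.symm

end Pool.Agent.PrimesOnly
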