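import Pool.Agent.PrimesOnly.Targets

/-! The potential: logarithm of the modulus of `R A / P`. -/

namespace Pool.Agent.PrimesOnly

open Complex Filter Topology Set MeasureTheory Pool.Agent.SelPole Pool.Agent.CohenPD
open scoped ComplexConjugate

theorem POT_apf (x : ℤ × ℝ × ℝ) (hx : 0 ≤ x.2.2) {z : ℂ} (hz : z.re ≠ 1 / 2) :
    AnalyticAt ℂ (apf x) z ∧ apf x z ≠ 0 := by
  by_cases h0 : x.2.2 = 0
  · have h1 : apf x = fun _ => 1 := by
      funext s
      simp [apf, h0]
    rw [h1]
    exact ⟨analyticAt_const, one_ne_zero⟩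
  · have hpos : 0 < x.2.2 := lt_of_le_of_ne hx (Ne.symm h0)
    have h1 : apf x = fun s =>
        (1 - exp (-((2 * Real.pi / x.2.2 : ℝ) : ℂ) * (s - 1 / 2 - x.2.1 * I))) ^ x.1 := by
      funext s
      simp [apf, h0]
    have hne : 1 - exp (-((2 * Real.pi / x.2.2 : ℝ) : ℂ) * (z - 1 / 2 - x.2.1 * I)) ≠ 0 := by
      intro h2
      have h3 : exp (-((2 * Real.pi / x.2.2 : ℝ) : ℂ) * (z - 1 / 2 - x.2.1 * I)) = 1 :=
        (sub_eq_zero.mp h2).symm
      have h4 := congrArg norm h3
      rw [Complex.norm_exp, norm_one, Real.exp_eq_one_iff] at h4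
      have h5 : (-((2 * Real.pi / x.2.2 : ℝ) : ℂ) * (z - 1 / 2 - x.2.1 * I)).re
          = -(2 * Real.pi / x.2.2) * (z.re - 1 / 2) := by
        simp only [Complex.mul_re, Complex.neg_re, Complex.neg_im, Complex.ofReal_re,
          Complex.ofReal_im, Complex.sub_re, Complex.sub_im, Complex.I_re, Complex.I_im]
        norm_num
      rw [h5] at h4
      have h6 : 0 < 2 * Real.pi / x.2.2 := by positivity
      rcases mul_eq_zero.mp h4 with h7 | h7
      · linarith
      · exact hz (by linarith)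
    rw [h1]
    refine ⟨?_, zpow_ne_zero _ hne⟩
    refine AnalyticAt.fun_zpow ?_ hne
    fun_prop

theorem POT_apl (l : List (ℤ × ℝ × ℝ)) (hl : ∀ x ∈ l, 0 ≤ x.2.2) {z : ℂ} (hz : z.re ≠ 1 / 2) :
    AnalyticAt ℂ (apl l) z ∧ apl l z ≠ 0 := by
  induction l with
  | nil =>
    have h1 : apl [] = fun _ => 1 := by
      funext s
      simp [apl]
    rw [h1]
    exact ⟨analyticAt_const, one_ne_zero⟩
  | cons x l ih =>
    obtain ⟨h2, h3⟩ := ih (fun y hy => hl y (List.mem_cons_of_mem _ hy))
    obtain ⟨h4, h5⟩ := POT_apf x (hl x List.mem_cons_self) hz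
    have h1 : apl (x :: l) = fun s => apf x s * apl l s := by
      funext s
      simp [apl]
    rw [h1]
    exact ⟨h4.mul h2, mul_ne_zero h5 h3⟩

theorem p_POT (h1 : T_REF) (h2 : T_APO) (h3 : T_UOPS) (h4 : T_UAPL) : T_POT := by
  intro P R p q K hP hR hab uP uR l hl heq
  obtain ⟨hapm, hapl, -⟩ := h2
  obtain ⟨T₀, hT₀⟩ := hapl l hl
  set T₁ : ℝ := max T₀ 0 with hT₁
  set A : ℂ → ℂ := apl l with hA
  set f : ℂ → ℂ := fun s => (R s * A s) * (P s)⁻¹ with hf
  have uf : UFE f := h3.1 (h3.1 uR (h4 l hl)) (h3.2.1 uP)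
  have hmf : ∀ z, MeromorphicAt f z := fun z =>
    ((hR.meromorphicAt z).mul (hapm l z)).mul (hP.meromorphicAt z).inv
  -- the log series
  set e : ℕ → ℂ := fun n => ((q n - p n : ℝ) : ℂ) with he
  have he' : (fun n => (q n : ℂ)) - (fun n => (p n : ℂ)) = e := by
    funext n; simp [he]
  obtain ⟨C, hC0, hC⟩ := quotient hP hR (β := 1 / 2) (by norm_num) (by rw [he']; exact hab)
  rw [he'] at hC
  have he1 : e 1 = 0 := by
    rw [← he', Pi.sub_apply, hP.one, hR.one, sub_zero]
  set ℓ : ℂ → ℂ := LSeries (unlog e) with hℓ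
  have hℓd : ∀ s : ℂ, 1 / 2 < s.re → AnalyticAt ℂ ℓ s := by
    intro s hs
    have hab2 : LSeries.abscissaOfAbsConv (unlog e) ≤ ((1 / 2 : ℝ) : EReal) := by
      refine LSeries.abscissaOfAbsConv_le_of_forall_lt_LSeriesSummable (fun y hy => ?_)
      apply unlog_summable he1
      apply LSeriesSummable_of_abscissaOfAbsConv_lt_re
      refine lt_of_le_of_lt hab ?_
      exact_mod_cast (by simpa using hy)
    exact LSeries_analyticOnNhd (unlog e) s
      (lt_of_le_of_lt hab2 (show (((1 / 2 : ℝ)) : EReal) < s.re by exact_mod_cast hs))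
  set g : ℂ → ℂ := fun s => C * exp (ℓ s) * A s with hg
  have hgan : ∀ s : ℂ, 1 / 2 < s.re → AnalyticAt ℂ g s := by
    intro s hs
    exact (analyticAt_const.mul (hℓd s hs).cexp).mul (POT_apl l hl (by linarith [hs]) : _ ∧ _).1
  have hgne : ∀ s : ℂ, 1 / 2 < s.re → g s ≠ 0 := by
    intro s hs
    exact mul_ne_zero (mul_ne_zero hC0 (Complex.exp_ne_zero _))
      (POT_apl l hl (by linarith [hs]) : _ ∧ _).2
  -- P does not vanish in punctured neighbourhoods
  have hPne : ∀ z : ℂ, ∀ᶠ s in 𝓝[≠] z, P s ≠ 0 := by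
    intro z
    exact (meromorphicOrderAt_ne_top_iff_eventually_ne_zero (hP.meromorphicAt z)).mp
      (hP.order_ne_top z)
  -- f = g to the right
  have hfg : ∀ z : ℂ, 1 / 2 < z.re → z ≠ 1 → f =ᶠ[𝓝[≠] z] g := by
    intro z hz hz1
    have a1 : ∀ᶠ s in 𝓝[≠] z, 1 / 2 < s.re ∧ s ≠ 1 := by
      apply mem_nhdsWithin_of_mem_nhds
      exact ((isOpen_lt continuous_const continuous_re).inter isOpen_ne).mem_nhds ⟨hz, hz1⟩
    filter_upwards [a1, hPne z] with s hs1 hs2
    simp only [hf, hg]
    rw [hC s hs1.1 hs1.2]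
    field_simp
  -- orders
  have hord_right : ∀ z : ℂ, 1 / 2 < z.re → z ≠ 1 → meromorphicOrderAt f z = 0 := by
    intro z hz hz1
    rw [meromorphicOrderAt_congr (hfg z hz hz1)]
    exact (hgan z hz).meromorphicNFAt.meromorphicOrderAt_eq_zero_iff.mpr (hgne z hz)
  have hord_line : ∀ t : ℝ, T₁ < t → meromorphicOrderAt f (1 / 2 + t * I) = 0 := by
    intro t ht
    have ht0 : T₀ < t := lt_of_le_of_lt (le_max_left _ _) ht
    have ht1 : 0 < t := lt_of_le_of_lt (le_max_right _ _) ht
    set z : ℂ := 1 / 2 + t * I with hz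
    have b1 : meromorphicOrderAt f z
        = meromorphicOrderAt R z + meromorphicOrderAt A z + -meromorphicOrderAt P z := by
      rw [← meromorphicOrderAt_inv, ← meromorphicOrderAt_mul (hR.meromorphicAt z) (hapm l z),
        ← meromorphicOrderAt_mul ((hR.meromorphicAt z).mul (hapm l z)) (hP.meromorphicAt z).inv]
      rfl
    have b2 := hT₀ t ht0
    have b3 : ((meromorphicOrderAt R z).untop₀ : WithTop ℤ) = meromorphicOrderAt R z :=
      WithTop.coe_untop₀_of_ne_top (hR.order_ne_top z)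
    have b4 : ((meromorphicOrderAt P z).untop₀ : WithTop ℤ) = meromorphicOrderAt P z :=
      WithTop.coe_untop₀_of_ne_top (hP.order_ne_top z)
    have b5 := heq t
    rw [pe, if_neg ht1.ne', add_zero, eo, ← hz] at b5
    rw [b1, b2, ← b3, ← b4, ← b5]
    have b6 : ∀ a b : ℤ, ((a : ℤ) : WithTop ℤ) + ((-(a - b) : ℤ) : WithTop ℤ) + -((b : ℤ) : WithTop ℤ)
        = 0 := by
      intro a b
      rw [← WithTop.LinearOrderedAddCommGroup.coe_neg, ← WithTop.coe_add, ← WithTop.coe_add]
      rw [show a + -(a - b) + -b = 0 by ring]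
      rfl
    exact b6 _ _
  have hord : ∀ z ∈ dom T₁, meromorphicOrderAt f z = 0 := by
    intro z hz
    obtain ⟨hz0, hz1, hz2⟩ := hz
    have hzp : 0 < z.im := lt_of_le_of_lt (le_max_right _ _) hz2
    rcases lt_trichotomy z.re (1 / 2) with h | h | h
    · rw [h1 uf hmf z hz0 hz1]
      apply hord_right
      · simp only [Complex.sub_re, Complex.one_re, Complex.conj_re]
        linarith
      · intro hc
        have := congrArg Complex.im hc
        simp at this
        linarith
    · have : z = 1 / 2 + (z.im : ℝ) * I := by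
        apply Complex.ext
        · simp [h]
        · simp
      rw [this]
      exact hord_line z.im hz2
    · apply hord_right z h
      intro hc
      have := congrArg Complex.im hc
      simp at this
      linarith
  -- normal form
  have hmon : MeromorphicOn f (dom T₁) := fun z _ => hmf z
  set F : ℂ → ℂ := toMeromorphicNFOn f (dom T₁) with hF
  have hFnf : ∀ z ∈ dom T₁, MeromorphicNFAt F z := fun z hz =>
    meromorphicNFOn_toMeromorphicNFOn f (dom T₁) hz
  have hFord : ∀ z ∈ dom T₁, meromorphicOrderAt F z = 0 := by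
    intro z hz
    rw [hF, meromorphicOrderAt_toMeromorphicNFOn hmon hz]
    exact hord z hz
  have hFan : ∀ z ∈ dom T₁, AnalyticAt ℂ F z := by
    intro z hz
    exact (hFnf z hz).meromorphicOrderAt_nonneg_iff_analyticAt.mp (by rw [hFord z hz])
  have hFne : ∀ z ∈ dom T₁, F z ≠ 0 := by
    intro z hz
    exact (hFnf z hz).meromorphicOrderAt_eq_zero_iff.mp (hFord z hz)
  have hFf : ∀ z ∈ dom T₁, F =ᶠ[𝓝[≠] z] f := fun z hz =>
    hmon.toMeromorphicNFOn_eq_self_on_nhdsNE hz
  obtain ⟨D, κ, X, hX0, hXc, hXn, hXa⟩ := uf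
  refine ⟨T₁, fun z => Real.log ‖F z‖, D, κ, X, Real.log ‖C‖, ?_, ?_, ?_, ?_, hX0, hXc, hXa⟩
  · intro z hz
    refine ContinuousAt.continuousWithinAt ?_
    exact ((hFan z hz).continuousAt.norm).log (norm_ne_zero_iff.mpr (hFne z hz))
  · intro c ρ hρ hsub
    have hρ' : |ρ| = ρ := abs_of_pos hρ
    apply AnalyticOnNhd.circleAverage_log_norm_of_ne_zero
    · rw [hρ']; exact fun z hz => hFan z (hsub hz)
    · rw [hρ']; exact fun z hz => hFne z (hsub hz)
  · intro σ t hσ1 hσ2 ht
    set z : ℂ := (σ : ℂ) + t * I with hz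
    have hzre : z.re = σ := by simp [hz]
    have hzim : z.im = t := by simp [hz]
    have hzd : z ∈ dom T₁ := ⟨by rw [hzre]; linarith, by rw [hzre]; exact hσ2, by rw [hzim]; exact ht⟩
    have hz1 : z ≠ 1 := by
      intro hc
      have h5 := congrArg Complex.im hc
      rw [hzim] at h5
      simp at h5
      have : 0 < t := lt_of_le_of_lt (le_max_right _ _) ht
      linarith
    have c1 : F =ᶠ[𝓝[≠] z] g := (hFf z hzd).trans (hfg z (by rw [hzre]; exact hσ1) hz1)
    have c2 : F z = g z := by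
      have c3 := ((hFnf z hzd).eventuallyEq_nhdsNE_iff_eventuallyEq_nhds
        (hgan z (by rw [hzre]; exact hσ1)).meromorphicNFAt).mp c1
      exact c3.eq_of_nhds
    change Real.log ‖F z‖ = Real.log ‖C‖ + (ℓ z).re + Real.log ‖A z‖
    rw [c2]
    have hAz : A z ≠ 0 := (POT_apl l hl (by rw [hzre]; linarith) : _ ∧ _).2
    simp only [hg]
    rw [norm_mul, norm_mul, Real.log_mul, Real.log_mul, Complex.norm_exp, Real.log_exp]
    · exact norm_ne_zero_iff.mpr hC0
    · exact norm_ne_zero_iff.mpr (Complex.exp_ne_zero _)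
    · exact mul_ne_zero (norm_ne_zero_iff.mpr hC0) (norm_ne_zero_iff.mpr (Complex.exp_ne_zero _))
    · exact norm_ne_zero_iff.mpr hAz
  · intro σ t hσ0 hσ1 ht
    set z : ℂ := (σ : ℂ) + t * I with hz
    set z' : ℂ := ((1 - σ : ℝ) : ℂ) + t * I with hz'
    have hzre : z.re = σ := by simp [hz]
    have hzim : z.im = t := by simp [hz]
    have hzre' : z'.re = 1 - σ := by simp [hz']
    have hzim' : z'.im = t := by simp [hz']
    have hzd : z ∈ dom T₁ := ⟨by rw [hzre]; exact hσ0, by rw [hzre]; linarith, by rw [hzim]; exact ht⟩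
    have hzd' : z' ∈ dom T₁ :=
      ⟨by rw [hzre']; linarith, by rw [hzre']; linarith, by rw [hzim']; exact ht⟩
    have hrefl : 1 - conj z = z' := by
      apply Complex.ext <;> simp [hz, hz']
    -- the reflected map
    have hcont : Continuous (fun s : ℂ => 1 - conj s) := by fun_prop
    have htend : Tendsto (fun s : ℂ => 1 - conj s) (𝓝[≠] z) (𝓝[≠] z') := by
      refine tendsto_nhdsWithin_of_tendsto_nhds_of_eventually_within _ ?_ ?_
      · have := (hcont.tendsto z).mono_left (nhdsWithin_le_nhds (s := {z}ᶜ))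
        rwa [hrefl] at this
      · filter_upwards [self_mem_nhdsWithin] with s hs hc
        apply hs
        have h5 : conj s = conj z := by
          have h6 : 1 - conj s = 1 - conj z := by rw [hc, hrefl]
          linear_combination -h6
        have h7 := congrArg conj h5
        simpa using h7
    have hev : ∀ᶠ s in 𝓝[≠] z, ‖F s‖ = X s.re s.im * ‖F (1 - conj s)‖ := by
      have d1 : ∀ᶠ s in 𝓝[≠] z, 0 < s.re ∧ s.re < 1 := by
        apply mem_nhdsWithin_of_mem_nhds
        exact ((isOpen_lt continuous_const continuous_re).inter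
          (isOpen_lt continuous_re continuous_const)).mem_nhds ⟨hzd.1, hzd.2.1⟩
      filter_upwards [d1, hFf z hzd, htend.eventually (hFf z' hzd')] with s e1 e2 e3
      rw [e2, e3]
      have e4 := hXn s.re s.im e1.1 e1.2
      have e5 : (s.re : ℂ) + s.im * I = s := Complex.re_add_im s
      have e6 : ((1 - s.re : ℝ) : ℂ) + s.im * I = 1 - conj s := by
        apply Complex.ext <;> simp
      rw [e5, e6] at e4
      exact e4
    have hl1 : Tendsto (fun s => ‖F s‖) (𝓝[≠] z) (𝓝 ‖F z‖) :=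
      ((hFan z hzd).continuousAt.norm).tendsto.mono_left nhdsWithin_le_nhds
    have hl2 : Tendsto (fun s : ℂ => X s.re s.im * ‖F (1 - conj s)‖) (𝓝[≠] z)
        (𝓝 (X σ t * ‖F z'‖)) := by
      refine Tendsto.mul ?_ ?_
      · have hXat : ContinuousAt (fun w : ℝ × ℝ => X w.1 w.2) (σ, t) :=
          hXc.continuousAt ((isOpen_Ioo.prod isOpen_univ).mem_nhds ⟨⟨hσ0, by linarith⟩, trivial⟩)
        have h5 : Tendsto (fun s : ℂ => (s.re, s.im)) (𝓝[≠] z) (𝓝 (σ, t)) := by
          have h6 : Continuous (fun s : ℂ => (s.re, s.im)) := by fun_prop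
          have h7 := (h6.tendsto z).mono_left (nhdsWithin_le_nhds (s := {z}ᶜ))
          simp only [hzre, hzim] at h7
          exact h7
        exact hXat.tendsto.comp h5
      · have h5 : Tendsto (fun w => ‖F w‖) (𝓝[≠] z') (𝓝 ‖F z'‖) :=
          ((hFan z' hzd').continuousAt.norm).tendsto.mono_left nhdsWithin_le_nhds
        exact h5.comp htend
    have hfin : ‖F z‖ = X σ t * ‖F z'‖ :=
      tendsto_nhds_unique hl1 (hl2.congr' (by filter_upwards [hev] with s hs; exact hs.symm))
    change Real.log ‖F z‖ = Real.log (X σ t) + Real.log ‖F z'‖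
    rw [hfin, Real.log_mul (hX0 σ t hσ0 (by linarith)).ne' (norm_ne_zero_iff.mpr (hFne z' hzd'))]

end Pool.Agent.PrimesOnly
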