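import Pool.Agent.PrimesOnly.Targets

/-! `pe` vanishes near `0`. -/

namespace Pool.Agent.PrimesOnly

open Complex Filter Topology Set MeasureTheory Pool.Agent.SelPole Pool.Agent.CohenPD
open scoped ArithmeticFunction.vonMangoldt

theorem PUN_one {F : ℂ → ℂ} {c : ℕ → ℂ} (hF : EulerFE F c) :
    ∃ δ : ℝ, 0 < δ ∧ ∀ t : ℝ, 0 < |t| → |t| < δ → meromorphicOrderAt F (1 / 2 + t * I) = 0 := by
  have h := eventually_nhdsWithin_iff.mp (order_punctured hF (1 / 2 : ℂ))
  obtain ⟨δ, hδ, hball⟩ := Metric.eventually_nhds_iff.mp h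
  refine ⟨δ, hδ, fun t ht0 ht => hball ?_ ?_⟩
  · rw [dist_eq_norm]
    simpa using ht
  · intro h
    have h1 : ((1 : ℂ) / 2 + t * I) = 1 / 2 := h
    have h2 : (t : ℂ) * I = 0 := by linear_combination h1
    rcases mul_eq_zero.mp h2 with h3 | h3
    · have : t = 0 := by exact_mod_cast h3
      rw [this] at ht0
      simp at ht0
    · exact I_ne_zero h3

theorem p_PUN : T_PUN := by
  intro P R p q K hP hR
  obtain ⟨δ₁, h1, H1⟩ := PUN_one hP
  obtain ⟨δ₂, h2, H2⟩ := PUN_one hR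
  refine ⟨min δ₁ δ₂, lt_min h1 h2, fun t ht0 ht => ?_⟩
  have ha := H1 t ht0 (lt_of_lt_of_le ht (min_le_left _ _))
  have hb := H2 t ht0 (lt_of_lt_of_le ht (min_le_right _ _))
  have ht : t ≠ 0 := by
    intro h
    rw [h] at ht0
    simp at ht0
  unfold pe eo
  rw [ha, hb, if_neg ht]
  simp

end Pool.Agent.PrimesOnly
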