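import Pool.Agent.PrimesOnly.Targets
import Mathlib.NumberTheory.LSeries.PrimesInAP

/-! The series of the squares. -/

namespace Pool.Agent.PrimesOnly

open Complex Filter Topology Set MeasureTheory Pool.Agent.SelPole Pool.Agent.CohenPD
open scoped ComplexConjugate ArithmeticFunction.vonMangoldt

lemma SQ_sq (m : ℕ) : sq (m * m) = 2 * Λ m := by
  unfold sq
  rw [if_pos ⟨m, rfl⟩, Nat.sqrt_eq]

lemma SQ_inj : Function.Injective (fun m : ℕ => m * m) := by
  intro a b h
  exact Nat.mul_self_inj.1 h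

lemma SQ_term (s : ℂ) (m : ℕ) : LSeries.term (fun n => (sq n : ℂ)) s (m * m) =
    2 * LSeries.term (fun n => (Λ n : ℂ)) (2 * s) m := by
  rcases Nat.eq_zero_or_pos m with h | h
  · subst h
    simp
  · have hm : m ≠ 0 := h.ne'
    rw [LSeries.term_of_ne_zero (Nat.mul_ne_zero hm hm), LSeries.term_of_ne_zero hm, SQ_sq]
    have h1 : ((m * m : ℕ) : ℂ) ^ s = (m : ℂ) ^ (2 * s) := by
      rw [Nat.cast_mul, natCast_mul_natCast_cpow, ← cpow_add _ _ (Nat.cast_ne_zero.2 hm)]
      congr 1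
      ring
    rw [h1]
    push_cast
    ring

lemma SQ_out (s : ℂ) (n : ℕ) (hn : n ∉ Set.range (fun m : ℕ => m * m)) :
    LSeries.term (fun n => (sq n : ℂ)) s n = 0 := by
  have h : sq n = 0 := by
    unfold sq
    rw [if_neg]
    rintro ⟨m, hm⟩
    exact hn ⟨m, hm.symm⟩
  rcases Nat.eq_zero_or_pos n with h0 | h0
  · subst h0
    simp
  · rw [LSeries.term_of_ne_zero h0.ne', h]
    simp

lemma SQ_summable (s : ℂ) (hs : 1 / 2 < s.re) : LSeriesSummable (fun n => (sq n : ℂ)) s := by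
  have h1 : LSeriesSummable (fun n => (Λ n : ℂ)) (2 * s) := by
    apply ArithmeticFunction.LSeriesSummable_vonMangoldt
    simp only [mul_re, re_ofNat, im_ofNat, zero_mul, sub_zero]
    linarith
  unfold LSeriesSummable at h1 ⊢
  rw [← SQ_inj.summable_iff (SQ_out s)]
  have h2 : (LSeries.term (fun n => (sq n : ℂ)) s ∘ fun m : ℕ => m * m) =
      fun m => 2 * LSeries.term (fun n => (Λ n : ℂ)) (2 * s) m := by
    funext m
    exact SQ_term s m
  rw [h2]
  exact h1.mul_left 2

lemma SQ_LSeries (s : ℂ) : LSeries (fun n => (sq n : ℂ)) s =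
    2 * LSeries (fun n => (Λ n : ℂ)) (2 * s) := by
  unfold LSeries
  rw [← SQ_inj.tsum_eq (f := LSeries.term (fun n => (sq n : ℂ)) s)]
  · simp_rw [SQ_term]
    rw [tsum_mul_left]
  · intro n hn
    by_contra h
    exact hn (SQ_out s n h)

lemma SQ_aux (s : ℂ) (hs : 1 < s.re) : LSeries (fun n => (Λ n : ℂ)) s =
    ArithmeticFunction.vonMangoldt.LFunctionResidueClassAux (1 : ZMod 1) s + 1 / (s - 1) := by
  have h1 := ArithmeticFunction.vonMangoldt.eqOn_LFunctionResidueClassAux
    (a := (1 : ZMod 1)) isUnit_one (x := s) hs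
  have h2 : (fun n => ((ArithmeticFunction.vonMangoldt.residueClass (1 : ZMod 1) n : ℝ) : ℂ)) =
      fun n => (Λ n : ℂ) := by
    funext n
    unfold ArithmeticFunction.vonMangoldt.residueClass
    rw [Set.indicator_of_mem]
    exact Subsingleton.elim _ _
  rw [h1]
  beta_reduce
  rw [h2]
  simp

theorem p_SQ : T_SQ := by
  refine ⟨SQ_summable, fun t => ?_⟩
  set A := ArithmeticFunction.vonMangoldt.LFunctionResidueClassAux (1 : ZMod 1) with hA
  have hA1 : ContinuousOn A {s | 1 ≤ s.re} :=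
    ArithmeticFunction.vonMangoldt.continuousOn_LFunctionResidueClassAux _
  have hev : ∀ y : ℝ, 0 < y → (y : ℂ) * LSeries (fun n => (sq n : ℂ)) (1 / 2 + y + t * I) =
      2 * y * A (1 + 2 * y + 2 * t * I) + y / (y + t * I) := by
    intro y hy
    rw [SQ_LSeries, SQ_aux]
    · have h1 : (2 : ℂ) * (1 / 2 + y + t * I) = 1 + 2 * y + 2 * t * I := by ring
      rw [h1, ← hA]
      have h2 : (1 + 2 * y + 2 * t * I : ℂ) - 1 = 2 * (y + t * I) := by ring
      have h3 : (y + t * I : ℂ) ≠ 0 := by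
        intro h
        have := congrArg re h
        simp at this
        exact hy.ne' this
      rw [h2]
      field_simp
    · simp
      linarith
  have hlim1 : Tendsto (fun y : ℝ => (2 * y * A (1 + 2 * y + 2 * t * I) : ℂ)) (𝓝[>] 0) (𝓝 0) := by
    have h1 : Tendsto (fun y : ℝ => (1 + 2 * y + 2 * t * I : ℂ)) (𝓝[>] 0)
        (𝓝[{s : ℂ | 1 ≤ s.re}] (1 + 2 * (0 : ℝ) + 2 * t * I)) := by
      refine tendsto_nhdsWithin_iff.2 ⟨?_, ?_⟩
      · have hc : Continuous (fun y : ℝ => (1 + 2 * y + 2 * t * I : ℂ)) := by fun_prop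
        exact (hc.tendsto 0).mono_left nhdsWithin_le_nhds
      · filter_upwards [self_mem_nhdsWithin] with y hy
        have hy' : 0 < y := hy
        simp
        linarith
    have h2 : Tendsto A (𝓝[{s : ℂ | 1 ≤ s.re}] (1 + 2 * (0 : ℝ) + 2 * t * I))
        (𝓝 (A (1 + 2 * (0 : ℝ) + 2 * t * I))) := hA1 _ (by simp)
    have h3 : Tendsto (fun y : ℝ => (2 * y : ℂ)) (𝓝[>] 0) (𝓝 0) := by
      have hc : Continuous (fun y : ℝ => (2 * y : ℂ)) := by fun_prop
      have := (hc.tendsto 0).mono_left (nhdsWithin_le_nhds (s := Ioi (0 : ℝ)))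
      simpa using this
    have h4 := h3.mul (h2.comp h1)
    simpa using h4
  have hlim2 : Tendsto (fun y : ℝ => (y / (y + t * I) : ℂ)) (𝓝[>] 0)
      (𝓝 (if t = 0 then 1 else 0)) := by
    by_cases ht : t = 0
    · rw [if_pos ht]
      refine Tendsto.congr' ?_ tendsto_const_nhds
      filter_upwards [self_mem_nhdsWithin] with y hy
      have hy' : (0 : ℝ) < y := hy
      rw [ht]
      have : (y : ℂ) ≠ 0 := by exact_mod_cast hy'.ne'
      simp [this]
    · rw [if_neg ht]
      have h0 : (((0 : ℝ) : ℂ) + t * I) ≠ 0 := by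
        simp [ht]
      have hc : ContinuousAt (fun y : ℝ => (y / (y + t * I) : ℂ)) 0 := by
        refine ContinuousAt.div (by fun_prop) (by fun_prop) h0
      have := hc.tendsto.mono_left (nhdsWithin_le_nhds (s := Ioi (0 : ℝ)))
      simpa using this
  have h := hlim1.add hlim2
  rw [zero_add] at h
  refine h.congr' ?_
  filter_upwards [self_mem_nhdsWithin] with y hy
  exact (hev y hy).symm

end Pool.Agent.PrimesOnly
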