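import Pool.Agent.PrimesOnly.Targets

/-! The functional equation of `apl l` in absolute values. -/

set_option autoImplicit false

namespace Pool.Agent.PrimesOnly

open Complex Filter Topology Set MeasureTheory
open scoped ComplexConjugate

theorem UAPL_norm (ω a σ t : ℝ) :
    ‖1 - exp (-((ω : ℝ) : ℂ) * ((σ : ℂ) + t * I - 1 / 2 - a * I))‖ =
      Real.exp (ω * (1 / 2 - σ)) *
      ‖1 - exp (-((ω : ℝ) : ℂ) * (((1 - σ : ℝ) : ℂ) + t * I - 1 / 2 - a * I))‖ := by
  set w : ℂ := (ω : ℂ) * ((σ : ℂ) + t * I - 1 / 2 - a * I) with hw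
  have h1 : -((ω : ℝ) : ℂ) * ((σ : ℂ) + t * I - 1 / 2 - a * I) = -w := by rw [hw]; ring
  have h2 : -((ω : ℝ) : ℂ) * (((1 - σ : ℝ) : ℂ) + t * I - 1 / 2 - a * I) = conj w := by
    rw [hw]
    simp only [map_mul, map_add, map_sub, conj_ofReal, conj_I, map_div₀, map_one, map_ofNat]
    push_cast
    ring
  rw [h1, h2]
  have h3 : (1 : ℂ) - exp (-w) = exp (-w) * (exp w - 1) := by
    rw [mul_sub, mul_one, ← Complex.exp_add]
    simp
  have h4 : (1 : ℂ) - exp (conj w) = conj (1 - exp w) := by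
    rw [map_sub, map_one, Complex.exp_conj]
  rw [h3, h4, norm_mul, Complex.norm_conj, norm_sub_rev, norm_exp]
  congr 2
  rw [hw]
  have h5 : -((ω : ℂ) * ((σ : ℂ) + t * I - 1 / 2 - a * I)) =
      ((ω * (1 / 2 - σ) : ℝ) : ℂ) + ((-(ω * (t - a)) : ℝ) : ℂ) * I := by
    push_cast; ring
  rw [h5]
  simp

theorem UAPL_one (x : ℤ × ℝ × ℝ) (h0 : UFE (fun _ => 1)) : UFE (apf x) := by
  by_cases hτ : x.2.2 = 0
  · have : apf x = fun _ => 1 := by
      funext s
      simp [apf, hτ]
    rw [this]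
    exact h0
  set ω : ℝ := 2 * Real.pi / x.2.2 with hω
  refine ⟨0, ω * x.1 / 2, fun σ _ => Real.exp (ω * (1 / 2 - σ) * x.1), ?_, ?_, ?_, ?_⟩
  · intro σ t _ _
    exact Real.exp_pos _
  · apply Continuous.continuousOn
    fun_prop
  · intro σ t _ _
    unfold apf
    rw [if_neg hτ, if_neg hτ, norm_zpow, norm_zpow, ← hω, UAPL_norm, mul_zpow]
    congr 1
    show Real.exp (ω * (1 / 2 - σ)) ^ x.1 = Real.exp (ω * (1 / 2 - σ) * x.1)
    rw [Real.exp_mul _ (x.1 : ℝ), Real.rpow_intCast]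
  · intro ε hε
    refine Eventually.of_forall fun t σ _ _ => ?_
    rw [Real.log_exp]
    have : ω * (1 / 2 - σ) * x.1 - (1 - 2 * σ) * (0 * Real.log t + ω * x.1 / 2) = 0 := by ring
    rw [this, abs_zero]
    exact hε.le

theorem p_UAPL (h1 : T_UOPS) : T_UAPL := by
  intro l _
  induction l with
  | nil =>
    have : apl [] = fun _ => 1 := by
      funext s
      simp [apl]
    rw [this]
    exact h1.2.2.1
  | cons x l ih =>
    have : apl (x :: l) = fun s => apf x s * apl l s := by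
      funext s
      simp only [apl, List.map_cons, List.prod_cons]
    rw [this]
    exact h1.1 (UAPL_one x h1.2.2.1) (ih (fun y hy => by
      rename_i hh
      exact hh y (List.mem_cons_of_mem _ hy)))

end Pool.Agent.PrimesOnly
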