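import Pool.Agent.PrimesOnly.Targets

/-! The functional equation with Gamma factors gives the uniform functional equation in absolute
values. -/

namespace Pool.Agent.PrimesOnly

open Complex Filter Topology Set MeasureTheory Pool.Agent.SelPole Pool.Agent.CohenPD

theorem UNORM_lognorm {x y M : ℝ} (hx : 0 < x) (hxM : x ≤ M) (hy : 0 < y) :
    |Real.log ‖(x : ℂ) + y * I‖ - Real.log y| ≤ M / y := by
  have h1 : y ≤ ‖(x : ℂ) + y * I‖ := by
    have := Complex.abs_im_le_norm ((x : ℂ) + y * I)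
    simp only [Complex.add_im, Complex.ofReal_im, Complex.mul_im, Complex.ofReal_re,
      Complex.I_im, mul_one, Complex.I_re, mul_zero, zero_add, add_zero] at this
    rwa [abs_of_pos hy] at this
  have h2 : ‖(x : ℂ) + y * I‖ ≤ x + y := by
    refine (norm_add_le _ _).trans ?_
    rw [norm_mul, Complex.norm_I, mul_one, Complex.norm_real, Complex.norm_real,
      Real.norm_of_nonneg hx.le, Real.norm_of_nonneg hy.le]
  have h3 : 0 < ‖(x : ℂ) + y * I‖ := lt_of_lt_of_le hy h1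
  have h4 : Real.log y ≤ Real.log ‖(x : ℂ) + y * I‖ := Real.log_le_log hy h1
  rw [abs_of_nonneg (by linarith), ← Real.log_div h3.ne' hy.ne']
  have h5 := Real.log_le_sub_one_of_pos (div_pos h3 hy)
  refine h5.trans ?_
  rw [div_sub_one hy.ne', div_le_div_iff_of_pos_right hy]
  linarith

theorem UNORM_ratio {M L : ℝ} (hL : 0 ≤ L) {ε : ℝ} (hε : 0 < ε) : ∀ᶠ y : ℝ in atTop,
    ∀ x a : ℝ, 0 < x → x ≤ M → 0 ≤ a → a ≤ L →
    |Real.log ‖Gamma ((x : ℂ) + a + y * I)‖ - Real.log ‖Gamma ((x : ℂ) + y * I)‖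
      - a * Real.log y| ≤ ε := by
  have h2 : Tendsto (fun y : ℝ => (L ^ 2 + L) * ∑' j : ℕ, 1 / ((j : ℝ) ^ 2 + y ^ 2)) atTop
      (𝓝 0) := by
    have := tsum_small.const_mul (L ^ 2 + L)
    rwa [mul_zero] at this
  have h3 : Tendsto (fun y : ℝ => L * (M / y)) atTop (𝓝 0) := by
    have : Tendsto (fun y : ℝ => M / y) atTop (𝓝 0) := tendsto_const_nhds.div_atTop tendsto_id
    have := this.const_mul L
    rwa [mul_zero] at this
  have h4 := h2.add h3
  rw [add_zero] at h4
  filter_upwards [eventually_ge_atTop (2 * (1 + L)), h4.eventually_le_const hε] with y hy hs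
  intro x a hx hxM ha haL
  have hy0 : 0 < y := by linarith
  have hy1 : 1 ≤ y := by linarith
  have g1 := gamma_bound hx ha (y := y) (by linarith)
  have g2 := UNORM_lognorm hx hxM hy0
  have hS : 0 ≤ ∑' j : ℕ, 1 / ((j : ℝ) ^ 2 + y ^ 2) := tsum_nonneg (fun j => by positivity)
  have hM : 0 ≤ M / y := div_nonneg (hx.le.trans hxM) hy0.le
  have g3 : (a ^ 2 + a) * ∑' j : ℕ, 1 / ((j : ℝ) ^ 2 + y ^ 2)
      ≤ (L ^ 2 + L) * ∑' j : ℕ, 1 / ((j : ℝ) ^ 2 + y ^ 2) := by
    apply mul_le_mul_of_nonneg_right _ hS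
    nlinarith
  have g4 : |a * (Real.log ‖(x : ℂ) + y * I‖ - Real.log y)| ≤ L * (M / y) := by
    rw [abs_mul, abs_of_nonneg ha]
    exact mul_le_mul haL g2 (abs_nonneg _) hL
  have e : Real.log ‖Gamma ((x : ℂ) + a + y * I)‖ - Real.log ‖Gamma ((x : ℂ) + y * I)‖
      - a * Real.log y = (Real.log ‖Gamma ((x : ℂ) + a + y * I)‖
        - Real.log ‖Gamma ((x : ℂ) + y * I)‖ - a * Real.log ‖(x : ℂ) + y * I‖)
        + a * (Real.log ‖(x : ℂ) + y * I‖ - Real.log y) := by ring
  rw [e]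
  refine (abs_add_le _ _).trans ?_
  linarith

theorem UNORM_one {l : ℝ} (hl : 0 < l) {m : ℂ} (hm : 0 ≤ m.re) {ε : ℝ} (hε : 0 < ε) :
    ∀ᶠ t : ℝ in atTop, ∀ σ : ℝ, 0 < σ → σ < 1 / 2 →
    |Real.log ‖Gamma (l * (((1 - σ : ℝ) : ℂ) + t * I) + m)‖
      - Real.log ‖Gamma (l * ((σ : ℂ) + t * I) + m)‖
      - (1 - 2 * σ) * (l * Real.log t + l * Real.log l)| ≤ ε := by
  have hy : Tendsto (fun t : ℝ => l * t + m.im) atTop atTop :=
    tendsto_atTop_add_const_right _ _ (tendsto_id.const_mul_atTop hl)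
  have h1 := hy.eventually (UNORM_ratio (M := l + m.re) hl.le (half_pos hε))
  have h3 : Tendsto (fun t : ℝ => l * (Real.log (l * t + m.im) - Real.log t
      - Real.log l)) atTop (𝓝 0) := by
    have h4 : Tendsto (fun t : ℝ => l + m.im / t) atTop (𝓝 (l + 0)) :=
      tendsto_const_nhds.add (tendsto_const_nhds.div_atTop tendsto_id)
    rw [add_zero] at h4
    have h5 := (h4.log hl.ne').sub_const (Real.log l)
    rw [sub_self] at h5
    have h6 := h5.const_mul l
    rw [mul_zero] at h6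
    refine h6.congr' ?_
    filter_upwards [eventually_gt_atTop 0, hy.eventually_gt_atTop 0] with t ht ht2
    have e : l + m.im / t = (l * t + m.im) / t := by field_simp
    rw [e, Real.log_div ht2.ne' ht.ne']
  have h4 := h3.abs
  rw [abs_zero] at h4
  filter_upwards [h1, h4.eventually_le_const (half_pos hε)] with t g1 g2
  intro σ h0 h12
  have k1 := g1 (l * σ + m.re) (l * (1 - 2 * σ)) (by have := mul_pos hl h0; linarith)
    (by nlinarith) (mul_nonneg hl.le (by linarith)) (by nlinarith)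
  have e1 : ((l * σ + m.re : ℝ) : ℂ) + ((l * (1 - 2 * σ) : ℝ) : ℂ)
      + ((l * t + m.im : ℝ) : ℂ) * I
      = (l : ℂ) * (((1 - σ : ℝ) : ℂ) + t * I) + m := by
    apply Complex.ext
    · simp; ring
    · simp
  have e2 : ((l * σ + m.re : ℝ) : ℂ)
      + ((l * t + m.im : ℝ) : ℂ) * I
      = (l : ℂ) * ((σ : ℂ) + t * I) + m := by
    apply Complex.ext
    · simp
    · simp
  rw [e1, e2] at k1
  have k2 : |(1 - 2 * σ) * (l * (Real.log (l * t + m.im) - Real.log t - Real.log l))|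
      ≤ ε / 2 := by
    rw [abs_mul, abs_of_pos (by linarith : (0 : ℝ) < 1 - 2 * σ)]
    calc (1 - 2 * σ) * |l * (Real.log (l * t + m.im) - Real.log t - Real.log l)|
        ≤ 1 * |l * (Real.log (l * t + m.im) - Real.log t - Real.log l)| :=
          mul_le_mul_of_nonneg_right (by linarith) (abs_nonneg _)
      _ ≤ ε / 2 := by rw [one_mul]; exact g2
  have e3 : Real.log ‖Gamma (l * (((1 - σ : ℝ) : ℂ) + t * I) + m)‖
      - Real.log ‖Gamma (l * ((σ : ℂ) + t * I) + m)‖
      - (1 - 2 * σ) * (l * Real.log t + l * Real.log l)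
      = (Real.log ‖Gamma (l * (((1 - σ : ℝ) : ℂ) + t * I) + m)‖
      - Real.log ‖Gamma (l * ((σ : ℂ) + t * I) + m)‖
      - l * (1 - 2 * σ) * Real.log (l * t + m.im))
      + (1 - 2 * σ) * (l * (Real.log (l * t + m.im) - Real.log t - Real.log l)) := by ring
  rw [e3]
  refine (abs_add_le _ _).trans ?_
  linarith

theorem p_UNORM : T_UNORM := by
  intro F Q hQ k lam mu hlam hmu h
  set A : Fin k → ℝ → ℝ → ℝ := fun j σ t => ‖Gamma (lam j * ((σ : ℂ) + t * I) + mu j)‖ with hA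
  have hre : ∀ j (σ t : ℝ), 0 < σ → 0 < (lam j * ((σ : ℂ) + t * I) + mu j).re := by
    intro j σ t h0
    have h1 := hlam j
    have h2 := hmu j
    simp
    nlinarith [mul_pos h1 h0]
  have hA0 : ∀ j (σ t : ℝ), 0 < σ → 0 < A j σ t := by
    intro j σ t h0
    exact norm_pos_iff.mpr (Complex.Gamma_ne_zero_of_re_pos (hre j σ t h0))
  have hAc : ∀ j (z : ℝ × ℝ), 0 < z.1 → ContinuousAt (fun z : ℝ × ℝ => A j z.1 z.2) z := by
    intro j z hz
    have h1 : ContinuousAt Gamma (lam j * ((z.1 : ℂ) + z.2 * I) + mu j) := by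
      apply (Complex.differentiableAt_Gamma _ _).continuousAt
      intro m hm
      have h2 := hre j z.1 z.2 hz
      rw [hm] at h2
      simp only [Complex.neg_re, Complex.natCast_re] at h2
      have : (0 : ℝ) ≤ m := Nat.cast_nonneg m
      linarith
    have h2 : ContinuousAt (fun z : ℝ × ℝ => lam j * ((z.1 : ℂ) + z.2 * I) + mu j) z := by
      fun_prop
    have h3 : ContinuousAt (Gamma ∘ fun z : ℝ × ℝ => lam j * ((z.1 : ℂ) + z.2 * I) + mu j) z :=
      ContinuousAt.comp h1 h2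
    exact h3.norm
  refine ⟨∑ j, lam j, Real.log Q + ∑ j, lam j * Real.log (lam j),
    fun σ t => Q ^ (1 - 2 * σ) * ∏ j, (A j (1 - σ) t / A j σ t), ?_, ?_, ?_, ?_⟩
  · intro σ t h0 h1
    exact mul_pos (Real.rpow_pos_of_pos hQ _) (Finset.prod_pos (fun j _ =>
      div_pos (hA0 j _ t (by linarith)) (hA0 j _ t h0)))
  · intro z hz
    apply ContinuousAt.continuousWithinAt
    obtain ⟨hz1, -⟩ := hz
    refine ContinuousAt.mul ?_ ?_
    · have : ContinuousAt (fun u : ℝ => Q ^ u) (1 - 2 * z.1) :=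
        Real.continuousAt_const_rpow hQ.ne'
      exact ContinuousAt.comp (f := fun z : ℝ × ℝ => 1 - 2 * z.1) this (by fun_prop)
    · refine tendsto_finsetProd _ (fun j _ => ?_)
      have c1 : ContinuousAt (fun z : ℝ × ℝ => A j (1 - z.1) z.2) z := by
        have : ContinuousAt (fun z : ℝ × ℝ => A j z.1 z.2) (1 - z.1, z.2) :=
          hAc j _ (by simpa using hz1.2)
        exact ContinuousAt.comp (f := fun z : ℝ × ℝ => (1 - z.1, z.2)) this (by fun_prop)
      exact c1.div (hAc j z hz1.1) (hA0 j _ _ hz1.1).ne'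
  · intro σ t h0 h1
    have h1 := h σ t h0 h1
    have h2 : (0 : ℝ) < Q ^ σ := Real.rpow_pos_of_pos hQ _
    have h3 : 0 < ∏ j, A j σ t := Finset.prod_pos (fun j _ => hA0 j σ t h0)
    have h4 : Q ^ (1 - σ) = Q ^ (1 - 2 * σ) * Q ^ σ := by
      rw [← Real.rpow_add hQ]; congr 1; ring
    simp only [Finset.prod_div_distrib]
    rw [h4] at h1
    apply mul_left_cancel₀ (mul_pos h2 h3).ne'
    change Q ^ σ * (∏ j, A j σ t) * ‖F ((σ : ℂ) + t * I)‖ = Q ^ (1 - 2 * σ) * Q ^ σ *
      (∏ j, A j (1 - σ) t) * ‖F (((1 - σ : ℝ) : ℂ) + t * I)‖ at h1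
    rw [h1]
    field_simp
  · intro ε hε
    have hk : (0 : ℝ) < k + 1 := by positivity
    have hev := Filter.eventually_all.mpr (fun j : Fin k =>
      UNORM_one (hlam j) (hmu j) (div_pos hε hk))
    filter_upwards [hev] with t ht
    intro σ h0 h12
    have hlog : Real.log (Q ^ (1 - 2 * σ) * ∏ j, (A j (1 - σ) t / A j σ t))
        = (1 - 2 * σ) * Real.log Q + ∑ j, (Real.log (A j (1 - σ) t) - Real.log (A j σ t)) := by
      have hp : ∀ j, 0 < A j (1 - σ) t / A j σ t := fun j =>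
        div_pos (hA0 j _ t (by linarith)) (hA0 j _ t h0)
      rw [Real.log_mul (Real.rpow_pos_of_pos hQ _).ne'
        (Finset.prod_pos (fun j _ => hp j)).ne', Real.log_rpow hQ,
        Real.log_prod (fun j _ => (hp j).ne')]
      congr 1
      refine Finset.sum_congr rfl (fun j _ => ?_)
      rw [Real.log_div (hA0 j _ t (by linarith)).ne' (hA0 j _ t h0).ne']
    have e : Real.log (Q ^ (1 - 2 * σ) * ∏ j, (A j (1 - σ) t / A j σ t))
        - (1 - 2 * σ) * ((∑ j, lam j) * Real.log t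
          + (Real.log Q + ∑ j, lam j * Real.log (lam j)))
        = ∑ j, (Real.log (A j (1 - σ) t) - Real.log (A j σ t)
          - (1 - 2 * σ) * (lam j * Real.log t + lam j * Real.log (lam j))) := by
      rw [hlog]
      simp only [Finset.sum_sub_distrib, Finset.sum_add_distrib, ← Finset.mul_sum,
        ← Finset.sum_mul]
      ring
    change |Real.log (Q ^ (1 - 2 * σ) * ∏ j, (A j (1 - σ) t / A j σ t))
        - (1 - 2 * σ) * ((∑ j, lam j) * Real.log t
          + (Real.log Q + ∑ j, lam j * Real.log (lam j)))| ≤ ε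
    rw [e]
    refine (Finset.abs_sum_le_sum_abs _ _).trans ?_
    calc ∑ j, |Real.log (A j (1 - σ) t) - Real.log (A j σ t)
          - (1 - 2 * σ) * (lam j * Real.log t + lam j * Real.log (lam j))|
        ≤ ∑ _j : Fin k, ε / (k + 1) := Finset.sum_le_sum (fun j _ => ht j σ h0 h12)
      _ = k * (ε / (k + 1)) := by simp
      _ ≤ ε := by
        rw [← mul_div_assoc, div_le_iff₀ hk]
        nlinarith

end Pool.Agent.PrimesOnly
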