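import Pool.Agent.PrimesOnly.Targets

/-! Functional equations of the functions of the problem (block UPROD). -/

set_option autoImplicit false

namespace Pool.Agent.PrimesOnly

open Complex Filter Topology Set MeasureTheory Pool.Agent.SelPole Pool.Agent.CohenPD
open scoped ComplexConjugate ArithmeticFunction.vonMangoldt

theorem UPROD_prod (h1 : T_UNORM) {F : ℂ → ℂ} {b : ℕ → ℂ} (hF : IsEulerProduct F b) : UFE F := by
  obtain ⟨Q, k, lam, mu, hQ, hlam, hmu, h⟩ := norm_fe hF.functional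
  exact h1 hQ hlam hmu h

theorem UPROD_conj (h1 : T_UNORM) {F : ℂ → ℂ} {b : ℕ → ℂ} (hF : IsEulerProduct F b) :
    UFE (fun s => conj (F (conj s))) := by
  obtain ⟨Q, k, lam, mu, hQ, hlam, hmu, h⟩ := norm_fe hF.functional
  refine h1 (F := fun s => conj (F (conj s))) (mu := fun j => conj (mu j)) hQ hlam
    (fun j => by simpa using hmu j) ?_
  intro σ t h0 h1
  have h2 := h σ (-t) h0 h1
  have key : ∀ x : ℝ, ∀ j, ‖Gamma (lam j * ((x : ℂ) + t * I) + conj (mu j))‖
      = ‖Gamma (lam j * ((x : ℂ) + (-t : ℝ) * I) + mu j)‖ := by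
    intro x j
    rw [← Complex.norm_conj (Gamma (lam j * ((x : ℂ) + (-t : ℝ) * I) + mu j)), ← Complex.Gamma_conj]
    congr 2
    apply Complex.ext <;> simp
  have key2 : ∀ x : ℝ, ‖conj (F (conj ((x : ℂ) + t * I)))‖ = ‖F ((x : ℂ) + (-t : ℝ) * I)‖ := by
    intro x
    rw [Complex.norm_conj]
    congr 2
    apply Complex.ext <;> simp
  simp only [key, key2]
  exact h2

theorem UPROD_zeta (h1 : T_UNORM) : UFE riemannZeta := by
  refine h1 (k := 1) (Q := Real.pi ^ (-(1 / 2) : ℝ)) (lam := fun _ => 1 / 2)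
    (mu := fun _ => 0) (Real.rpow_pos_of_pos Real.pi_pos _) (fun _ => by norm_num)
    (fun _ => by simp) ?_
  intro σ t h0 h1
  have key : ∀ x t : ℝ, 0 < x → (Real.pi ^ (-(1 / 2) : ℝ)) ^ x *
      (∏ _j : Fin 1, ‖Gamma (((1 / 2 : ℝ) : ℂ) * ((x : ℂ) + t * I) + 0)‖) * ‖riemannZeta ((x : ℂ) + t * I)‖
      = ‖completedRiemannZeta ((x : ℂ) + t * I)‖ := by
    intro x t hx
    set s : ℂ := (x : ℂ) + t * I with hs
    have hsre : s.re = x := by simp [hs]
    have hs0 : s ≠ 0 := by intro h; rw [h] at hsre; simp at hsre; linarith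
    have hG : Gammaℝ s ≠ 0 := Gammaℝ_ne_zero_of_re_pos (by rw [hsre]; exact hx)
    have h2 : completedRiemannZeta s = Gammaℝ s * riemannZeta s := by
      rw [riemannZeta_def_of_ne_zero hs0]; field_simp
    rw [h2, norm_mul, Gammaℝ_def, norm_mul]
    have h3 : ‖(Real.pi : ℂ) ^ (-s / 2)‖ = (Real.pi ^ (-(1 / 2) : ℝ)) ^ x := by
      rw [Complex.norm_cpow_eq_rpow_re_of_pos Real.pi_pos, ← Real.rpow_mul Real.pi_pos.le]
      congr 1
      have : (-s / 2).re = -s.re / 2 := by simp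
      rw [this, hsre]; ring
    rw [h3]
    simp only [Finset.prod_const, Finset.card_univ, Fintype.card_fin, pow_one, add_zero]
    congr 3
    congr 1
    push_cast
    ring
  have h2 := key σ t h0
  have h3 := key (1 - σ) t (by linarith)
  have h4 := key (1 - σ) (-t) (by linarith)
  rw [h2, h3]
  have h5 : completedRiemannZeta ((σ : ℂ) + t * I)
      = completedRiemannZeta (((1 - σ : ℝ) : ℂ) + (-t : ℝ) * I) := by
    rw [← completedRiemannZeta_one_sub]
    congr 1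
    apply Complex.ext <;> simp
  rw [h5, ← h4, ← h3]
  have e1 : (((1 - σ : ℝ) : ℂ) + (-t : ℝ) * I) = conj (((1 - σ : ℝ) : ℂ) + t * I) := by
    apply Complex.ext <;> simp
  have e2 : (((1 / 2 : ℝ) : ℂ) * (((1 - σ : ℝ) : ℂ) + (-t : ℝ) * I) + 0)
      = conj (((1 / 2 : ℝ) : ℂ) * (((1 - σ : ℝ) : ℂ) + t * I) + 0) := by
    apply Complex.ext <;> simp
  rw [e2, e1, riemannZeta_conj, Complex.Gamma_conj, Complex.norm_conj, Complex.norm_conj]

theorem p_UPROD (h1 : T_UNORM) : T_UPROD :=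
  ⟨fun hF => ⟨UPROD_prod h1 hF, UPROD_conj h1 hF⟩, UPROD_zeta h1⟩

end Pool.Agent.PrimesOnly
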