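import Pool.Agent.PrimesOnly.App
import Pool.Agent.PrimesOnly.ABS
import Pool.Agent.PrimesOnly.LIM
import Pool.Agent.PrimesOnly.SQ
import Pool.Agent.PrimesOnly.PD
import Pool.Agent.PrimesOnly.PUN
import Pool.Agent.PrimesOnly.LB
import Pool.Agent.PrimesOnly.COH
import Pool.Agent.PrimesOnly.UOPS
import Pool.Agent.PrimesOnly.UNORM
import Pool.Agent.PrimesOnly.UPROD
import Pool.Agent.PrimesOnly.UAPL
import Pool.Agent.PrimesOnly.REF
import Pool.Agent.PrimesOnly.APO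
import Pool.Agent.PrimesOnly.SER
import Pool.Agent.PrimesOnly.MOPS
import Pool.Agent.PrimesOnly.MLOG
import Pool.Agent.PrimesOnly.APM
import Pool.Agent.PrimesOnly.LHM
import Pool.Agent.PrimesOnly.POT
import Pool.Agent.PrimesOnly.CIR
import Pool.Agent.PrimesOnly.FIN

/-! The comparison theorem and its application, without hypotheses. -/

namespace Pool.Agent.PrimesOnly

open Complex Filter Topology Set Pool.Agent.SelPole Pool.Agent.CohenPD
open scoped ComplexConjugate ArithmeticFunction.vonMangoldt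

theorem p_MAIN : T_MAIN := by
  intro P R p q E σ₀ K h uP uR θ C hθ hb
  have tABS : T_ABS := p_ABS p_SQ
  exact main_of tABS (p_PD tABS p_LIM p_SQ) p_PUN p_COH p_MOPS (p_APM p_SER p_MOPS)
    (p_LHM tABS (p_LB tABS p_LIM p_SQ) p_SER)
    (p_POT p_REF p_APO p_UOPS (p_UAPL p_UOPS)) (p_CIR p_MOPS p_MLOG) p_FIN h uP uR hθ hb

/-- The theorem for members of the Selberg class. -/
theorem final_full {F : ℂ → ℂ} {a b : ℕ → ℂ} (hF : IsSelberg F a b) {r : ℕ}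
    (hpole : meromorphicOrderAt F 1 = ((-(r : ℤ) : ℤ) : WithTop ℤ))
    {L : ℂ → ℂ} {c : ℕ → ℝ} (hL : IsEulerProduct L (fun n => (c n : ℂ)))
    (hLent : Differentiable ℂ L) {θ C : ℝ} (hθ : θ < 1 / 2)
    (hc : ∀ n : ℕ, 1 ≤ n → |c n| ≤ C * (n : ℝ) ^ θ) {E : Set ℕ} {σ₀ : ℝ} (hσ₀ : σ₀ < 1 / 2)
    (hE : Summable (E.indicator fun n : ℕ =>
      ((‖b n‖ + |c n|) * Real.log n + Λ n) * (n : ℝ) ^ (-σ₀))) {K : ℝ}
    (h : ((∀ n : ℕ, n ∉ E → (∀ p : ℕ, p.Prime → n ≠ p ^ 2) →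
            r * Λ n + c n * Real.log n ≤ (b n).re * Real.log n) ∧
          (∀ p : ℕ, p.Prime → p ^ 2 ∉ E → c (p ^ 2) - K ≤ (b (p ^ 2)).re) ∧ L 1 ≠ 0 ∧
          ∀ x : ℝ, 1 / 2 < x → x < 1 → meromorphicOrderAt L x ≤ meromorphicOrderAt F x) ∨
        ((∀ n : ℕ, n ∉ E → (∀ p : ℕ, p.Prime → n ≠ p ^ 2) →
            (b n).re * Real.log n ≤ r * Λ n + c n * Real.log n) ∧
          (∀ p : ℕ, p.Prime → p ^ 2 ∉ E → (b (p ^ 2)).re ≤ c (p ^ 2) + K) ∧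
          ∀ x : ℝ, 1 / 2 < x → x < 1 → meromorphicOrderAt F x ≤ meromorphicOrderAt L x)) :
    (∀ n : ℕ, 2 ≤ n → (b n).re * Real.log n = gc r c n) ∧
    (∀ s : ℂ, s ≠ 1 → F s * (starRingEnd ℂ) (F ((starRingEnd ℂ) s)) =
      (riemannZeta s ^ r * L s) ^ 2) := by
  obtain ⟨θ₁, C₁, hθ₁, hb⟩ := hF.b_bound
  have key : ∀ n : ℕ, n ∉ E → ∀ x y : ℝ, ((∀ p : ℕ, p.Prime → n ≠ p ^ 2) → x ≤ y) →
      (∀ p : ℕ, p.Prime → n = p ^ 2 → x ≤ y + (K + r) * Real.log n) → x ≤ y + psq (K + r) n := by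
    intro n hn x y h1 h2
    unfold psq
    split_ifs with h3
    · obtain ⟨p, hp, hpn⟩ := h3
      exact h2 p hp hpn
    · rw [add_zero]
      exact h1 (fun p hp hpn => h3 ⟨p, hp, hpn⟩)
  have hlog : ∀ n : ℕ, 0 ≤ Real.log n := fun n => Real.log_natCast_nonneg n
  have hr : (0 : ℝ) ≤ r := Nat.cast_nonneg r
  have hmain := app p_MAIN (p_UPROD p_UNORM) p_UOPS hF.isEulerProduct hpole hL hLent hσ₀
    (E := E) hE (θ := max θ θ₁) (C := max |C| |C₁|) (max_lt hθ hθ₁)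
    (fun n hn => (hb n hn).trans ?_) (fun n hn => (hc n hn).trans ?_) (K := K + r) ?_
  · exact ⟨hmain.1, hmain.2.1⟩
  · have hn1 : (1 : ℝ) ≤ n := by exact_mod_cast hn
    have h1 : (n : ℝ) ^ θ₁ ≤ (n : ℝ) ^ max θ θ₁ := Real.rpow_le_rpow_of_exponent_le hn1 (le_max_right _ _)
    have h2 : 0 ≤ (n : ℝ) ^ θ₁ := by positivity
    calc C₁ * (n : ℝ) ^ θ₁ ≤ |C₁| * (n : ℝ) ^ θ₁ := mul_le_mul_of_nonneg_right (le_abs_self _) h2
      _ ≤ max |C| |C₁| * (n : ℝ) ^ max θ θ₁ :=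
          mul_le_mul (le_max_right _ _) h1 h2 ((abs_nonneg C₁).trans (le_max_right _ _))
  · have hn1 : (1 : ℝ) ≤ n := by exact_mod_cast hn
    have h1 : (n : ℝ) ^ θ ≤ (n : ℝ) ^ max θ θ₁ := Real.rpow_le_rpow_of_exponent_le hn1 (le_max_left _ _)
    have h2 : 0 ≤ (n : ℝ) ^ θ := by positivity
    calc C * (n : ℝ) ^ θ ≤ |C| * (n : ℝ) ^ θ := mul_le_mul_of_nonneg_right (le_abs_self _) h2
      _ ≤ max |C| |C₁| * (n : ℝ) ^ max θ θ₁ :=
          mul_le_mul (le_max_left _ _) h1 h2 ((abs_nonneg C).trans (le_max_left _ _))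
  · rcases h with ⟨h1, h2, h3, h4⟩ | ⟨h1, h2, h3⟩
    · right
      refine ⟨fun n hn => key n hn _ _ (fun hp => h1 n hn hp) (fun p hp hpn => ?_), h3, h4⟩
      have h5 := h2 p hp (by rw [← hpn]; exact hn)
      rw [← hpn] at h5
      have h6 : Λ n ≤ Real.log n := ArithmeticFunction.vonMangoldt_le_log
      rw [gc]
      nlinarith [mul_le_mul_of_nonneg_left h6 hr, mul_le_mul_of_nonneg_right h5 (hlog n), hlog n]
    · left
      refine ⟨fun n hn => key n hn _ _ (fun hp => h1 n hn hp) (fun p hp hpn => ?_), h3⟩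
      have h5 := h2 p hp (by rw [← hpn]; exact hn)
      rw [← hpn] at h5
      have h6 : 0 ≤ Λ n := ArithmeticFunction.vonMangoldt_nonneg
      rw [gc]
      nlinarith [mul_nonneg hr h6, mul_le_mul_of_nonneg_right h5 (hlog n), hlog n,
        mul_nonneg hr (hlog n)]

end Pool.Agent.PrimesOnly
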