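import Pool.Agent.PrimesOnly.SQ
import Pool.Agent.PrimesOnly.PD
import Pool.Agent.PrimesOnly.LB

/-! Square summability of the boundary values of a Dirichlet series whose coefficients are
dominated, outside a thin set, by those of the series of the squares. -/

namespace Pool.Agent.PrimesOnly

open Complex Filter Topology Set MeasureTheory Pool.Agent.SelPole Pool.Agent.CohenPD
open scoped ComplexConjugate ArithmeticFunction.vonMangoldt

/-- the trigonometric sum -/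
noncomputable def tz (S : Finset ℝ) (x : ℝ → ℂ) (n : ℕ) : ℂ :=
  ∑ t ∈ S, x t * (n : ℂ) ^ (-((t : ℂ) * I))

theorem term_shift (g : ℕ → ℂ) (a : ℂ) (t : ℝ) (n : ℕ) :
    LSeries.term g (a + t * I) n = LSeries.term g a n * (n : ℂ) ^ (-((t : ℂ) * I)) := by
  rcases eq_or_ne n 0 with rfl | hn
  · simp
  · have h0 : (n : ℂ) ≠ 0 := by exact_mod_cast hn
    rw [LSeries.term_of_ne_zero hn, LSeries.term_of_ne_zero hn, Complex.cpow_add _ _ h0,
      Complex.cpow_neg]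
    field_simp

theorem sum_term (g : ℕ → ℂ) (a : ℂ) (S : Finset ℝ) (x : ℝ → ℂ) (n : ℕ) :
    ∑ t ∈ S, x t * LSeries.term g (a + t * I) n = LSeries.term g a n * tz S x n := by
  rw [tz, Finset.mul_sum]
  refine Finset.sum_congr rfl fun t _ => ?_
  rw [term_shift]
  ring

theorem cpow_conj_mul {n : ℕ} (hn : n ≠ 0) (s t : ℝ) :
    (n : ℂ) ^ (-((s : ℂ) * I)) * conj ((n : ℂ) ^ (-((t : ℂ) * I))) =
      (n : ℂ) ^ (-(((s - t : ℝ) : ℂ) * I)) := by
  have h0 : (n : ℂ) ≠ 0 := by exact_mod_cast hn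
  rw [conj_natCast_cpow, ← Complex.cpow_add _ _ h0]
  congr 1
  simp
  ring

theorem sum_term_sq (g : ℕ → ℂ) (a : ℂ) (S : Finset ℝ) (x : ℝ → ℂ) (n : ℕ) :
    ∑ s ∈ S, ∑ t ∈ S, x s * conj (x t) * LSeries.term g (a + ((s - t : ℝ) : ℂ) * I) n =
      LSeries.term g a n * ((‖tz S x n‖ ^ 2 : ℝ) : ℂ) := by
  rcases eq_or_ne n 0 with rfl | hn
  · simp
  · have h1 : ((‖tz S x n‖ ^ 2 : ℝ) : ℂ) = tz S x n * conj (tz S x n) := by
      rw [Complex.mul_conj, Complex.normSq_eq_norm_sq]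
    rw [h1, tz, map_sum, Finset.sum_mul_sum, Finset.mul_sum]
    refine Finset.sum_congr rfl fun s _ => ?_
    rw [Finset.mul_sum]
    refine Finset.sum_congr rfl fun t _ => ?_
    rw [term_shift, map_mul, ← cpow_conj_mul hn]
    ring

theorem summable_shift {g : ℕ → ℂ} (hg : ∀ s : ℂ, 1 / 2 < s.re → LSeriesSummable g s) {y : ℝ}
    (hy : 0 < y) (t : ℝ) : LSeriesSummable g (((1 / 2 + y : ℝ) : ℂ) + (t : ℂ) * I) :=
  hg _ (by simp; exact hy)

/-- the inequality for the series -/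
theorem l2_ineq {g : ℕ → ℂ} {K : ℝ} (hK : 0 ≤ K) (hg : ∀ n, ‖g n‖ ≤ K * sq n)
    (hgs : ∀ s : ℂ, 1 / 2 < s.re → LSeriesSummable g s) (S : Finset ℝ) (x : ℝ → ℂ) {y : ℝ}
    (hy : 0 < y) {θ : ℝ} (hθ : 0 < θ) :
    ‖∑ t ∈ S, x t * LSeries g (((1 / 2 + y : ℝ) : ℂ) + (t : ℂ) * I)‖ ≤
      K / 2 * (θ * (∑ s ∈ S, ∑ t ∈ S, x s * conj (x t) *
        LSeries (fun n => (sq n : ℂ)) (((1 / 2 + y : ℝ) : ℂ) + ((s - t : ℝ) : ℂ) * I)).re +
        1 / θ * (LSeries (fun n => (sq n : ℂ)) ((1 / 2 + y : ℝ) : ℂ)).re) := by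
  have hS := p_SQ.1
  set a : ℂ := ((1 / 2 + y : ℝ) : ℂ) with ha
  have hy2 : 0 < 1 / 2 + y := by linarith
  -- the quadratic series
  have hq1 : ∀ n, LSeries.term (fun n => (sq n : ℂ)) a n * ((‖tz S x n‖ ^ 2 : ℝ) : ℂ) =
      ((sq n * (n : ℝ) ^ (-(1 / 2 + y)) * ‖tz S x n‖ ^ 2 : ℝ) : ℂ) := by
    intro n
    rw [ha, LB_term sq _ hy2]
    push_cast
    ring
  have hqs : HasSum (fun n => LSeries.term (fun n => (sq n : ℂ)) a n * ((‖tz S x n‖ ^ 2 : ℝ) : ℂ))
      (∑ s ∈ S, ∑ t ∈ S, x s * conj (x t) *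
        LSeries (fun n => (sq n : ℂ)) (a + ((s - t : ℝ) : ℂ) * I)) := by
    have : (fun n => LSeries.term (fun n => (sq n : ℂ)) a n * ((‖tz S x n‖ ^ 2 : ℝ) : ℂ)) =
        fun n => ∑ s ∈ S, ∑ t ∈ S, x s * conj (x t) *
          LSeries.term (fun n => (sq n : ℂ)) (a + ((s - t : ℝ) : ℂ) * I) n := by
      funext n
      rw [sum_term_sq]
    rw [this]
    refine hasSum_sum fun s _ => hasSum_sum fun t _ => ?_
    exact ((summable_shift hS hy (s - t)).hasSum).mul_left _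
  have hq2 : HasSum (fun n : ℕ => sq n * (n : ℝ) ^ (-(1 / 2 + y)) * ‖tz S x n‖ ^ 2)
      (∑ s ∈ S, ∑ t ∈ S, x s * conj (x t) *
        LSeries (fun n => (sq n : ℂ)) (a + ((s - t : ℝ) : ℂ) * I)).re := by
    have h1 := Complex.hasSum_re hqs
    simp only [hq1, Complex.ofReal_re] at h1
    exact h1
  have hq3 : HasSum (fun n : ℕ => sq n * (n : ℝ) ^ (-(1 / 2 + y)))
      (LSeries (fun n => (sq n : ℂ)) a).re := by
    have h1 : HasSum (fun n => LSeries.term (fun n => (sq n : ℂ)) a n)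
        (LSeries (fun n => (sq n : ℂ)) a) := (hS a (by simp [ha]; exact hy)).hasSum
    have h2 := Complex.hasSum_re h1
    have h3 : ∀ n, (LSeries.term (fun n => (sq n : ℂ)) a n).re = sq n * (n : ℝ) ^ (-(1 / 2 + y)) := by
      intro n
      rw [ha, LB_term sq _ hy2, Complex.ofReal_re]
    simp only [h3] at h2
    exact h2
  -- the linear series
  have hl : HasSum (fun n => LSeries.term g a n * tz S x n)
      (∑ t ∈ S, x t * LSeries g (a + (t : ℂ) * I)) := by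
    have : (fun n => LSeries.term g a n * tz S x n) =
        fun n => ∑ t ∈ S, x t * LSeries.term g (a + (t : ℂ) * I) n := by
      funext n
      rw [sum_term]
    rw [this]
    refine hasSum_sum fun t _ => ?_
    exact ((summable_shift hgs hy t).hasSum).mul_left _
  have hb : ∀ n, ‖LSeries.term g a n * tz S x n‖ ≤
      K / 2 * (θ * (sq n * (n : ℝ) ^ (-(1 / 2 + y)) * ‖tz S x n‖ ^ 2) +
        1 / θ * (sq n * (n : ℝ) ^ (-(1 / 2 + y)))) := by
    intro n
    have h1 : ‖LSeries.term g a n‖ ≤ K * (sq n * (n : ℝ) ^ (-(1 / 2 + y))) := by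
      rcases eq_or_ne n 0 with rfl | hn
      · rw [LSeries.term_zero, norm_zero]
        exact mul_nonneg hK (mul_nonneg (LB_sq_nonneg 0) (by positivity))
      · rw [LSeries.norm_term_eq, if_neg hn, ha, Complex.ofReal_re, Real.rpow_neg (by positivity),
          ← mul_assoc, ← div_eq_mul_inv]
        exact div_le_div_of_nonneg_right (hg n) (by positivity)
    rw [norm_mul]
    have h2 : 0 ≤ sq n * (n : ℝ) ^ (-(1 / 2 + y)) := mul_nonneg (LB_sq_nonneg n) (by positivity)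
    set w := sq n * (n : ℝ) ^ (-(1 / 2 + y)) with hw
    set z := ‖tz S x n‖ with hz
    have hz0 : 0 ≤ z := norm_nonneg _
    have h3 : z ≤ (θ * z ^ 2 + 1 / θ) / 2 := by
      have h4 : 0 ≤ (θ * z - 1) ^ 2 / θ := by positivity
      have h5 : (θ * z - 1) ^ 2 / θ = θ * z ^ 2 + 1 / θ - 2 * z := by field_simp; ring
      linarith
    calc ‖LSeries.term g a n‖ * z ≤ (K * w) * z := mul_le_mul_of_nonneg_right h1 hz0
      _ ≤ (K * w) * ((θ * z ^ 2 + 1 / θ) / 2) := mul_le_mul_of_nonneg_left h3 (mul_nonneg hK h2)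
      _ = _ := by ring
  have hr : HasSum (fun n : ℕ => K / 2 * (θ * (sq n * (n : ℝ) ^ (-(1 / 2 + y)) * ‖tz S x n‖ ^ 2) +
        1 / θ * (sq n * (n : ℝ) ^ (-(1 / 2 + y)))))
      (K / 2 * (θ * (∑ s ∈ S, ∑ t ∈ S, x s * conj (x t) *
        LSeries (fun n => (sq n : ℂ)) (a + ((s - t : ℝ) : ℂ) * I)).re +
        1 / θ * (LSeries (fun n => (sq n : ℂ)) a).re)) :=
    ((hq2.mul_left θ).add (hq3.mul_left (1 / θ))).mul_left (K / 2)
  rw [← hl.tsum_eq, ← hr.tsum_eq]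
  have hn : Summable (fun n => ‖LSeries.term g a n * tz S x n‖) :=
    Summable.of_nonneg_of_le (fun n => norm_nonneg _) hb hr.summable
  exact (norm_tsum_le_tsum_norm hn).trans (hn.tsum_le_tsum hb hr.summable)

/-- **The square bound.** -/
theorem l2_bound {e : ℕ → ℂ} {E : Set ℕ} {σ₀ K : ℝ} (hσ₀ : σ₀ < 1 / 2) (hK : 0 ≤ K)
    (hE : LSeriesSummable (E.indicator e) σ₀) (hdom : ∀ n ∉ E, ‖e n‖ ≤ K * sq n) :
    (∀ s : ℂ, 1 / 2 < s.re → LSeriesSummable e s) ∧
    ∀ {o : ℝ → ℂ}, (∀ t : ℝ, Tendsto (fun y : ℝ => (y : ℂ) * LSeries e (1 / 2 + y + t * I)) (𝓝[>] 0)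
      (𝓝 (o t))) → ∀ S : Finset ℝ, ∑ t ∈ S, ‖o t‖ ^ 2 ≤ K ^ 2 := by
  set g : ℕ → ℂ := Eᶜ.indicator e with hgdef
  have heg : E.indicator e + g = e := Set.indicator_self_add_compl E e
  have hg : ∀ n, ‖g n‖ ≤ K * sq n := by
    intro n
    by_cases hn : n ∈ E
    · rw [hgdef, Set.indicator_of_notMem (by simpa using hn), norm_zero]
      exact mul_nonneg hK (LB_sq_nonneg n)
    · rw [hgdef, Set.indicator_of_mem (by simpa using hn)]
      exact hdom n hn
  have hgs : ∀ s : ℂ, 1 / 2 < s.re → LSeriesSummable g s := by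
    intro s hs
    have h1 : LSeriesSummable ((K : ℂ) • fun n => (sq n : ℂ)) s := (p_SQ.1 s hs).smul (K : ℂ)
    refine Summable.of_norm ?_
    refine Summable.of_nonneg_of_le (fun n => norm_nonneg _) (fun n => ?_) h1.norm
    refine LSeries.norm_term_le s ?_
    rw [Pi.smul_apply, smul_eq_mul, norm_mul, Complex.norm_real, Complex.norm_real,
      Real.norm_of_nonneg hK, Real.norm_of_nonneg (LB_sq_nonneg n)]
    exact hg n
  have hEs : ∀ s : ℂ, 1 / 2 < s.re → LSeriesSummable (E.indicator e) s := by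
    intro s hs
    refine hE.of_re_le_re ?_
    rw [Complex.ofReal_re]
    linarith
  refine ⟨fun s hs => heg ▸ (hEs s hs).add (hgs s hs), ?_⟩
  intro o ho S
  -- limits for `g`
  have hlim : ∀ t : ℝ, Tendsto (fun y : ℝ => (y : ℂ) * LSeries g (((1 / 2 + y : ℝ) : ℂ) + (t : ℂ) * I))
      (𝓝[>] 0) (𝓝 (o t)) := by
    intro t
    have h1 := (ho t).sub (small_part hσ₀ hE t)
    rw [sub_zero] at h1
    refine h1.congr' ?_
    filter_upwards [self_mem_nhdsWithin] with y hy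
    have hy' : 0 < y := hy
    have e1 : (((1 / 2 + y : ℝ) : ℂ) + (t : ℂ) * I) = 1 / 2 + y + t * I := by push_cast; ring
    have hre : 1 / 2 < (1 / 2 + (y : ℂ) + t * I).re := by simp; exact hy'
    rw [e1, ← mul_sub]
    congr 1
    have h2 := LSeries_add (hEs _ hre) (hgs _ hre)
    rw [heg] at h2
    rw [h2]
    ring
  have hsq : ∀ t : ℝ, Tendsto (fun y : ℝ => (y : ℂ) *
      LSeries (fun n => (sq n : ℂ)) (((1 / 2 + y : ℝ) : ℂ) + (t : ℂ) * I))
      (𝓝[>] 0) (𝓝 (if t = 0 then 1 else 0)) := by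
    intro t
    refine (p_SQ.2 t).congr fun y => ?_
    congr 2
    push_cast
    ring
  set A : ℝ := ∑ t ∈ S, ‖o t‖ ^ 2 with hA
  have hA0 : 0 ≤ A := Finset.sum_nonneg fun t _ => by positivity
  set x : ℝ → ℂ := fun t => conj (o t) with hx
  have hL : Tendsto (fun y : ℝ => ‖∑ t ∈ S, x t * ((y : ℂ) *
      LSeries g (((1 / 2 + y : ℝ) : ℂ) + (t : ℂ) * I))‖) (𝓝[>] 0) (𝓝 A) := by
    have h1 : Tendsto (fun y : ℝ => ∑ t ∈ S, x t * ((y : ℂ) *
      LSeries g (((1 / 2 + y : ℝ) : ℂ) + (t : ℂ) * I))) (𝓝[>] 0) (𝓝 (∑ t ∈ S, x t * o t)) :=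
      tendsto_finsetSum _ fun t _ => (hlim t).const_mul (x t)
    have h2 : ∑ t ∈ S, x t * o t = (A : ℂ) := by
      rw [hA]
      push_cast
      refine Finset.sum_congr rfl fun t _ => ?_
      rw [hx]
      simp only
      rw [mul_comm, Complex.mul_conj, Complex.normSq_eq_norm_sq]
      push_cast
      rfl
    rw [h2] at h1
    have h3 := h1.norm
    rwa [Complex.norm_real, Real.norm_of_nonneg hA0] at h3
  have hQ : Tendsto (fun y : ℝ => (∑ s ∈ S, ∑ t ∈ S, x s * conj (x t) * ((y : ℂ) *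
        LSeries (fun n => (sq n : ℂ)) (((1 / 2 + y : ℝ) : ℂ) + ((s - t : ℝ) : ℂ) * I))).re)
      (𝓝[>] 0) (𝓝 A) := by
    have h1 : Tendsto (fun y : ℝ => ∑ s ∈ S, ∑ t ∈ S, x s * conj (x t) * ((y : ℂ) *
        LSeries (fun n => (sq n : ℂ)) (((1 / 2 + y : ℝ) : ℂ) + ((s - t : ℝ) : ℂ) * I)))
        (𝓝[>] 0) (𝓝 (∑ s ∈ S, ∑ t ∈ S, x s * conj (x t) * (if s - t = 0 then 1 else 0))) :=
      tendsto_finsetSum _ fun s _ => tendsto_finsetSum _ fun t _ =>
        (hsq (s - t)).const_mul _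
    have h2 : ∑ s ∈ S, ∑ t ∈ S, x s * conj (x t) * (if s - t = 0 then (1 : ℂ) else 0) = (A : ℂ) := by
      rw [hA]
      push_cast
      refine Finset.sum_congr rfl fun s hs => ?_
      rw [Finset.sum_eq_single s]
      · rw [sub_self, if_pos rfl, mul_one, hx]
        simp only
        rw [Complex.conj_conj, mul_comm, Complex.mul_conj, Complex.normSq_eq_norm_sq]
        push_cast
        rfl
      · intro t _ hts
        rw [if_neg (sub_ne_zero.mpr (Ne.symm hts)), mul_zero]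
      · intro h
        exact absurd hs h
    rw [h2] at h1
    exact (Complex.continuous_re.tendsto _).comp h1
  have hQ1 : Tendsto (fun y : ℝ => ((y : ℂ) *
      LSeries (fun n => (sq n : ℂ)) ((1 / 2 + y : ℝ) : ℂ)).re) (𝓝[>] 0) (𝓝 1) := by
    have h1 := (Complex.continuous_re.tendsto _).comp (hsq 0)
    rw [if_pos rfl, Complex.one_re] at h1
    refine h1.congr fun y => ?_
    simp only [Function.comp]
    congr 3
    push_cast
    ring
  have key : ∀ θ : ℝ, 0 < θ → A ≤ K / 2 * (θ * A + 1 / θ) := by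
    intro θ hθ
    have hR : Tendsto (fun y : ℝ => K / 2 * (θ * (∑ s ∈ S, ∑ t ∈ S, x s * conj (x t) * ((y : ℂ) *
        LSeries (fun n => (sq n : ℂ)) (((1 / 2 + y : ℝ) : ℂ) + ((s - t : ℝ) : ℂ) * I))).re +
        1 / θ * ((y : ℂ) * LSeries (fun n => (sq n : ℂ)) ((1 / 2 + y : ℝ) : ℂ)).re))
        (𝓝[>] 0) (𝓝 (K / 2 * (θ * A + 1 / θ * 1))) :=
      ((hQ.const_mul θ).add (hQ1.const_mul (1 / θ))).const_mul (K / 2)
    rw [mul_one] at hR
    refine le_of_tendsto_of_tendsto hL hR ?_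
    filter_upwards [self_mem_nhdsWithin] with y hy
    have hy' : (0 : ℝ) < y := hy
    have h1 := l2_ineq hK hg hgs S x hy' hθ
    have e1 : ∑ t ∈ S, x t * ((y : ℂ) * LSeries g (((1 / 2 + y : ℝ) : ℂ) + (t : ℂ) * I)) =
        (y : ℂ) * ∑ t ∈ S, x t * LSeries g (((1 / 2 + y : ℝ) : ℂ) + (t : ℂ) * I) := by
      rw [Finset.mul_sum]
      exact Finset.sum_congr rfl fun t _ => by ring
    have e2 : ∑ s ∈ S, ∑ t ∈ S, x s * conj (x t) * ((y : ℂ) *
        LSeries (fun n => (sq n : ℂ)) (((1 / 2 + y : ℝ) : ℂ) + ((s - t : ℝ) : ℂ) * I)) =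
        (y : ℂ) * ∑ s ∈ S, ∑ t ∈ S, x s * conj (x t) *
        LSeries (fun n => (sq n : ℂ)) (((1 / 2 + y : ℝ) : ℂ) + ((s - t : ℝ) : ℂ) * I) := by
      rw [Finset.mul_sum]
      refine Finset.sum_congr rfl fun s _ => ?_
      rw [Finset.mul_sum]
      exact Finset.sum_congr rfl fun t _ => by ring
    rw [e1, e2, norm_mul, Complex.norm_real, Real.norm_of_nonneg hy'.le, Complex.re_ofReal_mul,
      Complex.re_ofReal_mul]
    calc y * ‖∑ t ∈ S, x t * LSeries g (((1 / 2 + y : ℝ) : ℂ) + (t : ℂ) * I)‖ ≤ y * _ :=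
          mul_le_mul_of_nonneg_left h1 hy'.le
      _ = _ := by ring
  rcases eq_or_lt_of_le hA0 with h0 | h0
  · rw [← h0]
    positivity
  · have h1 := key (1 / Real.sqrt A) (by positivity)
    have h2 : 0 < Real.sqrt A := Real.sqrt_pos.mpr h0
    have h3 : Real.sqrt A * Real.sqrt A = A := Real.mul_self_sqrt hA0
    have h4 : 1 / Real.sqrt A * A = Real.sqrt A := by
      field_simp
      nlinarith
    rw [h4, one_div_one_div] at h1
    have h5 : Real.sqrt A ≤ K := by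
      have : Real.sqrt A * Real.sqrt A ≤ K * Real.sqrt A := by
        rw [h3]
        linarith
      exact le_of_mul_le_mul_right this h2
    calc A = Real.sqrt A * Real.sqrt A := h3.symm
      _ ≤ K * K := mul_le_mul h5 h5 h2.le hK
      _ = K ^ 2 := by ring

end Pool.Agent.PrimesOnly
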