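import Pool.Agent.PrimesOnly.Targets

/-! The comparison theorem from the blocks. -/

namespace Pool.Agent.PrimesOnly

open Complex Filter Topology Set MeasureTheory Pool.Agent.SelPole Pool.Agent.CohenPD

theorem main_of (tABS : T_ABS) (tPD : T_PD) (tPUN : T_PUN) (tCOH : T_COH) (tMOPS : T_MOPS)
    (tAPM : T_APM) (tLHM : T_LHM) (tPOT : T_POT) (tCIR : T_CIR) (tFIN : T_FIN)
    {P R : ℂ → ℂ} {p q : ℕ → ℝ} {E : Set ℕ} {σ₀ : ℝ} {K : ℕ}
    (h : Cmp P R p q E σ₀ K) (uP : UFE P) (uR : UFE R) {θ C : ℝ} (hθ : θ < 1 / 2)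
    (hb : ∀ n : ℕ, 2 ≤ n → |q n - p n| ≤ C * (n : ℝ) ^ θ) : ∀ n : ℕ, 2 ≤ n → q n = p n := by
  obtain ⟨δ, hδ, h0⟩ := tPUN K h.hP h.hR
  obtain ⟨hpd, heven⟩ := tPD h
  obtain ⟨l, hl, heq⟩ := tCOH (pe P R K) hpd heven hδ h0
  refine tFIN l hl ?_ hθ hb
  intro lam hlam
  obtain ⟨T₁, u, D, κ, X, c₀, hu, hav, hr, hll, hX0, hXc, hXa⟩ :=
    tPOT h.hP h.hR (tABS h) uP uR l hl heq
  obtain ⟨C₁, hC₁⟩ := tAPM l hl hlam
  obtain ⟨C₂, hC₂⟩ := tLHM h hlam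
  have hc := tCIR (u := u) (T₁ := T₁) hu hav
    (φ := fun σ t => c₀ + (LSeries (unlog (fun n => ((q n - p n : ℝ) : ℂ))) ((σ : ℂ) + t * I)).re
          + Real.log ‖apl l ((σ : ℂ) + t * I)‖) hlam
    (c := (1 / 2) * ((lcf p q lam : ℂ) - exp ((lam / 2 : ℝ) : ℂ) * apm l lam))
    (C := |c₀| + C₂ + C₁) ?_ ?_ hX0 hXc hXa ?_
  · have h2 : (lcf p q lam : ℂ) - exp ((lam / 2 : ℝ) : ℂ) * apm l lam = 0 := by
      rcases mul_eq_zero.mp hc with h3 | h3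
      · norm_num at h3
      · exact h3
    exact sub_eq_zero.mp h2
  · intro σ h1 h2
    have a := tMOPS.1 (tMOPS.1 (tMOPS.2.2.1 c₀ hlam) (hC₂ σ h1 h2.le)) (hC₁ σ h1 h2.le)
    refine ⟨a.cont, fun t => (a.bound t).trans ?_, ?_⟩
    · have h3 : 0 ≤ Real.log (1 / (σ - 1 / 2)) := by
        apply Real.log_nonneg
        rw [le_div_iff₀ (by linarith)]
        linarith
      have h4 : |c₀| ≤ |c₀| * (1 + Real.log (1 / (σ - 1 / 2))) := by
        have := mul_nonneg (abs_nonneg c₀) h3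
        linarith
      calc |c₀| + C₂ * (1 + Real.log (1 / (σ - 1 / 2))) + C₁ * (1 + Real.log (1 / (σ - 1 / 2)))
          ≤ |c₀| * (1 + Real.log (1 / (σ - 1 / 2))) + C₂ * (1 + Real.log (1 / (σ - 1 / 2)))
            + C₁ * (1 + Real.log (1 / (σ - 1 / 2))) := by linarith
        _ = _ := by ring
    · convert a.mean using 2
      have e1 : exp (-((lam * (σ - 1 / 2) : ℝ) : ℂ))
          = exp ((lam / 2 : ℝ) : ℂ) * exp (-((lam * σ : ℝ) : ℂ)) := by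
        rw [← Complex.exp_add]
        congr 1
        push_cast
        ring
      rw [e1]
      ring
  · intro σ t h1 h2 h3
    exact hr σ t h1 h2 h3
  · intro σ t h1 h2 h3
    rw [hll σ t h1 h2 h3, hr (1 - σ) t (by linarith) (by linarith) h3]

end Pool.Agent.PrimesOnly
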