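import Pool.Agent.PrimesOnly.Defs

/-! Exact targets of the blocks. -/

namespace Pool.Agent.PrimesOnly

open Complex Filter Topology Set MeasureTheory Pool.Agent.SelPole Pool.Agent.CohenPD
open scoped ComplexConjugate ArithmeticFunction.vonMangoldt

/-- the domain of the potential -/
def dom (T : ℝ) : Set ℂ := {s | 0 < s.re ∧ s.re < 1 ∧ T < s.im}

/-- abscissa of absolute convergence -/
def T_ABS : Prop := ∀ {P R : ℂ → ℂ} {p q : ℕ → ℝ} {E : Set ℕ} {σ₀ : ℝ} {K : ℕ},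
  Cmp P R p q E σ₀ K →
    LSeries.abscissaOfAbsConv (fun n => ((q n - p n : ℝ) : ℂ)) ≤ ((1 / 2 : ℝ) : EReal)

/-- boundary behaviour of the logarithmic derivative -/
def T_LIM : Prop := ∀ {P R : ℂ → ℂ} {p q : ℕ → ℝ}, EulerFE P (fun n => (p n : ℂ)) →
  EulerFE R (fun n => (q n : ℂ)) →
  LSeries.abscissaOfAbsConv (fun n => ((q n - p n : ℝ) : ℂ)) ≤ ((1 / 2 : ℝ) : EReal) → ∀ t : ℝ,
    Tendsto (fun y : ℝ => (y : ℂ) * LSeries (fun n => ((q n - p n : ℝ) : ℂ)) (1 / 2 + y + t * I))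
      (𝓝[>] 0) (𝓝 (-(eo P R t : ℂ)))

/-- the series of the squares -/
def T_SQ : Prop := (∀ s : ℂ, 1 / 2 < s.re → LSeriesSummable (fun n => (sq n : ℂ)) s) ∧
  ∀ t : ℝ, Tendsto (fun y : ℝ => (y : ℂ) * LSeries (fun n => (sq n : ℂ)) (1 / 2 + y + t * I))
      (𝓝[>] 0) (𝓝 (if t = 0 then 1 else 0))

/-- `pe` is positive definite and even -/
def T_PD : Prop := ∀ {P R : ℂ → ℂ} {p q : ℕ → ℝ} {E : Set ℕ} {σ₀ : ℝ} {K : ℕ},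
  Cmp P R p q E σ₀ K → (∀ (s : Finset ℝ) (c : ℝ → ℝ),
    0 ≤ ∑ x ∈ s, ∑ y ∈ s, c x * c y * (pe P R K (x - y) : ℝ)) ∧
    ∀ t : ℝ, pe P R K (-t) = pe P R K t

/-- `pe` vanishes near `0` -/
def T_PUN : Prop := ∀ {P R : ℂ → ℂ} {p q : ℕ → ℝ} (K : ℕ), EulerFE P (fun n => (p n : ℂ)) →
  EulerFE R (fun n => (q n : ℂ)) → ∃ δ : ℝ, 0 < δ ∧ ∀ t : ℝ, 0 < |t| → |t| < δ → pe P R K t = 0

/-- logarithmic bound for the series of `log R/P` -/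
def T_LB : Prop := ∀ {P R : ℂ → ℂ} {p q : ℕ → ℝ} {E : Set ℕ} {σ₀ : ℝ} {K : ℕ},
  Cmp P R p q E σ₀ K → ∃ C : ℝ, ∀ y : ℝ, 1 / 2 < y → y ≤ 1 →
    Summable (fun n : ℕ => |q n - p n| / Real.log n * (n : ℝ) ^ (-y)) ∧
    ∑' n : ℕ, |q n - p n| / Real.log n * (n : ℝ) ^ (-y) ≤ C * (1 + Real.log (1 / (y - 1 / 2)))

/-- the structure theorem for integer valued positive definite functions -/
def T_COH : Prop := ∀ (f : ℝ → ℤ), (∀ (s : Finset ℝ) (c : ℝ → ℝ),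
    0 ≤ ∑ x ∈ s, ∑ y ∈ s, c x * c y * (f (x - y) : ℝ)) → (∀ t, f (-t) = f t) →
    ∀ {δ : ℝ}, 0 < δ → (∀ t : ℝ, 0 < |t| → |t| < δ → f t = 0) →
    ∃ l : List (ℤ × ℝ × ℝ), (∀ x ∈ l, 0 ≤ x.2.2) ∧ ∀ t, f t = indSum l t

/-- operations on the functional equation -/
def T_UOPS : Prop := (∀ {F G : ℂ → ℂ}, UFE F → UFE G → UFE (fun s => F s * G s)) ∧
  (∀ {F : ℂ → ℂ}, UFE F → UFE (fun s => (F s)⁻¹)) ∧ UFE (fun _ => 1) ∧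
  ∀ {F : ℂ → ℂ}, UFE F → ∀ r : ℕ, UFE (fun s => F s ^ r)

/-- functional equation with Gamma factors -/
def T_UNORM : Prop := ∀ {F : ℂ → ℂ} {Q : ℝ}, 0 < Q → ∀ {k : ℕ} {lam : Fin k → ℝ}
    {mu : Fin k → ℂ}, (∀ j, 0 < lam j) → (∀ j, 0 ≤ (mu j).re) →
    (∀ σ t : ℝ, 0 < σ → σ < 1 → Q ^ σ * (∏ j, ‖Gamma (lam j * ((σ : ℂ) + t * I) + mu j)‖)
      * ‖F ((σ : ℂ) + t * I)‖ = Q ^ (1 - σ) *
      (∏ j, ‖Gamma (lam j * (((1 - σ : ℝ) : ℂ) + t * I) + mu j)‖)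
      * ‖F (((1 - σ : ℝ) : ℂ) + t * I)‖) → UFE F

/-- functional equations of the functions of the problem -/
def T_UPROD : Prop := (∀ {F : ℂ → ℂ} {b : ℕ → ℂ}, IsEulerProduct F b → UFE F ∧
  UFE (fun s => conj (F (conj s)))) ∧ UFE riemannZeta

/-- functional equation of the product of the factors of a list -/
def T_UAPL : Prop := ∀ l : List (ℤ × ℝ × ℝ), (∀ x ∈ l, 0 ≤ x.2.2) → UFE (apl l)

/-- reflection of orders -/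
def T_REF : Prop := ∀ {F : ℂ → ℂ}, UFE F → (∀ z, MeromorphicAt F z) → ∀ z : ℂ, 0 < z.re →
  z.re < 1 → meromorphicOrderAt F z = meromorphicOrderAt F (1 - conj z)

/-- orders of the product of the factors of a list -/
def T_APO : Prop := (∀ (l : List (ℤ × ℝ × ℝ)) (z : ℂ), MeromorphicAt (apl l) z) ∧
  (∀ l : List (ℤ × ℝ × ℝ), (∀ x ∈ l, 0 ≤ x.2.2) → ∃ T₀ : ℝ, ∀ t : ℝ, T₀ < t →
      meromorphicOrderAt (apl l) (1 / 2 + t * I) = ((indSum l t : ℤ) : WithTop ℤ)) ∧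
  ∀ l : List (ℤ × ℝ × ℝ), (∀ x ∈ l, 0 ≤ x.2.2) → ∀ z : ℂ, z.re ≠ 1 / 2 →
    meromorphicOrderAt (apl l) z = 0

/-- mean values of almost periodic series -/
def T_SER : Prop := ∀ {d : ℕ → ℂ}, Summable (fun n => ‖d n‖) → ∀ ν : ℕ → ℝ, (∀ n, 0 ≤ ν n) →
    ∀ {lam : ℝ}, 0 < lam → HasMean (fun t => (∑' n, d n * exp (-((ν n : ℝ) : ℂ) * t * I)).re) lam
      ((1 / 2) * ∑' n, (if ν n = lam then d n else 0)) (∑' n, ‖d n‖)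

/-- operations on mean values -/
def T_MOPS : Prop :=
  (∀ {φ ψ : ℝ → ℝ} {lam B B' : ℝ} {m m' : ℂ}, HasMean φ lam m B → HasMean ψ lam m' B' →
    HasMean (fun t => φ t + ψ t) lam (m + m') (B + B')) ∧
  (∀ {φ : ℝ → ℝ} {lam B : ℝ} {m : ℂ}, HasMean φ lam m B → ∀ a : ℝ,
    HasMean (fun t => a * φ t) lam (a * m) (|a| * B)) ∧
  (∀ (a : ℝ) {lam : ℝ}, 0 < lam → HasMean (fun _ => a) lam 0 |a|) ∧
  ∀ {φ : ℝ → ℝ} {lam B : ℝ} {m : ℂ}, HasMean φ lam m B → ∀ η : ℝ,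
    Tendsto (fun T : ℝ => (1 / T : ℂ) * ∫ t in T..2 * T, (φ (t + η) : ℂ) * exp (lam * t * I)) atTop
    (𝓝 (exp (-((lam * η : ℝ) : ℂ) * I) * m))

/-- mean value of the logarithm -/
def T_MLOG : Prop := ∀ {lam : ℝ}, 0 < lam → ∀ ε : ℝ, 0 < ε → ∀ᶠ T : ℝ in atTop, ∀ η : ℝ,
    |η| ≤ 1 → ‖(1 / T : ℂ) * ∫ t in T..2 * T, (Real.log (t + η) : ℂ) * exp (lam * t * I)‖ ≤ ε

/-- mean values of `log |apl l|` -/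
def T_APM : Prop := ∀ l : List (ℤ × ℝ × ℝ), (∀ x ∈ l, 0 ≤ x.2.2) → ∀ {lam : ℝ}, 0 < lam →
    ∃ C : ℝ, ∀ σ : ℝ, 1 / 2 < σ → σ ≤ 1 → HasMean (fun t => Real.log ‖apl l ((σ : ℂ) + t * I)‖) lam
      (-(1 / 2) * exp (-((lam * (σ - 1 / 2) : ℝ) : ℂ)) * apm l lam)
      (C * (1 + Real.log (1 / (σ - 1 / 2))))

/-- mean values of the log series -/
def T_LHM : Prop := ∀ {P R : ℂ → ℂ} {p q : ℕ → ℝ} {E : Set ℕ} {σ₀ : ℝ} {K : ℕ},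
  Cmp P R p q E σ₀ K → ∀ {lam : ℝ}, 0 < lam →
    ∃ C : ℝ, ∀ σ : ℝ, 1 / 2 < σ → σ ≤ 1 → HasMean
      (fun t => (LSeries (unlog (fun n => ((q n - p n : ℝ) : ℂ))) ((σ : ℂ) + t * I)).re) lam
      ((1 / 2) * (lcf p q lam : ℂ) * exp (-((lam * σ : ℝ) : ℂ)))
      (C * (1 + Real.log (1 / (σ - 1 / 2))))

/-- the potential -/
def T_POT : Prop := ∀ {P R : ℂ → ℂ} {p q : ℕ → ℝ} {K : ℕ},
  EulerFE P (fun n => (p n : ℂ)) → EulerFE R (fun n => (q n : ℂ)) →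
  LSeries.abscissaOfAbsConv (fun n => ((q n - p n : ℝ) : ℂ)) ≤ ((1 / 2 : ℝ) : EReal) →
  UFE P → UFE R → ∀ l : List (ℤ × ℝ × ℝ),
    (∀ x ∈ l, 0 ≤ x.2.2) → (∀ t, pe P R K t = indSum l t) →
    ∃ (T₁ : ℝ) (u : ℂ → ℝ) (D κ : ℝ) (X : ℝ → ℝ → ℝ) (c₀ : ℝ),
      ContinuousOn u (dom T₁) ∧
      (∀ (c : ℂ) (ρ : ℝ), 0 < ρ → Metric.closedBall c ρ ⊆ dom T₁ → Real.circleAverage u c ρ = u c) ∧
      (∀ σ t : ℝ, 1 / 2 < σ → σ < 1 → T₁ < t → u ((σ : ℂ) + t * I) =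
        c₀ + (LSeries (unlog (fun n => ((q n - p n : ℝ) : ℂ))) ((σ : ℂ) + t * I)).re
          + Real.log ‖apl l ((σ : ℂ) + t * I)‖) ∧
      (∀ σ t : ℝ, 0 < σ → σ < 1 / 2 → T₁ < t → u ((σ : ℂ) + t * I) =
        Real.log (X σ t) + u (((1 - σ : ℝ) : ℂ) + t * I)) ∧
      (∀ σ t : ℝ, 0 < σ → σ < 1 → 0 < X σ t) ∧
      ContinuousOn (fun z : ℝ × ℝ => X z.1 z.2) (Ioo 0 1 ×ˢ univ) ∧
      ∀ ε : ℝ, 0 < ε → ∀ᶠ t : ℝ in atTop, ∀ σ : ℝ, 0 < σ → σ < 1 / 2 →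
        |Real.log (X σ t) - (1 - 2 * σ) * (D * Real.log t + κ)| ≤ ε

/-- the circle argument -/
def T_CIR : Prop := ∀ {u : ℂ → ℝ} {T₁ : ℝ}, ContinuousOn u (dom T₁) →
    (∀ (c : ℂ) (ρ : ℝ), 0 < ρ → Metric.closedBall c ρ ⊆ dom T₁ →
      Real.circleAverage u c ρ = u c) →
    ∀ {φ : ℝ → ℝ → ℝ} {lam : ℝ}, 0 < lam → ∀ {c : ℂ} {C : ℝ},
    (∀ σ : ℝ, 1 / 2 < σ → σ < 1 → HasMean (φ σ) lam (c * exp (-((lam * σ : ℝ) : ℂ)))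
      (C * (1 + Real.log (1 / (σ - 1 / 2))))) →
    (∀ σ t : ℝ, 1 / 2 < σ → σ < 1 → T₁ < t → u ((σ : ℂ) + t * I) = φ σ t) →
    ∀ {X : ℝ → ℝ → ℝ} {D κ : ℝ}, (∀ σ t : ℝ, 0 < σ → σ < 1 → 0 < X σ t) →
    ContinuousOn (fun z : ℝ × ℝ => X z.1 z.2) (Ioo 0 1 ×ˢ univ) →
    (∀ ε : ℝ, 0 < ε → ∀ᶠ t : ℝ in atTop, ∀ σ : ℝ, 0 < σ → σ < 1 / 2 →
      |Real.log (X σ t) - (1 - 2 * σ) * (D * Real.log t + κ)| ≤ ε) →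
    (∀ σ t : ℝ, 0 < σ → σ < 1 / 2 → T₁ < t →
      u ((σ : ℂ) + t * I) = Real.log (X σ t) + φ (1 - σ) t) → c = 0

/-- the last step -/
def T_FIN : Prop := ∀ {p q : ℕ → ℝ} (l : List (ℤ × ℝ × ℝ)), (∀ x ∈ l, 0 ≤ x.2.2) →
    (∀ lam : ℝ, 0 < lam → (lcf p q lam : ℂ) = exp ((lam / 2 : ℝ) : ℂ) * apm l lam) →
    ∀ {θ C : ℝ}, θ < 1 / 2 → (∀ n : ℕ, 2 ≤ n → |q n - p n| ≤ C * (n : ℝ) ^ θ) →
    ∀ n : ℕ, 2 ≤ n → q n = p n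

end Pool.Agent.PrimesOnly
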